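import Pool.Agent.Work.MP_dc37f8_bd.Interface

set_option autoImplicit false
set_option maxHeartbeats 4000000

open Finset
open scoped Pointwise

namespace Pool.BD.ADD

/-- the sum of the representation numbers -/
lemma sum_rep_le (C U : Finset ℂ) : ∑ u ∈ U, (rep C C u : ℝ) ≤ (C.card : ℝ) ^ 2 := by
  classical
  have h1 : ∑ u ∈ U, rep C C u ≤ (C ×ˢ C).card := by
    have h2 : ∑ u ∈ U, rep C C u =
        (U.sigma (fun u => C.filter (fun a => a + u ∈ C))).card := by
      rw [card_sigma]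
      apply sum_congr rfl
      intro u _
      unfold rep
      congr
    rw [h2]
    apply card_le_card_of_injOn (fun z : (_ : ℂ) × ℂ => (z.2, z.2 + z.1))
    · rintro ⟨u, a⟩ hz
      have hz' := mem_sigma.mp (mem_coe.mp hz)
      have h3 := mem_filter.mp hz'.2
      exact mem_coe.mpr (mem_product.mpr ⟨h3.1, h3.2⟩)
    · rintro ⟨u, a⟩ _ ⟨u', a'⟩ _ he
      simp only [Prod.mk.injEq] at he
      obtain ⟨rfl, he2⟩ := he
      rw [add_left_cancel he2]
  rw [card_product] at h1
  rw [pow_two]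
  exact_mod_cast h1

/-- the group theoretic statement in additive form -/
lemma bsg_add (hB : Pool.BK.Stmt_BSG) (α K : ℝ) (hα : 0 < α) (hK : 0 < K) :
    ∃ c K' : ℝ, 0 < c ∧ 1 ≤ K' ∧ ∀ (A U : Finset ℂ), A.Nonempty →
      α * (A.card : ℝ) ^ 2 ≤ ((A ×ˢ A).filter (fun z => z.2 - z.1 ∈ U)).card →
      (U.card : ℝ) ≤ K * A.card →
      ∃ A' ⊆ A, c * A.card ≤ (A'.card : ℝ) ∧ ((A' - A').card : ℝ) ≤ K' * A'.card := by
  classical
  obtain ⟨c, K', hc, hK', h⟩ := hB α K hα hK
  refine ⟨c, K', hc, hK', ?_⟩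
  intro A U hA h1 h2
  let e : ℂ ≃ Multiplicative ℂ := Multiplicative.ofAdd
  have hcA : (A.map e.toEmbedding).card = A.card := card_map _
  have hcU : ((U.image (fun u => e (-u))).card) = U.card := by
    apply card_image_of_injective
    intro u u' he
    exact neg_injective (e.injective he)
  have hfilter : ((A ×ˢ A).filter (fun z => z.2 - z.1 ∈ U)).card ≤
      (((A.map e.toEmbedding) ×ˢ (A.map e.toEmbedding)).filter
        (fun z => z.1 * z.2⁻¹ ∈ U.image (fun u => e (-u)))).card := by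
    apply card_le_card_of_injOn (fun z : ℂ × ℂ => (e z.1, e z.2))
    · rintro ⟨a, b⟩ hz
      have hz' := mem_filter.mp (mem_coe.mp hz)
      have h3 := mem_product.mp hz'.1
      refine mem_coe.mpr (mem_filter.mpr ⟨mem_product.mpr ⟨mem_map_of_mem _ h3.1,
        mem_map_of_mem _ h3.2⟩, ?_⟩)
      rw [mem_image]
      refine ⟨b - a, hz'.2, ?_⟩
      change e (-(b - a)) = e a * (e b)⁻¹
      rw [neg_sub]
      rfl
    · rintro ⟨a, b⟩ _ ⟨a', b'⟩ _ he
      simp only [Prod.mk.injEq, EmbeddingLike.apply_eq_iff_eq] at he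
      rw [he.1, he.2]
  obtain ⟨A', hA', h3, h4⟩ := h (Multiplicative ℂ) (A.map e.toEmbedding)
    (U.image (fun u => e (-u))) (hA.map) (by
      rw [hcA]
      refine h1.trans ?_
      exact_mod_cast hfilter) (by rw [hcA, hcU]; exact h2)
  refine ⟨A'.map e.symm.toEmbedding, ?_, ?_, ?_⟩
  · intro a ha
    rw [mem_map] at ha
    obtain ⟨x, hx, rfl⟩ := ha
    have := hA' hx
    rw [mem_map] at this
    obtain ⟨y, hy, rfl⟩ := this
    simpa using hy
  · rw [card_map, ← hcA]
    exact h3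
  · rw [card_map]
    refine le_trans ?_ h4
    have h5 : ((A'.map e.symm.toEmbedding - A'.map e.symm.toEmbedding)).card ≤
        (A' * A'⁻¹).card := by
      apply card_le_card_of_injOn (fun z : ℂ => e z)
      · intro z hz
        have hz' := mem_sub.mp (mem_coe.mp hz)
        obtain ⟨x, hx, y, hy, rfl⟩ := hz'
        rw [mem_map] at hx hy
        obtain ⟨x', hx', rfl⟩ := hx
        obtain ⟨y', hy', rfl⟩ := hy
        apply mem_coe.mpr
        exact mem_mul.mpr ⟨x', hx', y'⁻¹, inv_mem_inv hy', rfl⟩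
      · intro z _ w _ he
        exact e.injective he
    exact_mod_cast h5

end Pool.BD.ADD

namespace Pool.BD

/-- ADD: additive Balog-Szemeredi-Gowers -/
theorem stmt_ADD (hB : Pool.BK.Stmt_BSG) : Stmt_ADD := by
  classical
  intro c hc
  have hs : 0 < Real.sqrt (c / 2) := Real.sqrt_pos.mpr (by positivity)
  obtain ⟨c', K', hc', hK', hmain⟩ := ADD.bsg_add hB (c / 2) ((2 / c) / Real.sqrt (c / 2))
    (by positivity) (by positivity)
  refine ⟨c' * Real.sqrt (c / 2), K', by positivity, by linarith, ?_⟩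
  intro A C n hn hA hC hsum
  have hn' : (0 : ℝ) < n := by exact_mod_cast hn
  have hA' : (A.card : ℝ) ≤ n := by exact_mod_cast hA
  have hC' : (C.card : ℝ) ≤ n := by exact_mod_cast hC
  set U : Finset ℂ := (A - A).filter (fun u => c / 2 * n ≤ (rep C C u : ℝ)) with hU
  have hrep : ∀ u, (rep C C u : ℝ) ≤ n := by
    intro u
    refine le_trans ?_ hC'
    have : rep C C u ≤ C.card := card_filter_le _ _
    exact_mod_cast this
  -- the number of pairs
  have hpairs : c / 2 * (n : ℝ) ^ 2 ≤ (((A ×ˢ A).filter (fun z => z.2 - z.1 ∈ U)).card : ℝ) := by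
    have h1 : ∑ z ∈ A ×ˢ A, (rep C C (z.2 - z.1) : ℝ) ≤
        ∑ z ∈ A ×ˢ A, ((if z.2 - z.1 ∈ U then (n : ℝ) else 0) + c / 2 * n) := by
      apply sum_le_sum
      intro z hz
      split_ifs with h
      · have := hrep (z.2 - z.1)
        have h2 : 0 ≤ c / 2 * (n : ℝ) := by positivity
        linarith
      · have hmem : z.2 - z.1 ∈ A - A :=
          sub_mem_sub (mem_product.mp hz).2 (mem_product.mp hz).1
        have h2 : ¬ (c / 2 * n ≤ (rep C C (z.2 - z.1) : ℝ)) := fun h3 =>
          h (mem_filter.mpr ⟨hmem, h3⟩)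
        linarith
    rw [sum_add_distrib, ← sum_filter, sum_const, sum_const, nsmul_eq_mul, nsmul_eq_mul,
      card_product] at h1
    have h2 : ((A.card * A.card : ℕ) : ℝ) * (c / 2 * n) ≤ (n : ℝ) ^ 2 * (c / 2 * n) := by
      apply mul_le_mul_of_nonneg_right _ (by positivity)
      push_cast
      nlinarith [Nat.cast_nonneg (α := ℝ) A.card]
    have h3 : c / 2 * (n : ℝ) ^ 2 * n ≤
        (((A ×ˢ A).filter (fun z => z.2 - z.1 ∈ U)).card : ℝ) * n := by nlinarith
    exact le_of_mul_le_mul_right h3 hn'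
  have hUcard : (U.card : ℝ) ≤ 2 / c * n := by
    have h1 : (U.card : ℝ) * (c / 2 * n) ≤ ∑ u ∈ U, (rep C C u : ℝ) := by
      rw [← nsmul_eq_mul, ← sum_const]
      exact sum_le_sum fun u hu => (mem_filter.mp hu).2
    have h2 := ADD.sum_rep_le C U
    have h3 : (C.card : ℝ) ^ 2 ≤ (n : ℝ) ^ 2 :=
      pow_le_pow_left₀ (Nat.cast_nonneg _) hC' 2
    have h4 : (U.card : ℝ) * (c / 2 * n) ≤ (2 / c * n) * (c / 2 * n) := by
      have : (2 / c * (n : ℝ)) * (c / 2 * n) = (n : ℝ) ^ 2 := by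
        field_simp
      rw [this]
      linarith
    exact le_of_mul_le_mul_right h4 (by positivity)
  have hAsq : c / 2 * (n : ℝ) ^ 2 ≤ (A.card : ℝ) ^ 2 := by
    refine hpairs.trans ?_
    have h1 : ((A ×ˢ A).filter (fun z => z.2 - z.1 ∈ U)).card ≤ A.card * A.card := by
      rw [← card_product]
      exact card_filter_le _ _
    rw [pow_two]
    exact_mod_cast h1
  have hAn : Real.sqrt (c / 2) * n ≤ (A.card : ℝ) := by
    apply le_of_sq_le_sq _ (Nat.cast_nonneg _)
    rw [mul_pow, Real.sq_sqrt (by positivity)]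
    exact hAsq
  have hAne : A.Nonempty := by
    rw [← card_pos]
    have : (0 : ℝ) < A.card := lt_of_lt_of_le (by positivity) hAn
    exact_mod_cast this
  obtain ⟨A', hsub, h5, h6⟩ := hmain A U hAne (by
    refine le_trans ?_ hpairs
    apply mul_le_mul_of_nonneg_left _ (by positivity)
    exact pow_le_pow_left₀ (Nat.cast_nonneg _) hA' 2) (by
    refine hUcard.trans ?_
    have h7 : 2 / c * (Real.sqrt (c / 2) * n) ≤ 2 / c * (A.card : ℝ) :=
      mul_le_mul_of_nonneg_left hAn (by positivity)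
    have h8 : 2 / c / Real.sqrt (c / 2) * (A.card : ℝ) =
        2 / c * (A.card : ℝ) / Real.sqrt (c / 2) := by ring
    rw [h8, le_div_iff₀ hs]
    linarith)
  refine ⟨A', hsub, ?_, h6⟩
  calc c' * Real.sqrt (c / 2) * n = c' * (Real.sqrt (c / 2) * n) := by ring
    _ ≤ c' * A.card := mul_le_mul_of_nonneg_left hAn hc'.le
    _ ≤ A'.card := h5

end Pool.BD
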