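import Pool.Agent.Work.MP_dc37f8_bd.Interface

/-! CEN: isometries with few pairs of centres move points of rich circles to points of rich
circles. -/

set_option autoImplicit false

open Finset

namespace Pool.BD

open Pool.BK

namespace CEN

theorem bad_sub (hiso : ∀ f : Gp, IsIso f → ∀ z w : ℂ, dist (f z) (f w) = dist z w)
    {P : Finset ℂ} {β : ℝ} {𝒬 : Finset (ℂ × ℂ)} {z : ℂ × ℂ} (hz : z ∈ 𝒬) {g : Gp}
    (hg : IsIso g) (hgz : g z.1 = z.2) {p : ℂ} (hp : p ∈ bad P (Rr P β 𝒬) g) :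
    p ∈ P ∧ (p = z.1 ∨ (p, g p) ∈ UP.PR (UP.A1 P (β * P.card) z.1 z.2) P z.1 z.2 ∨
      (p, g p) ∈ UP.PR P (UP.A1 P (β * P.card) z.2 z.1) z.1 z.2) := by
  obtain ⟨hpst, hbad⟩ := mem_filter.1 hp
  have hpP : p ∈ P := (mem_filter.1 hpst).1
  have hgp : g p ∈ P := (mem_filter.1 hpst).2
  refine ⟨hpP, ?_⟩
  rcases UP.st_sub hiso (b := β * P.card) hg hgz hpst with h | h | h | h
  · exact Or.inl h
  · exfalso
    have h1 := (mem_product.1 (mem_filter.1 h).1).1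
    have h2 := (mem_product.1 (mem_filter.1 h).1).2
    exact hbad ⟨mem_filter.2 ⟨hpP, z, hz, Or.inl h1⟩, mem_filter.2 ⟨hgp, z, hz, Or.inr h2⟩⟩
  · exact Or.inr (Or.inl h)
  · exact Or.inr (Or.inr h)

set_option maxHeartbeats 4000000 in
theorem one_pair (hTWO : Stmt_TWO)
    (hiso : ∀ f : Gp, IsIso f → ∀ z w : ℂ, dist (f z) (f w) = dist z w)
    {P : Finset ℂ} {β : ℝ} (hβ : 0 < β) {𝒬 : Finset (ℂ × ℂ)} {z : ℂ × ℂ} (hz : z ∈ 𝒬)
    {H : Finset Gp} (hH : ∀ g ∈ H, IsIso g ∧ g z.1 = z.2) :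
    ∑ g ∈ H, ((bad P (Rr P β 𝒬) g).card : ℝ) ≤ 4 * (β * (P.card : ℝ) ^ 2) + H.card := by
  have hb0 : 0 ≤ β * (P.card : ℝ) := by positivity
  obtain ⟨S1, hS1⟩ : ∃ S1, S1 = UP.PR (UP.A1 P (β * P.card) z.1 z.2) P z.1 z.2 := ⟨_, rfl⟩
  obtain ⟨S2, hS2⟩ : ∃ S2, S2 = UP.PR P (UP.A1 P (β * P.card) z.2 z.1) z.1 z.2 := ⟨_, rfl⟩
  have hPR : ∀ {A B : Finset ℂ} {s : ℂ × ℂ}, s ∈ UP.PR A B z.1 z.2 → s.1 ≠ z.1 :=
    fun hs => (mem_filter.1 hs).2.1
  have e1 := UP.inc hTWO hH P S1 (fun s hs => hPR (hS1 ▸ hs))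
  have e2 := UP.inc hTWO hH P S2 (fun s hs => hPR (hS2 ▸ hs))
  have s1 : (S1.card : ℝ) ≤ β * P.card * P.card := by
    rw [hS1]
    refine (UP.PR_le_left (subset_refl P) hb0 ?_).trans ?_
    · intro p hp _
      exact (mem_filter.1 hp).2.le
    · have : ((UP.A1 P (β * P.card) z.1 z.2).card : ℝ) ≤ (P.card : ℝ) := by
        exact_mod_cast card_le_card (UP.A1_sub P _ z.1 z.2)
      exact mul_le_mul_of_nonneg_left this hb0
  have s2 : (S2.card : ℝ) ≤ β * P.card * P.card := by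
    rw [hS2]
    refine (UP.PR_le_right (m := β * P.card) (subset_refl P) ?_).trans ?_
    · intro q hq
      exact (mem_filter.1 hq).2.le
    · have : ((UP.A1 P (β * P.card) z.2 z.1).card : ℝ) ≤ (P.card : ℝ) := by
        exact_mod_cast card_le_card (UP.A1_sub P _ z.2 z.1)
      exact mul_le_mul_of_nonneg_left this hb0
  have h : ∀ g ∈ H, (bad P (Rr P β 𝒬) g).card ≤ (P.filter (fun p => (p, g p) ∈ S1)).card +
      (P.filter (fun p => (p, g p) ∈ S2)).card + 1 := by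
    intro g hg
    have hsub : bad P (Rr P β 𝒬) g ⊆ insert z.1 ((P.filter (fun p => (p, g p) ∈ S1)) ∪
        (P.filter (fun p => (p, g p) ∈ S2))) := by
      intro p hp
      obtain ⟨hpP, h1 | h1 | h1⟩ := bad_sub hiso hz (hH g hg).1 (hH g hg).2 hp
      · exact mem_insert.2 (Or.inl h1)
      · exact mem_insert.2 (Or.inr (mem_union.2 (Or.inl (mem_filter.2 ⟨hpP, hS1 ▸ h1⟩))))
      · exact mem_insert.2 (Or.inr (mem_union.2 (Or.inr (mem_filter.2 ⟨hpP, hS2 ▸ h1⟩))))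
    refine (card_le_card hsub).trans ((card_insert_le _ _).trans ?_)
    have h3 := card_union_le (P.filter (fun p => (p, g p) ∈ S1))
      (P.filter (fun p => (p, g p) ∈ S2))
    omega
  have h4 : ∑ g ∈ H, (bad P (Rr P β 𝒬) g).card ≤ 2 * S1.card + 2 * S2.card + H.card := by
    calc ∑ g ∈ H, (bad P (Rr P β 𝒬) g).card
        ≤ ∑ g ∈ H, ((P.filter (fun p => (p, g p) ∈ S1)).card +
            (P.filter (fun p => (p, g p) ∈ S2)).card + 1) := sum_le_sum h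
      _ = ∑ g ∈ H, (P.filter (fun p => (p, g p) ∈ S1)).card +
            ∑ g ∈ H, (P.filter (fun p => (p, g p) ∈ S2)).card + H.card := by
          rw [sum_add_distrib, sum_add_distrib, sum_const, smul_eq_mul, mul_one]
      _ ≤ _ := by omega
  have h5 : ∑ g ∈ H, ((bad P (Rr P β 𝒬) g).card : ℝ) ≤ 2 * S1.card + 2 * S2.card + H.card := by
    exact_mod_cast h4
  have h6 : β * (P.card : ℝ) * P.card = β * (P.card : ℝ) ^ 2 := by ring
  rw [h6] at s1 s2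
  linarith

end CEN

set_option maxHeartbeats 4000000 in
theorem stmt_CEN (hTWO : Pool.BK.Stmt_TWO) (hGEO : Pool.BK.Stmt_GEO) : Stmt_CEN := by
  intro L δ η hδ hη
  have hiso := hGEO.2.2.2.2.2.2.2.2.2.2.2.1
  obtain ⟨n₀, hn₀⟩ := exists_nat_ge (2 / δ + 8 * L / (δ * η) + 1)
  refine ⟨η / (8 * L + 8), n₀, by positivity, ?_⟩
  intro P β hβ hββ hP 𝒬 𝒢 h𝒬 hG hrG
  obtain ⟨n, hn⟩ : ∃ n : ℝ, n = (P.card : ℝ) := ⟨_, rfl⟩
  have hnn : 2 / δ + 8 * L / (δ * η) + 1 ≤ n :=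
    hn₀.trans (by rw [hn]; exact_mod_cast hP)
  have t1 : 0 ≤ 2 / δ := by positivity
  have t2 : 0 ≤ 8 * L / (δ * η) := by positivity
  have hn1 : 1 ≤ n := by linarith
  have hn2 : 2 ≤ δ * n := by
    have : 2 / δ ≤ n := by linarith
    rw [div_le_iff₀ hδ] at this
    linarith
  have hn3 : 8 * L ≤ n * (δ * η) := by
    have : 8 * L / (δ * η) ≤ n := by linarith
    rwa [div_le_iff₀ (by positivity)] at this
  have hL : (𝒬.card : ℝ) ≤ L := by exact_mod_cast h𝒬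
  have hone : ∀ z ∈ 𝒬, ∑ g ∈ 𝒢.filter (fun g => g z.1 = z.2),
      ((bad P (Rr P β 𝒬) g).card : ℝ) ≤ 4 * (β * n ^ 2) + 4 * n / δ := by
    intro z hz
    have hH : ∀ g ∈ 𝒢.filter (fun g => g z.1 = z.2), IsIso g ∧ g z.1 = z.2 := by
      intro g hg
      obtain ⟨h1, h2⟩ := mem_filter.1 hg
      exact ⟨(hG g h1).1, h2⟩
    have h1 := CEN.one_pair (P := P) hTWO hiso hβ hz hH
    have h2 := UP.card_H hTWO hH hδ (fun g hg => hrG g (mem_filter.1 hg).1) (hn ▸ hn2)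
    rw [← hn] at h1 h2
    linarith
  have hcov := UP.sum_cover (𝒬 := 𝒬) (𝒢 := 𝒢) (f := fun g => ((bad P (Rr P β 𝒬) g).card : ℝ))
    (fun g => Nat.cast_nonneg _) (fun g hg => (hG g hg).2)
  refine hcov.trans ((sum_le_sum hone).trans ?_)
  rw [sum_const, nsmul_eq_mul, ← hn]
  have h0 : 0 ≤ 4 * (β * n ^ 2) + 4 * n / δ := by positivity
  refine (mul_le_mul_of_nonneg_right hL h0).trans ?_
  have h1 : (8 * (L : ℝ) + 8) * β ≤ η := by
    rw [le_div_iff₀ (by positivity)] at hββ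
    linarith
  have h2 : (L : ℝ) * (4 * (β * n ^ 2)) ≤ η / 2 * n ^ 2 := by
    have h3 : 0 ≤ n ^ 2 := by positivity
    have h4 : 4 * (L : ℝ) * β ≤ η / 2 := by linarith
    calc (L : ℝ) * (4 * (β * n ^ 2)) = 4 * (L : ℝ) * β * n ^ 2 := by ring
      _ ≤ _ := mul_le_mul_of_nonneg_right h4 h3
  have h3 : (L : ℝ) * (4 * n / δ) ≤ η / 2 * n ^ 2 := by
    have e1 : (L : ℝ) * (4 * n / δ) = 4 * L * n / δ := by ring
    rw [e1, div_le_iff₀ hδ]
    have e2 : n * (8 * L) ≤ n * (n * (δ * η)) := mul_le_mul_of_nonneg_left hn3 (by linarith)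
    nlinarith
  rw [mul_add]
  linarith

end Pool.BD
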