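import Pool.Agent.Work.MP_dc37f8_bd.Interface

/-! Block CORE: an approximate group has a common pair of centres or a common linear part. -/

set_option autoImplicit false

open Finset

open scoped Pointwise

namespace Pool.BD

open Pool.BK

namespace CORE

/-- linear part of a direct isometry -/
def lin (x : Gp) : ℂ := x 1 - x 0

open Classical in
/-- number of translations in `S^m` -/
lemma trans_bound (hG : Pool.BK.Stmt_GEO) (S : Finset Gp) (hS : ∀ x ∈ S, IsDir x) (B : Finset Gp)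
    (hBS : B ⊆ S) (m : ℕ) :
    ((S ^ m).filter IsTr).card * (B.image lin).card ≤ (S ^ (m + 1)).card := by
  obtain ⟨g1, g2, g3, g4, g5, g6, g7, g8, g9, g10, g11, g12, g13⟩ := hG
  have hβ : ∀ θ : ℂ, ∃ b : Gp, θ ∈ B.image lin → b ∈ B ∧ lin b = θ := by
    intro θ
    by_cases h : θ ∈ B.image lin
    · obtain ⟨b, hb, hbθ⟩ := Finset.mem_image.mp h
      exact ⟨b, fun _ => ⟨hb, hbθ⟩⟩
    · exact ⟨1, fun h' => absurd h' h⟩
  choose β hβ using hβ
  rw [← Finset.card_product]
  apply Finset.card_le_card_of_injOn (fun z => z.1 * β z.2)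
  · rintro ⟨f, θ⟩ hz
    simp only [Finset.coe_product, Set.mem_prod, Finset.mem_coe, Finset.mem_filter] at hz
    rw [Finset.mem_coe, pow_succ]
    exact Finset.mul_mem_mul hz.1.1 (hBS (hβ θ hz.2).1)
  · rintro ⟨f, θ⟩ hz ⟨f', θ'⟩ hw h
    simp only [Finset.coe_product, Set.mem_prod, Finset.mem_coe, Finset.mem_filter] at hz hw
    simp only at h
    have e1 := g9 f (β θ) hz.1.2 (hS _ (hBS (hβ θ hz.2).1))
    have e2 := g9 f' (β θ') hw.1.2 (hS _ (hBS (hβ θ' hw.2).1))
    rw [h] at e1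
    have e3 : θ = θ' := by
      rw [← (hβ θ hz.2).2, ← (hβ θ' hw.2).2]
      unfold lin
      rw [← e1, ← e2]
    subst e3
    rw [mul_right_cancel h]

/-- two of more than 289 unit complex numbers are close -/
lemma close (Θ : Finset ℂ) (h1 : ∀ θ ∈ Θ, ‖θ‖ = 1) (hc : 289 < Θ.card) :
    ∃ θ ∈ Θ, ∃ θ' ∈ Θ, θ ≠ θ' ∧ ‖θ - θ'‖ < 1 / 4 := by
  have hmap : ∀ θ ∈ Θ, ((⌊8 * θ.re⌋, ⌊8 * θ.im⌋) : ℤ × ℤ) ∈
      (Finset.Icc (-8 : ℤ) 8) ×ˢ (Finset.Icc (-8 : ℤ) 8) := by
    intro θ hθ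
    have hr := Complex.abs_re_le_norm θ
    have hi := Complex.abs_im_le_norm θ
    rw [h1 θ hθ] at hr hi
    rw [abs_le] at hr hi
    have aux : ∀ r : ℝ, -1 ≤ r → r ≤ 1 → -8 ≤ ⌊8 * r⌋ ∧ ⌊8 * r⌋ ≤ 8 := by
      intro r hr1 hr2
      constructor
      · rw [Int.le_floor]; push_cast; linarith
      · have : ⌊8 * r⌋ < 9 := by
          rw [Int.floor_lt]; push_cast; linarith
        omega
    rw [Finset.mem_product, Finset.mem_Icc, Finset.mem_Icc]
    exact ⟨aux _ hr.1 hr.2, aux _ hi.1 hi.2⟩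
  have hcard : ((Finset.Icc (-8 : ℤ) 8) ×ˢ (Finset.Icc (-8 : ℤ) 8)).card < Θ.card := by
    rw [Finset.card_product]
    have : (Finset.Icc (-8 : ℤ) 8).card = 17 := by simp
    rw [this]
    omega
  obtain ⟨θ, hθ, θ', hθ', hne, heq⟩ := Finset.exists_ne_map_eq_of_card_lt_of_maps_to hcard hmap
  refine ⟨θ, hθ, θ', hθ', hne, ?_⟩
  rw [Prod.mk.injEq] at heq
  have aux : ∀ a b : ℝ, ⌊8 * a⌋ = ⌊8 * b⌋ → |a - b| < 1 / 8 := by
    intro a b h
    have := Int.abs_sub_lt_one_of_floor_eq_floor h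
    rw [← mul_sub, abs_mul] at this
    rw [abs_of_pos (by norm_num : (0 : ℝ) < 8)] at this
    linarith
  have e1 := aux _ _ heq.1
  have e2 := aux _ _ heq.2
  have := Complex.norm_le_abs_re_add_abs_im (θ - θ')
  rw [Complex.sub_re, Complex.sub_im] at this
  linarith

open Classical in
/-- the case of a short translation: few linear parts -/
lemma few_lin (hG : Pool.BK.Stmt_GEO) (hI : Stmt_ISO) (S : Finset Gp) (hS1 : (1 : Gp) ∈ S)
    (hinv : S⁻¹ = S) (hS : ∀ x ∈ S, IsDir x) (B : Finset Gp) (hBS : B ⊆ S)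
    (f0 : Gp) (hf0 : f0 ∈ (S ^ 4).filter IsTr) (hf0n : f0 0 ≠ 0)
    (hmin : ∀ f ∈ (S ^ 4).filter IsTr, f 0 ≠ 0 → ‖f0 0‖ ≤ ‖f 0‖)
    (hc : 289 < (B.image lin).card) :
    ((S ^ 2).filter IsTr).card * (B.image lin).card ≤ ((S ^ 16).filter IsTr).card := by
  obtain ⟨g1, g2, g3, g4, g5, g6, g7, g8, g9, g10, g11, g12, g13⟩ := hG
  obtain ⟨i1, i2, i3, i4, i5, i6, i7, i8, i9, i10⟩ := hI
  have hi : ∀ x ∈ S, x⁻¹ ∈ S := by
    intro x hx
    rw [← hinv]
    exact Finset.inv_mem_inv hx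
  have hlin : ∀ θ ∈ B.image lin, ‖θ‖ = 1 := by
    intro θ hθ
    obtain ⟨b, hb, rfl⟩ := Finset.mem_image.mp hθ
    exact i3 b (hS b (hBS hb))
  have hmul : ∀ (m m' : ℕ) (x y : Gp), x ∈ S ^ m → y ∈ S ^ m' → x * y ∈ S ^ (m + m') := by
    intro m m' x y hx hy
    rw [pow_add]
    exact Finset.mul_mem_mul hx hy
  have hinvpow : ∀ (m : ℕ) (x : Gp), x ∈ S ^ m → x⁻¹ ∈ S ^ m := by
    intro m x hx
    have : (S ^ m)⁻¹ = S ^ m := by rw [← inv_pow, hinv]
    rw [← this]
    exact Finset.inv_mem_inv hx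
  have hone : ∀ x ∈ S, x ∈ S ^ 1 := by
    intro x hx
    rw [pow_one]; exact hx
  -- conjugation
  have hconj : ∀ (m : ℕ) (θ : ℂ), θ ∈ B.image lin → ∀ f ∈ (S ^ m).filter IsTr,
      ∃ g ∈ (S ^ (m + 2)).filter IsTr, g 0 = θ * f 0 := by
    intro m θ hθ f hf
    obtain ⟨b, hb, rfl⟩ := Finset.mem_image.mp hθ
    rw [Finset.mem_filter] at hf
    refine ⟨b * f * b⁻¹, ?_, i2 b f (hS b (hBS hb)) hf.2⟩
    rw [Finset.mem_filter]
    refine ⟨?_, i1 b f (Or.inl (hS b (hBS hb))) hf.2⟩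
    have h1 := hmul 1 m b f (hone b (hBS hb)) hf.1
    have h2 := hmul (1 + m) 1 (b * f) b⁻¹ h1 (hone _ (hi b (hBS hb)))
    have e : 1 + m + 1 = m + 2 := by ring
    rw [e] at h2
    exact h2
  have hadd : ∀ (m m' : ℕ), ∀ f ∈ (S ^ m).filter IsTr, ∀ g ∈ (S ^ m').filter IsTr,
      f * g ∈ (S ^ (m + m')).filter IsTr ∧ (f * g) 0 = f 0 + g 0 := by
    intro m m' f hf g hg
    rw [Finset.mem_filter] at hf hg
    have := i4 f g hf.2 hg.2
    refine ⟨?_, this.2⟩
    rw [Finset.mem_filter]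
    exact ⟨hmul m m' f g hf.1 hg.1, this.1⟩
  have hneg : ∀ (m : ℕ), ∀ f ∈ (S ^ m).filter IsTr,
      f⁻¹ ∈ (S ^ m).filter IsTr ∧ f⁻¹ 0 = - f 0 := by
    intro m f hf
    rw [Finset.mem_filter] at hf
    have := i5 f hf.2
    refine ⟨?_, this.2⟩
    rw [Finset.mem_filter]
    exact ⟨hinvpow m f hf.1, this.1⟩
  obtain ⟨θ1, hθ1, θ2, hθ2, hne, hclose⟩ := close _ hlin hc
  obtain ⟨a1, ha1, ha1'⟩ := hconj 4 θ1 hθ1 f0 hf0
  obtain ⟨a2, ha2, ha2'⟩ := hconj 4 θ2 hθ2 f0 hf0
  obtain ⟨ha3, ha3'⟩ := hneg _ a2 ha2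
  obtain ⟨ha4, ha4'⟩ := hadd _ _ a1 ha1 a2⁻¹ ha3
  obtain ⟨s, hs⟩ : ∃ s : Gp, s = a1 * a2⁻¹ := ⟨_, rfl⟩
  rw [← hs] at ha4 ha4'
  have hs0 : s 0 = (θ1 - θ2) * f0 0 := by
    rw [ha4', ha1', ha3', ha2']; ring
  have hlm : 0 < ‖f0 0‖ := norm_pos_iff.mpr hf0n
  have hsn : s 0 ≠ 0 := by
    rw [hs0]
    exact mul_ne_zero (sub_ne_zero.mpr hne) hf0n
  have hslt : ‖s 0‖ < ‖f0 0‖ / 4 := by
    rw [hs0, norm_mul]
    nlinarith
  have hγ : ∀ θ : ℂ, ∃ g : Gp, θ ∈ B.image lin → g ∈ (S ^ 14).filter IsTr ∧ g 0 = θ * s 0 := by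
    intro θ
    by_cases h : θ ∈ B.image lin
    · obtain ⟨g, hg, hg'⟩ := hconj _ θ h s ha4
      exact ⟨g, fun _ => ⟨hg, hg'⟩⟩
    · exact ⟨1, fun h' => absurd h' h⟩
  choose γ hγ using hγ
  rw [← Finset.card_product]
  apply Finset.card_le_card_of_injOn (fun z => z.1 * γ z.2)
  · rintro ⟨f, θ⟩ hz
    simp only [Finset.coe_product, Set.mem_prod, Finset.mem_coe] at hz
    rw [Finset.mem_coe]
    exact (hadd 2 14 f hz.1 _ (hγ θ hz.2).1).1
  · rintro ⟨f, θ⟩ hz ⟨f', θ'⟩ hw h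
    simp only [Finset.coe_product, Set.mem_prod, Finset.mem_coe] at hz hw
    simp only at h
    have e1 := (hadd 2 14 f hz.1 _ (hγ θ hz.2).1).2
    have e2 := (hadd 2 14 f' hw.1 _ (hγ θ' hw.2).1).2
    rw [h, e2, (hγ θ hz.2).2, (hγ θ' hw.2).2] at e1
    -- f' 0 + θ' * s 0 = f 0 + θ * s 0
    have h5 := hneg 2 f' hw.1
    have h6 := hadd 2 2 f hz.1 f'⁻¹ h5.1
    have h7 : (f * f'⁻¹) 0 = (θ' - θ) * s 0 := by
      rw [h6.2, h5.2]
      linear_combination -e1
    have h8 : (f * f'⁻¹) 0 = 0 := by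
      by_contra hcon
      have h9 := hmin _ h6.1 hcon
      rw [h7, norm_mul] at h9
      have h10 : ‖θ' - θ‖ ≤ 2 := by
        have := norm_sub_le θ' θ
        rw [hlin θ hz.2, hlin θ' hw.2] at this
        linarith
      nlinarith [norm_nonneg (s 0), norm_nonneg (θ' - θ)]
    have h11 : θ' = θ := by
      rw [h7] at h8
      rcases mul_eq_zero.mp h8 with h | h
      · exact sub_eq_zero.mp h
      · exact absurd h hsn
    have h12 : f = f' := by
      rw [Finset.mem_filter] at hz hw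
      apply i6 f f' hz.1.2 hw.1.2
      rw [h6.2, h5.2] at h8
      linear_combination h8
    rw [h11, h12]

end CORE

open CORE in
theorem stmt_CORE (hG : Pool.BK.Stmt_GEO) (hI : Stmt_ISO) : Stmt_CORE := by
  classical
  have hG' := hG
  have hI' := hI
  obtain ⟨g1, g2, g3, g4, g5, g6, g7, g8, g9, g10, g11, g12, g13⟩ := hG
  obtain ⟨i1, i2, i3, i4, i5, i6, i7, i8, i9, i10⟩ := hI
  intro K hK
  have hK0 : 0 < K := by linarith
  obtain ⟨K16, hK16⟩ : ∃ K16 : ℝ, K16 = 2 ^ 18 * K ^ 36 := ⟨_, rfl⟩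
  have hK160 : 0 < K16 := by rw [hK16]; positivity
  obtain ⟨F0, hF0⟩ : ∃ F0 : ℝ, F0 = 289 + K16 := ⟨_, rfl⟩
  have hF01 : 1 ≤ F0 := by rw [hF0]; linarith
  have hF00 : 0 < F0 := by linarith
  refine ⟨1 / (2 * K * F0), ⌈4 * K⌉₊, by positivity, ?_⟩
  intro A S a hA ha h1 hinv hS hB hpow hN
  obtain ⟨B, hBdef⟩ : ∃ B : Finset Gp, B = S.filter (fun x => a * x ∈ A) := ⟨_, rfl⟩
  rw [← hBdef] at hB
  have hBS : B ⊆ S := by rw [hBdef]; exact Finset.filter_subset _ _
  have hBA : ∀ x ∈ B, a * x ∈ A := by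
    intro x hx
    rw [hBdef, Finset.mem_filter] at hx
    exact hx.2
  have hiso : IsIso a := by
    rcases hA with hA | hA
    · exact Or.inl (hA a ha)
    · exact Or.inr (hA a ha)
  have hApos : (0 : ℝ) < A.card := by exact_mod_cast Finset.card_pos.mpr ⟨a, ha⟩
  have hBpos : (0 : ℝ) < B.card := lt_of_lt_of_le (by positivity) hB
  have hBne : B.Nonempty := Finset.card_pos.mp (by exact_mod_cast hBpos)
  have hAB : (A.card : ℝ) ≤ 2 * K * B.card := by
    rw [div_le_iff₀ (by positivity)] at hB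
    linarith
  have hi : ∀ x ∈ S, x⁻¹ ∈ S := by
    intro x hx
    rw [← hinv]
    exact Finset.inv_mem_inv hx
  by_cases hcase : ∀ f ∈ (S ^ 4).filter IsTr, f 0 = 0
  · -- no translations
    left
    have htriv : ∀ f ∈ (S ^ 4).filter IsTr, f = 1 := by
      intro f hf
      have h2 := hcase f hf
      rw [Finset.mem_filter] at hf
      apply i6 f 1 hf.2 ⟨0, fun z => by simp⟩
      rw [h2]; rfl
    have hB2 : 1 < B.card := by
      have h2 : 4 * K ≤ (A.card : ℝ) := Nat.ceil_le.mp hN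
      have h3 : 4 * K ≤ 2 * K * B.card := h2.trans hAB
      have h4 : (2 : ℝ) ≤ B.card := by
        by_contra hcon
        push Not at hcon
        nlinarith
      have h5 : 2 ≤ B.card := by exact_mod_cast h4
      omega
    obtain ⟨u, hu, hu1⟩ := Finset.exists_mem_ne hB2 1
    have huT : ¬ IsTr u := by
      intro hT
      apply hu1
      apply htriv
      rw [Finset.mem_filter]
      refine ⟨?_, hT⟩
      have : S ⊆ S ^ 4 := by
        have := Finset.pow_subset_pow_right h1 (show 1 ≤ 4 by norm_num)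
        rwa [pow_one] at this
      exact this (hBS hu)
    obtain ⟨c, hc, hcc⟩ := g11 u (hS u (hBS hu)) huT
    refine ⟨c, a c, ?_⟩
    have h2 : B.card ≤ (A.filter (fun g => g c = a c)).card := by
      apply Finset.card_le_card_of_injOn (fun v => a * v)
      · intro v hv
        rw [Finset.mem_coe] at hv
        rw [Finset.mem_coe, Finset.mem_filter]
        refine ⟨hBA v hv, ?_⟩
        rw [Equiv.Perm.coe_mul, Function.comp_apply]
        have h3 : u * v * u⁻¹ * v⁻¹ = 1 := by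
          apply htriv
          rw [Finset.mem_filter]
          refine ⟨?_, g10 u v (hS u (hBS hu)) (hS v (hBS hv))⟩
          have : S ^ 4 = S * S * S * S := by
            simp only [pow_succ, pow_zero, one_mul]
          rw [this]
          exact Finset.mul_mem_mul (Finset.mul_mem_mul (Finset.mul_mem_mul (hBS hu) (hBS hv))
            (hi _ (hBS hu))) (hi _ (hBS hv))
        have h4 : u * 1 * u⁻¹ * 1⁻¹ = 1 := by simp
        have h5 := hcc v 1 (hS v (hBS hv)) (hS 1 h1) (h3.trans h4.symm)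
        rw [h5]
        rfl
      · intro v _ v' _ h
        exact mul_left_cancel h
    have h3 : (B.card : ℝ) ≤ ((A.filter (fun g => g c = a c)).card : ℝ) := by exact_mod_cast h2
    refine le_trans ?_ h3
    rw [div_mul_eq_mul_div, one_mul, div_le_iff₀ (by positivity)]
    calc (A.card : ℝ) ≤ 2 * K * B.card := hAB
      _ ≤ 2 * K * B.card * F0 := le_mul_of_one_le_right (by positivity) hF01
      _ = _ := by ring
  · right
    push Not at hcase
    -- the shortest translation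
    obtain ⟨f0, hf0, hmin⟩ := Finset.exists_min_image
      (((S ^ 4).filter IsTr).filter (fun f => f 0 ≠ 0)) (fun f => ‖f 0‖) (by
        obtain ⟨f, hf, hf'⟩ := hcase
        exact ⟨f, Finset.mem_filter.mpr ⟨hf, hf'⟩⟩)
    rw [Finset.mem_filter] at hf0
    -- the largest fibre
    obtain ⟨θ, hθ, hmax⟩ := Finset.exists_max_image (B.image lin)
      (fun θ => (B.filter (fun b => lin b = θ)).card) (hBne.image _)
    obtain ⟨F, hF⟩ : ∃ F : Finset Gp, F = B.filter (fun b => lin b = θ) := ⟨_, rfl⟩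
    rw [← hF] at hmax
    have hFB : F ⊆ B := by rw [hF]; exact Finset.filter_subset _ _
    have hFne : F.Nonempty := by
      obtain ⟨b, hb, hbθ⟩ := Finset.mem_image.mp hθ
      exact ⟨b, by rw [hF, Finset.mem_filter]; exact ⟨hb, hbθ⟩⟩
    have hFlin : ∀ b ∈ F, lin b = θ := by
      intro b hb
      rw [hF, Finset.mem_filter] at hb
      exact hb.2
    have hcard : B.card ≤ F.card * (B.image lin).card :=
      Finset.card_le_mul_card_image _ _ (fun x hx => hmax x hx)
    have hcardR : (B.card : ℝ) ≤ F.card * (B.image lin).card := by exact_mod_cast hcard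
    have hFpos : (0 : ℝ) < F.card := by exact_mod_cast hFne.card_pos
    have hlpos : (0 : ℝ) < (B.image lin).card := by
      exact_mod_cast (hBne.image lin).card_pos
    obtain ⟨b0, hb0⟩ := hFne
    have htr : ∀ b ∈ F, IsTr (b * b0⁻¹) := by
      intro b hb
      apply g6 b b0 (hS _ (hBS (hFB hb))) (hS _ (hBS (hFB hb0)))
      have e1 := hFlin b hb
      have e2 := hFlin b0 hb0
      unfold lin at e1 e2
      rw [e1, e2]
    have hFT : F.card ≤ ((S ^ 2).filter IsTr).card := by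
      apply Finset.card_le_card_of_injOn (fun b => b * b0⁻¹)
      · intro b hb
        rw [Finset.mem_coe] at hb
        rw [Finset.mem_coe, Finset.mem_filter]
        refine ⟨?_, htr b hb⟩
        rw [pow_two]
        exact Finset.mul_mem_mul (hBS (hFB hb)) (hi _ (hBS (hFB hb0)))
      · intro v _ v' _ h
        exact mul_right_cancel h
    have hf : ((B.image lin).card : ℝ) ≤ F0 := by
      by_cases hc : 289 < (B.image lin).card
      · have h2 := few_lin hG' hI' S h1 hinv hS B hBS f0 hf0.1 hf0.2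
          (fun f hf hfn => hmin f (Finset.mem_filter.mpr ⟨hf, hfn⟩)) hc
        have h3 := trans_bound hG' S hS B hBS 16
        have h4 : (((S ^ 2).filter IsTr).card : ℝ) * (B.image lin).card ≤
            ((S ^ 16).filter IsTr).card := by exact_mod_cast h2
        have h5 : (((S ^ 16).filter IsTr).card : ℝ) * (B.image lin).card ≤
            2 ^ 17 * K ^ (2 * 17 + 1) * A.card := by
          refine le_trans ?_ (hpow 17)
          exact_mod_cast h3
        have h6 : (F.card : ℝ) ≤ ((S ^ 2).filter IsTr).card := by exact_mod_cast hFT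
        have h7 : 2 ^ 17 * K ^ (2 * 17 + 1) * (A.card : ℝ) ≤
            K16 * F.card * (B.image lin).card := by
          calc 2 ^ 17 * K ^ (2 * 17 + 1) * (A.card : ℝ)
              ≤ 2 ^ 17 * K ^ (2 * 17 + 1) * (2 * K * (F.card * (B.image lin).card)) := by
                apply mul_le_mul_of_nonneg_left _ (by positivity)
                exact hAB.trans (mul_le_mul_of_nonneg_left hcardR (by positivity))
            _ = _ := by rw [hK16]; ring
        have h8 : (((S ^ 16).filter IsTr).card : ℝ) ≤ K16 * F.card :=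
          le_of_mul_le_mul_right (h5.trans h7) hlpos
        have h9 : (F.card : ℝ) * (B.image lin).card ≤ K16 * F.card := by
          refine le_trans (mul_le_mul_of_nonneg_right h6 hlpos.le) (h4.trans h8)
        have h10 : ((B.image lin).card : ℝ) ≤ K16 := by
          rw [mul_comm K16] at h9
          exact le_of_mul_le_mul_left h9 hFpos
        rw [hF0]; linarith
      · have h2 : ((B.image lin).card : ℝ) ≤ 289 := by exact_mod_cast (not_lt.mp hc)
        rw [hF0]; linarith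
    refine ⟨a * b0, hBA b0 (hFB hb0), ?_⟩
    have h2 : F.card ≤ (A.filter (fun g => IsTr (g * (a * b0)⁻¹))).card := by
      apply Finset.card_le_card_of_injOn (fun v => a * v)
      · intro v hv
        rw [Finset.mem_coe] at hv
        rw [Finset.mem_coe, Finset.mem_filter]
        refine ⟨hBA v (hFB hv), ?_⟩
        have h3 := i1 a (v * b0⁻¹) hiso (htr v hv)
        have e : a * v * (a * b0)⁻¹ = a * (v * b0⁻¹) * a⁻¹ := by
          rw [mul_inv_rev]; simp only [mul_assoc]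
        show IsTr (a * v * (a * b0)⁻¹)
        rw [e]
        exact h3
      · intro v _ v' _ h
        exact mul_left_cancel h
    have h3 : (F.card : ℝ) ≤ ((A.filter (fun g => IsTr (g * (a * b0)⁻¹))).card : ℝ) := by
      exact_mod_cast h2
    refine le_trans ?_ h3
    rw [div_mul_eq_mul_div, one_mul, div_le_iff₀ (by positivity)]
    calc (A.card : ℝ) ≤ 2 * K * B.card := hAB
      _ ≤ 2 * K * (F.card * (B.image lin).card) :=
          mul_le_mul_of_nonneg_left hcardR (by positivity)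
      _ ≤ 2 * K * (F.card * F0) := by
          apply mul_le_mul_of_nonneg_left _ (by positivity)
          exact mul_le_mul_of_nonneg_left hf hFpos.le
      _ = _ := by ring

end Pool.BD
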