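import Pool.Agent.Work.MP_dc37f8_bd.Interface

set_option autoImplicit false
set_option maxHeartbeats 4000000

open Finset

namespace Pool.BD

/-- COVDB: sets on few lines have few rich directions -/
theorem stmt_COVDB : Stmt_COVDB := by
  classical
  rintro P m ⟨𝓛, hcard, hne, hcov⟩
  refine ⟨𝓛.image Prod.snd, card_image_le.trans hcard, ?_⟩
  intro l hl hm
  have hch : ∀ y ∈ pts P l, ∃ l' ∈ 𝓛, On l' y := fun y hy => hcov y (mem_filter.mp hy).1
  choose! f hf1 hf2 using hch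
  obtain ⟨y, hy, y', hy', hyy, he⟩ := exists_ne_map_eq_of_card_lt_of_maps_to
    (lt_of_le_of_lt hcard hm) (fun y hy => hf1 y hy)
  obtain ⟨s, hs⟩ := (mem_filter.mp hy).2
  obtain ⟨s', hs'⟩ := (mem_filter.mp hy').2
  obtain ⟨t, ht⟩ := hf2 y hy
  obtain ⟨t', ht'⟩ := hf2 y' hy'
  rw [← he] at ht'
  have hss : s - s' ≠ 0 := by
    intro h0
    apply hyy
    rw [hs, hs', sub_eq_zero.mp h0]
  refine ⟨(f y).2, mem_image_of_mem _ (hf1 y hy), (t - t') / (s - s'), ?_⟩
  have hss' : ((s : ℂ) - s') ≠ 0 := by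
    rw [← Complex.ofReal_sub]
    exact_mod_cast hss
  have h1 : ((s : ℂ) - s') * l.2 = (t - t') * (f y).2 := by
    have e1 : y - y' = ((s : ℂ) - s') * l.2 := by rw [hs, hs']; ring
    have e2 : y - y' = ((t : ℂ) - t') * (f y).2 := by
      conv_lhs => rw [ht, ht']
      ring
    rw [← e1, e2]
  push_cast
  rw [div_mul_eq_mul_div, eq_div_iff hss', ← h1]
  ring

end Pool.BD
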