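import Pool.Agent.Work.MP_dc37f8_bd.Interface

/-! Block DIR: isometries with a common linear part move points of rich lines to points of rich
lines. -/

set_option autoImplicit false

open Finset

open scoped Pointwise

namespace Pool.BD

open Pool.BK

namespace DIR

lemma inv_self' (f : Gp) (x : ℂ) : f⁻¹ (f x) = x := Equiv.symm_apply_apply f x

lemma self_inv' (f : Gp) (x : ℂ) : f (f⁻¹ x) = x := Equiv.apply_symm_apply f x

open Classical in
/-- a rich line in a set with many additive quadruples -/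
lemma rich_line (hADD : Stmt_ADD) (hLIN : Stmt_LIN) (c : ℝ) (hc : 0 < c) (k : ℕ) :
    ∃ β₁ : ℝ, 0 < β₁ ∧ ∀ (A C : Finset ℂ) (n : ℕ), 0 < n → A.card ≤ n → C.card ≤ n →
      c * (n : ℝ) ^ 3 ≤ ∑ z ∈ A ×ˢ A, (rep C C (z.2 - z.1) : ℝ) → DB A k →
      ∃ l : ℂ × ℂ, l.2 ≠ 0 ∧ β₁ * n ≤ ((pts A l).card : ℝ) := by
  obtain ⟨c₁, K, hc₁, hK, h⟩ := hADD c hc
  obtain ⟨J, hJ⟩ := hLIN K k
  refine ⟨c₁ / (J + 1), by positivity, ?_⟩
  intro A C n hn hA hC hsum hDB
  obtain ⟨A', hA', hcard, hdoub⟩ := h A C n hn hA hC hsum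
  have hmono : ∀ l, (pts A' l).card ≤ (pts A l).card := by
    intro l
    apply Finset.card_le_card
    unfold pts
    exact Finset.filter_subset_filter _ hA'
  have hDB' : DB A' k := by
    obtain ⟨D, hD, hD'⟩ := hDB
    exact ⟨D, hD, fun l hl hk => hD' l hl (lt_of_lt_of_le hk (hmono l))⟩
  obtain ⟨L, hL, hL0, hLc⟩ := hJ A' hdoub hDB'
  by_contra hcon
  push Not at hcon
  have hn' : (0 : ℝ) < n := by exact_mod_cast hn
  have h1 : A' ⊆ L.biUnion (fun l => pts A' l) := by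
    intro y hy
    obtain ⟨l, hl, hyl⟩ := hLc y hy
    rw [Finset.mem_biUnion]
    refine ⟨l, hl, ?_⟩
    unfold pts
    rw [Finset.mem_filter]
    exact ⟨hy, hyl⟩
  have h2 : A'.card ≤ ∑ l ∈ L, (pts A' l).card :=
    (Finset.card_le_card h1).trans Finset.card_biUnion_le
  have h3 : (A'.card : ℝ) ≤ ∑ l ∈ L, ((pts A' l).card : ℝ) := by exact_mod_cast h2
  have h4 : ∑ l ∈ L, ((pts A' l).card : ℝ) ≤ ∑ l ∈ L, (c₁ / (J + 1) * n) := by
    apply Finset.sum_le_sum
    intro l hl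
    have e1 : ((pts A' l).card : ℝ) ≤ (pts A l).card := by exact_mod_cast hmono l
    exact e1.trans (hcon l (hL0 l hl)).le
  rw [Finset.sum_const, nsmul_eq_mul] at h4
  have h5 : (L.card : ℝ) ≤ J := by exact_mod_cast hL
  have h6 : (L.card : ℝ) * (c₁ / (J + 1) * n) ≤ J * (c₁ / (J + 1) * n) :=
    mul_le_mul_of_nonneg_right h5 (by positivity)
  have h7 : (J : ℝ) * (c₁ / (J + 1) * n) < c₁ * n := by
    have e : (J : ℝ) * (c₁ / (J + 1) * n) = c₁ * n * (J / (J + 1)) := by ring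
    rw [e]
    have e2 : (J : ℝ) / (J + 1) < 1 := by
      rw [div_lt_one (by positivity)]; linarith
    have e3 : 0 < c₁ * n := by positivity
    nlinarith
  linarith

open Classical in
/-- pull a line back by an isometry -/
lemma pull (hI : Stmt_ISO) (h : Gp) (hh : IsIso h) (X : Finset ℂ) (l : ℂ × ℂ) :
    (pts (X.image h) l).card ≤ (pts X (h⁻¹ l.1, h⁻¹ l.2 - h⁻¹ 0)).card := by
  obtain ⟨i1, i2, i3, i4, i5, i6, i7, i8, i9, i10⟩ := hI
  have h1 : pts (X.image h) l ⊆ (pts X (h⁻¹ l.1, h⁻¹ l.2 - h⁻¹ 0)).image h := by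
    intro y hy
    unfold pts at hy
    rw [Finset.mem_filter] at hy
    obtain ⟨hy1, s, hs⟩ := hy
    obtain ⟨x, hx, rfl⟩ := Finset.mem_image.mp hy1
    apply Finset.mem_image_of_mem
    unfold pts
    rw [Finset.mem_filter]
    refine ⟨hx, s, ?_⟩
    have e := i8 h⁻¹ (i7 h hh) l.1 l.2 s
    rw [← hs, inv_self'] at e
    exact e
  exact (Finset.card_le_card h1).trans Finset.card_image_le

open Classical in
lemma DB_image (hI : Stmt_ISO) (h : Gp) (hh : IsIso h) (X : Finset ℂ) (k : ℕ) (hD : DB X k) :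
    DB (X.image h) k := by
  have hI' := hI
  obtain ⟨i1, i2, i3, i4, i5, i6, i7, i8, i9, i10⟩ := hI
  obtain ⟨D, hD1, hD2⟩ := hD
  refine ⟨D.image (fun d => h d - h 0), Finset.card_image_le.trans hD1, ?_⟩
  intro l hl hk
  obtain ⟨d, hd, s, hs⟩ := hD2 (h⁻¹ l.1, h⁻¹ l.2 - h⁻¹ 0) (i9 h⁻¹ (i7 h hh) l.2 hl)
    (lt_of_lt_of_le hk (pull hI' h hh X l))
  refine ⟨h d - h 0, Finset.mem_image_of_mem _ hd, s, ?_⟩
  have e := i8 h hh (h⁻¹ 0) d s
  simp only at hs
  rw [← hs, self_inv'] at e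
  have e2 : h⁻¹ 0 + (h⁻¹ l.2 - h⁻¹ 0) = h⁻¹ l.2 := by ring
  rw [e2, self_inv', zero_add] at e
  exact e

/-- double counting and Cauchy-Schwarz -/
lemma double (A : Finset ℂ) (G : Finset Gp) (R : Gp → ℂ → Prop) [∀ g, DecidablePred (R g)]
    (F : ℂ → ℂ → ℕ)
    (hF : ∀ p ∈ A, ∀ p' ∈ A, (G.filter (fun g => R g p ∧ R g p')).card ≤ F p p') :
    (∑ g ∈ G, ((A.filter (fun p => R g p)).card : ℝ)) ^ 2 ≤
      G.card * ∑ z ∈ A ×ˢ A, (F z.1 z.2 : ℝ) := by
  refine le_trans (sq_sum_le_card_mul_sum_sq (s := G)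
    (f := fun g => ((A.filter (fun p => R g p)).card : ℝ))) ?_
  apply mul_le_mul_of_nonneg_left _ (Nat.cast_nonneg _)
  have h1 : ∀ g, ((A.filter (fun p => R g p)).card : ℝ) ^ 2 =
      ∑ z ∈ A ×ˢ A, (if R g z.1 ∧ R g z.2 then (1 : ℝ) else 0) := by
    intro g
    rw [Finset.card_filter]
    push_cast
    rw [pow_two, Finset.sum_mul_sum, ← Finset.sum_product']
    apply Finset.sum_congr rfl
    intro z _
    by_cases e1 : R g z.1 <;> by_cases e2 : R g z.2 <;> simp [e1, e2]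
  simp only [h1]
  rw [Finset.sum_comm]
  apply Finset.sum_le_sum
  intro z hz
  rw [Finset.mem_product] at hz
  have h2 := hF z.1 hz.1 z.2 hz.2
  rw [Finset.card_filter] at h2
  have h3 : ((∑ g ∈ G, if R g z.1 ∧ R g z.2 then 1 else 0 : ℕ) : ℝ) ≤ F z.1 z.2 := by
    exact_mod_cast h2
  push_cast at h3
  exact h3

open Classical in
/-- a point of `P` outside of `Lam P β` is on no rich line -/
lemma final (P : Finset ℂ) (β β₁ : ℝ) (hβ₁ : 0 < β₁) (hβ : β ≤ β₁) (hP : 0 < P.card)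
    (l : ℂ × ℂ) (hl : l.2 ≠ 0)
    (h : β₁ * P.card ≤ ((pts (P.filter (fun p => p ∉ Lam P β)) l).card : ℝ)) : False := by
  have hP' : (0 : ℝ) < P.card := by exact_mod_cast hP
  have h1 : (0 : ℝ) < ((pts (P.filter (fun p => p ∉ Lam P β)) l).card : ℝ) :=
    lt_of_lt_of_le (by positivity) h
  obtain ⟨a, ha⟩ := Finset.card_pos.mp (by exact_mod_cast h1)
  have ha' := ha
  unfold pts at ha'
  rw [Finset.mem_filter, Finset.mem_filter] at ha'
  obtain ⟨⟨haP, haL⟩, s, hs⟩ := ha'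
  apply haL
  unfold Lam
  rw [Finset.mem_filter]
  refine ⟨haP, l.2, hl, ?_⟩
  have h2 : pts (P.filter (fun p => p ∉ Lam P β)) l ⊆ pts P (a, l.2) := by
    intro y hy
    unfold pts at hy ⊢
    rw [Finset.mem_filter, Finset.mem_filter] at hy
    rw [Finset.mem_filter]
    obtain ⟨⟨hyP, _⟩, s', hs'⟩ := hy
    refine ⟨hyP, s' - s, ?_⟩
    rw [hs', hs]
    push_cast
    ring
  have h3 : ((pts (P.filter (fun p => p ∉ Lam P β)) l).card : ℝ) ≤ ((pts P (a, l.2)).card : ℝ) := by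
    exact_mod_cast Finset.card_le_card h2
  have h4 : β * P.card ≤ β₁ * P.card := mul_le_mul_of_nonneg_right hβ hP'.le
  linarith

end DIR

open DIR in
theorem stmt_DIR (hPBD : Stmt_PBD) (hADD : Stmt_ADD) (hLIN : Stmt_LIN) (hI : Stmt_ISO) :
    Stmt_DIR := by
  classical
  intro k δ η hδ hη
  obtain ⟨κ, hκ⟩ : ∃ κ : ℝ, κ = 4 * (k + 1) := ⟨_, rfl⟩
  have hκ0 : 0 < κ := by rw [hκ]; positivity
  obtain ⟨c, hc⟩ : ∃ c : ℝ, c = η ^ 2 * δ ^ 2 / (8 * κ) := ⟨_, rfl⟩
  have hc0 : 0 < c := by rw [hc]; positivity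
  obtain ⟨β₁, hβ₁, hline⟩ := rich_line hADD hLIN c hc0 k
  refine ⟨β₁, max 1 ⌈2 / δ⌉₊, hβ₁, ?_⟩
  intro P β hβ0 hβ hDB hn h 𝒢 hh hG hr
  have hI' := hI
  obtain ⟨i1, i2, i3, i4, i5, i6, i7, i8, i9, i10⟩ := hI
  have hn1 : 0 < P.card := lt_of_lt_of_le Nat.one_pos ((le_max_left _ _).trans hn)
  have hn2 : 2 ≤ δ * P.card := by
    have : ⌈2 / δ⌉₊ ≤ P.card := (le_max_right _ _).trans hn
    have := Nat.ceil_le.mp this
    rw [div_le_iff₀ hδ] at this
    linarith
  have hnR : (0 : ℝ) < P.card := by exact_mod_cast hn1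
  -- the number of isometries
  have hGcard : (𝒢.card : ℝ) * δ ^ 2 ≤ 2 * κ * P.card := by
    have h1 := hPBD P k hDB 𝒢 (fun g hg => (hG g hg).1)
    rw [← hκ] at h1
    have h2 : ∑ g ∈ 𝒢, (δ ^ 2 * (P.card : ℝ) ^ 2 / 2) ≤
        ∑ g ∈ 𝒢, ((st P g).card : ℝ) * ((st P g).card - 1) := by
      apply Finset.sum_le_sum
      intro g hg
      have h3 := hr g hg
      have h4 : (0 : ℝ) ≤ (st P g).card := Nat.cast_nonneg _
      nlinarith [mul_self_nonneg (((st P g).card : ℝ) - δ * P.card)]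
    rw [Finset.sum_const, nsmul_eq_mul] at h2
    have h3 : (𝒢.card : ℝ) * δ ^ 2 * (P.card : ℝ) ^ 2 ≤ 2 * κ * P.card * (P.card : ℝ) ^ 2 := by
      nlinarith
    exact le_of_mul_le_mul_right h3 (by positivity)
  -- translations
  have htr : ∀ g ∈ 𝒢, ∃ t : ℂ, ∀ z, g z = h z + t := by
    intro g hg
    obtain ⟨t, ht⟩ := (hG g hg).2
    refine ⟨t, fun z => ?_⟩
    have := ht (h z)
    rw [Equiv.Perm.coe_mul, Function.comp_apply, inv_self'] at this
    exact this
  obtain ⟨A, hA⟩ : ∃ A : Finset ℂ, A = P.filter (fun p => p ∉ Lam P β) := ⟨_, rfl⟩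
  have hAP : A ⊆ P := by rw [hA]; exact Finset.filter_subset _ _
  have hAcard : A.card ≤ P.card := Finset.card_le_card hAP
  -- the common end of both cases
  have hend : ∀ (R : Gp → ℂ → Prop) [∀ g, DecidablePred (R g)] (F : ℂ → ℂ → ℕ),
      (∀ p ∈ A, ∀ p' ∈ A, (𝒢.filter (fun g => R g p ∧ R g p')).card ≤ F p p') →
      η / 2 * (P.card : ℝ) ^ 2 < ∑ g ∈ 𝒢, ((A.filter (fun p => R g p)).card : ℝ) →
      c * (P.card : ℝ) ^ 3 ≤ ∑ z ∈ A ×ˢ A, (F z.1 z.2 : ℝ) := by
    intro R _ F hF hlt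
    have h1 := double A 𝒢 R F hF
    have h2 : (η / 2 * (P.card : ℝ) ^ 2) ^ 2 ≤
        (∑ g ∈ 𝒢, ((A.filter (fun p => R g p)).card : ℝ)) ^ 2 :=
      pow_le_pow_left₀ (by positivity) hlt.le 2
    obtain ⟨T, hT⟩ : ∃ T : ℝ, T = ∑ z ∈ A ×ˢ A, (F z.1 z.2 : ℝ) := ⟨_, rfl⟩
    have hT0 : 0 ≤ T := by
      rw [hT]
      exact Finset.sum_nonneg (fun z _ => Nat.cast_nonneg _)
    rw [← hT] at h1 ⊢
    have h3 : (η / 2 * (P.card : ℝ) ^ 2) ^ 2 * δ ^ 2 ≤ 2 * κ * P.card * T := by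
      have h4 := mul_le_mul_of_nonneg_right (h2.trans h1) (sq_nonneg δ)
      have h5 := mul_le_mul_of_nonneg_right hGcard hT0
      nlinarith
    have h6 : c * (P.card : ℝ) ^ 3 * (8 * κ * P.card) ≤ T * (8 * κ * P.card) := by
      have e : c * (P.card : ℝ) ^ 3 * (8 * κ * P.card) =
          4 * ((η / 2 * (P.card : ℝ) ^ 2) ^ 2 * δ ^ 2) := by
        rw [hc]
        field_simp
        ring
      rw [e]
      nlinarith
    exact le_of_mul_le_mul_right h6 (by positivity)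
  -- case 1
  have hcase1 : ∑ g ∈ 𝒢, ((A.filter (fun p => g p ∈ P)).card : ℝ) ≤
      η / 2 * (P.card : ℝ) ^ 2 := by
    by_contra hcon
    rw [not_le] at hcon
    have h1 := hend (fun g p => g p ∈ P) (fun p p' => rep P P (h p' - h p)) (by
      intro p hp p' hp'
      unfold rep
      apply Finset.card_le_card_of_injOn (fun g => g p)
      · intro g hg
        rw [Finset.mem_coe, Finset.mem_filter] at hg
        rw [Finset.mem_coe, Finset.mem_filter]
        obtain ⟨t, ht⟩ := htr g hg.1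
        refine ⟨hg.2.1, ?_⟩
        have e : g p + (h p' - h p) = g p' := by rw [ht p, ht p']; ring
        show g p + (h p' - h p) ∈ P
        rw [e]
        exact hg.2.2
      · intro g hg g' hg' he
        rw [Finset.mem_coe, Finset.mem_filter] at hg hg'
        obtain ⟨t, ht⟩ := htr g hg.1
        obtain ⟨t', ht'⟩ := htr g' hg'.1
        simp only at he
        rw [ht, ht'] at he
        have e : t = t' := add_left_cancel he
        ext z
        rw [ht z, ht' z, e]) hcon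
    -- push forward by `h`
    have h2 : ∑ z ∈ A ×ˢ A, (rep P P (h z.2 - h z.1) : ℝ) =
        ∑ z ∈ A.image h ×ˢ A.image h, (rep P P (z.2 - z.1) : ℝ) := by
      rw [Finset.sum_product, Finset.sum_product,
        Finset.sum_image (fun x _ y _ hxy => h.injective hxy)]
      apply Finset.sum_congr rfl
      intro x _
      rw [Finset.sum_image (fun x _ y _ hxy => h.injective hxy)]
    rw [h2] at h1
    have hDBA : DB A k := by
      obtain ⟨D, hD, hD'⟩ := hDB
      refine ⟨D, hD, fun l hl hk => hD' l hl (lt_of_lt_of_le hk ?_)⟩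
      apply Finset.card_le_card
      unfold pts
      exact Finset.filter_subset_filter _ hAP
    obtain ⟨l, hl, hl'⟩ := hline (A.image h) P P.card hn1
      (Finset.card_image_le.trans hAcard) le_rfl h1 (DB_image hI' h hh A k hDBA)
    have h3 := pull hI' h hh A l
    have h4 : ((pts (A.image h) l).card : ℝ) ≤
        ((pts A (h⁻¹ l.1, h⁻¹ l.2 - h⁻¹ 0)).card : ℝ) := by exact_mod_cast h3
    apply final P β β₁ hβ₁ hβ hn1 (h⁻¹ l.1, h⁻¹ l.2 - h⁻¹ 0) (i9 h⁻¹ (i7 h hh) l.2 hl)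
    rw [← hA]
    exact hl'.trans h4
  -- case 2
  have hcase2 : ∑ g ∈ 𝒢, ((A.filter (fun q => g⁻¹ q ∈ P)).card : ℝ) ≤
      η / 2 * (P.card : ℝ) ^ 2 := by
    by_contra hcon
    rw [not_le] at hcon
    have h1 := hend (fun g q => g⁻¹ q ∈ P)
      (fun q q' => rep (P.image h) (P.image h) (q' - q)) (by
      intro q hq q' hq'
      unfold rep
      apply Finset.card_le_card_of_injOn (fun g => h (g⁻¹ q))
      · intro g hg
        rw [Finset.mem_coe, Finset.mem_filter] at hg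
        rw [Finset.mem_coe, Finset.mem_filter]
        obtain ⟨t, ht⟩ := htr g hg.1
        refine ⟨Finset.mem_image_of_mem _ hg.2.1, ?_⟩
        have e : h (g⁻¹ q) + (q' - q) = h (g⁻¹ q') := by
          have e1 := ht (g⁻¹ q)
          have e2 := ht (g⁻¹ q')
          rw [self_inv'] at e1 e2
          linear_combination e2 - e1
        show h (g⁻¹ q) + (q' - q) ∈ P.image h
        rw [e]
        exact Finset.mem_image_of_mem _ hg.2.2
      · intro g hg g' hg' he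
        rw [Finset.mem_coe, Finset.mem_filter] at hg hg'
        obtain ⟨t, ht⟩ := htr g hg.1
        obtain ⟨t', ht'⟩ := htr g' hg'.1
        simp only at he
        have e1 := ht (g⁻¹ q)
        have e2 := ht' (g'⁻¹ q)
        rw [self_inv'] at e1 e2
        have e : t = t' := by linear_combination e2 - e1 - he
        ext z
        rw [ht z, ht' z, e]) hcon
    have hDBA : DB A k := by
      obtain ⟨D, hD, hD'⟩ := hDB
      refine ⟨D, hD, fun l hl hk => hD' l hl (lt_of_lt_of_le hk ?_)⟩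
      apply Finset.card_le_card
      unfold pts
      exact Finset.filter_subset_filter _ hAP
    obtain ⟨l, hl, hl'⟩ := hline A (P.image h) P.card hn1 hAcard Finset.card_image_le h1 hDBA
    apply final P β β₁ hβ₁ hβ hn1 l hl
    rw [← hA]
    exact hl'
  -- the bad points
  have hbad : ∀ g ∈ 𝒢, ((bad P (Lam P β) g).card : ℝ) ≤
      ((A.filter (fun p => g p ∈ P)).card : ℝ) + ((A.filter (fun q => g⁻¹ q ∈ P)).card : ℝ) := by
    intro g hg
    have h1 : bad P (Lam P β) g ⊆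
        A.filter (fun p => g p ∈ P) ∪ (A.filter (fun q => g⁻¹ q ∈ P)).image (fun q => g⁻¹ q) := by
      intro p hp
      unfold bad st at hp
      rw [Finset.mem_filter, Finset.mem_filter] at hp
      obtain ⟨⟨hp1, hp2⟩, hp3⟩ := hp
      rw [Finset.mem_union]
      by_cases hpL : p ∈ Lam P β
      · right
        have hgL : g p ∉ Lam P β := fun hgL => hp3 ⟨hpL, hgL⟩
        rw [Finset.mem_image]
        refine ⟨g p, ?_, by rw [inv_self']⟩
        rw [Finset.mem_filter, inv_self']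
        refine ⟨?_, hp1⟩
        rw [hA, Finset.mem_filter]
        exact ⟨hp2, hgL⟩
      · left
        rw [Finset.mem_filter]
        refine ⟨?_, hp2⟩
        rw [hA, Finset.mem_filter]
        exact ⟨hp1, hpL⟩
    have h2 : (bad P (Lam P β) g).card ≤
        (A.filter (fun p => g p ∈ P)).card + (A.filter (fun q => g⁻¹ q ∈ P)).card := by
      refine (Finset.card_le_card h1).trans ((Finset.card_union_le _ _).trans ?_)
      exact Nat.add_le_add_left Finset.card_image_le _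
    exact_mod_cast h2
  calc ∑ g ∈ 𝒢, ((bad P (Lam P β) g).card : ℝ)
      ≤ ∑ g ∈ 𝒢, (((A.filter (fun p => g p ∈ P)).card : ℝ) +
          ((A.filter (fun q => g⁻¹ q ∈ P)).card : ℝ)) := Finset.sum_le_sum hbad
    _ = ∑ g ∈ 𝒢, ((A.filter (fun p => g p ∈ P)).card : ℝ) +
          ∑ g ∈ 𝒢, ((A.filter (fun q => g⁻¹ q ∈ P)).card : ℝ) := Finset.sum_add_distrib
    _ ≤ η / 2 * (P.card : ℝ) ^ 2 + η / 2 * (P.card : ℝ) ^ 2 := add_le_add hcase1 hcase2
    _ = η * (P.card : ℝ) ^ 2 := by ring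

end Pool.BD
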