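import Pool.Agent.Work.MP_dc37f8_bd.Interface

/-!
# MP_dc37f8_co, block EX: Cauchy-Schwarz for families of triples (helper23)
-/

set_option autoImplicit false

open Finset

namespace Pool.BD

open Pool.BK Pool.BK.E3

set_option maxHeartbeats 4000000 in
open Classical in
theorem stmt_EX (hCON : Pool.BK.Stmt_CON) : Stmt_EX := by
  intro P
  set E := (T3 P ×ˢ T3 P).filter (fun z => key z.1 = key z.2) with hE
  have hex : ∀ z : (ℂ × ℂ × ℂ) × (ℂ × ℂ × ℂ), ∃ g : Gp, z ∈ E →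
      (IsIso g ∧ g z.1.1 = z.2.1 ∧ g z.1.2.1 = z.2.2.1 ∧ g z.1.2.2 = z.2.2.2) := by
    intro z
    by_cases hz : z ∈ E
    · obtain ⟨h1, h2⟩ := Finset.mem_filter.mp hz
      obtain ⟨h3, h4⟩ := Finset.mem_product.mp h1
      have h5 := (mem_T3.mp h3).2.1
      have k1 : dist z.1.1 z.1.2.1 = dist z.2.1 z.2.2.1 := congrArg (fun w : ℝ × ℝ × ℝ => w.1) h2
      have k2 : dist z.1.2.1 z.1.2.2 = dist z.2.2.1 z.2.2.2 :=
        congrArg (fun w : ℝ × ℝ × ℝ => w.2.1) h2
      have k3 : dist z.1.1 z.1.2.2 = dist z.2.1 z.2.2.2 :=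
        congrArg (fun w : ℝ × ℝ × ℝ => w.2.2) h2
      obtain ⟨g, hg⟩ := hCON _ _ _ _ _ _ h5 k1 k2 k3
      exact ⟨g, fun _ => hg⟩
    · exact ⟨1, fun h => absurd h hz⟩
  choose φ hφ using hex
  -- the points of the first triple stay in `P`
  have hst : ∀ z ∈ E, z.1.1 ∈ st P (φ z) ∧ z.1.2.1 ∈ st P (φ z) ∧ z.1.2.2 ∈ st P (φ z) := by
    intro z hz
    obtain ⟨_, k1, k2, k3⟩ := hφ z hz
    obtain ⟨h1, h2⟩ := Finset.mem_filter.mp hz
    obtain ⟨h3, h4⟩ := Finset.mem_product.mp h1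
    obtain ⟨⟨a1, a2, a3⟩, _⟩ := mem_T3.mp h3
    obtain ⟨⟨b1, b2, b3⟩, _⟩ := mem_T3.mp h4
    unfold st
    refine ⟨Finset.mem_filter.mpr ⟨a1, ?_⟩, Finset.mem_filter.mpr ⟨a2, ?_⟩,
      Finset.mem_filter.mpr ⟨a3, ?_⟩⟩
    · rw [k1]; exact b1
    · rw [k2]; exact b2
    · rw [k3]; exact b3
  refine ⟨E.image φ, ?_, ?_, ?_⟩
  · intro g hg
    obtain ⟨z, hz, rfl⟩ := Finset.mem_image.mp hg
    exact (hφ z hz).1
  · intro g hg
    obtain ⟨z, hz, rfl⟩ := Finset.mem_image.mp hg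
    obtain ⟨h1, h2, _⟩ := hst z hz
    have h3 := (mem_T3.mp (Finset.mem_product.mp (Finset.mem_filter.mp hz).1).1).2.1
    have h4 : 1 < (st P (φ z)).card := Finset.one_lt_card.mpr ⟨_, h1, _, h2, h3⟩
    exact h4
  · intro X hX
    set EX := (X ×ˢ X).filter (fun z => key z.1 = key z.2) with hEX
    have hsub : EX ⊆ E := by
      intro z hz
      obtain ⟨h1, h2⟩ := Finset.mem_filter.mp hz
      obtain ⟨h3, h4⟩ := Finset.mem_product.mp h1
      exact Finset.mem_filter.mpr ⟨Finset.mem_product.mpr ⟨hX h3, hX h4⟩, h2⟩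
    have h1 := cs X key
    have h2 : (((X.image key).card : ℕ) : ℝ) ≤ 6 * (TC P).card := by
      exact_mod_cast (Finset.card_le_card (Finset.image_subset_image hX)).trans (card_keys P)
    have h3 : (EX.card : ℝ) ≤ ∑ g ∈ E.image φ,
        ((X.filter (fun x => x.1 ∈ st P g ∧ x.2.1 ∈ st P g ∧ x.2.2 ∈ st P g)).card : ℝ) := by
      have h0 : EX.card = ∑ g ∈ E.image φ, (EX.filter (fun z => φ z = g)).card :=
        Finset.card_eq_sum_card_fiberwise (f := φ) (fun z hz =>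
          Finset.mem_coe.mpr (Finset.mem_image_of_mem φ (hsub (Finset.mem_coe.mp hz))))
      rw [h0]
      push_cast
      apply Finset.sum_le_sum
      intro g hg
      have h4 : (EX.filter (fun z => φ z = g)).card ≤
          (X.filter (fun x => x.1 ∈ st P g ∧ x.2.1 ∈ st P g ∧ x.2.2 ∈ st P g)).card := by
        apply Finset.card_le_card_of_injOn (fun z => z.1)
        · intro z hz
          obtain ⟨hz1, hz2⟩ := Finset.mem_filter.mp (Finset.mem_coe.mp hz)
          have h5 := hst z (hsub hz1)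
          rw [hz2] at h5
          exact Finset.mem_coe.mpr (Finset.mem_filter.mpr
            ⟨(Finset.mem_product.mp (Finset.mem_filter.mp hz1).1).1, h5⟩)
        · intro z hz w hw hzw
          obtain ⟨hz1, hz2⟩ := Finset.mem_filter.mp (Finset.mem_coe.mp hz)
          obtain ⟨hw1, hw2⟩ := Finset.mem_filter.mp (Finset.mem_coe.mp hw)
          obtain ⟨_, k1, k2, k3⟩ := hφ z (hsub hz1)
          obtain ⟨_, l1, l2, l3⟩ := hφ w (hsub hw1)
          rw [hz2] at k1 k2 k3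
          rw [hw2] at l1 l2 l3
          have hzw' : z.1 = w.1 := hzw
          rw [hzw'] at k1 k2 k3
          apply Prod.ext hzw'
          apply Prod.ext
          · rw [← k1, ← l1]
          · apply Prod.ext
            · rw [← k2, ← l2]
            · rw [← k3, ← l3]
      exact_mod_cast h4
    calc ((X.card : ℝ)) ^ 2 ≤ ((X.image key).card : ℝ) * (EX.card : ℝ) := h1
      _ ≤ (6 * (TC P).card) * ∑ g ∈ E.image φ,
          ((X.filter (fun x => x.1 ∈ st P g ∧ x.2.1 ∈ st P g ∧ x.2.2 ∈ st P g)).card : ℝ) := by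
          apply mul_le_mul h2 h3 (by positivity) (by positivity)

end Pool.BD
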