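import Pool.Agent.Work.MP_dc37f8_bd.Interface

/-!
# Block ISO (helper83)
-/

set_option autoImplicit false

namespace Pool.BD.ISO

open Pool.BK Pool.BD

theorem ne0 {w : ℂ} (h : ‖w‖ = 1) : w ≠ 0 := by
  intro h0
  rw [h0, norm_zero] at h
  exact zero_ne_one h

theorem tr_iff {f : Gp} (h : IsTr f) : ∀ z, f z = z + f 0 := by
  obtain ⟨t, ht⟩ := h
  intro z
  rw [ht z, ht 0, zero_add]

theorem dir_lin {f : Gp} (h : IsDir f) : ∃ w : ℂ, ‖w‖ = 1 ∧ ∀ z, f z = w * z + f 0 := by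
  obtain ⟨w, t, hw, hf⟩ := h
  refine ⟨w, hw, fun z => ?_⟩
  rw [hf z, hf 0, mul_zero, zero_add]

theorem opp_lin {f : Gp} (h : IsOpp f) :
    ∃ w : ℂ, ‖w‖ = 1 ∧ ∀ z, f z = w * (starRingEnd ℂ) z + f 0 := by
  obtain ⟨w, t, hw, hf⟩ := h
  refine ⟨w, hw, fun z => ?_⟩
  rw [hf z, hf 0, map_zero, mul_zero, zero_add]

theorem conj_tr_dir {f g : Gp} (hf : IsDir f) (hg : IsTr g) :
    ∀ z, (f * g * f⁻¹) z = z + (f 1 - f 0) * g 0 := by
  obtain ⟨w, hw, hf⟩ := dir_lin hf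
  have hg := tr_iff hg
  intro z
  have h1 : f (f⁻¹ z) = z := f.apply_symm_apply z
  rw [Equiv.Perm.mul_apply, Equiv.Perm.mul_apply, hg (f⁻¹ z), hf (f⁻¹ z + g 0), hf 1]
  rw [hf (f⁻¹ z)] at h1
  linear_combination h1

theorem conj_tr_opp {f g : Gp} (hf : IsOpp f) (hg : IsTr g) : IsTr (f * g * f⁻¹) := by
  obtain ⟨w, hw, hf⟩ := opp_lin hf
  have hg := tr_iff hg
  refine ⟨w * (starRingEnd ℂ) (g 0), fun z => ?_⟩
  have h1 : f (f⁻¹ z) = z := f.apply_symm_apply z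
  rw [Equiv.Perm.mul_apply, Equiv.Perm.mul_apply, hg (f⁻¹ z), hf (f⁻¹ z + g 0), map_add]
  rw [hf (f⁻¹ z)] at h1
  linear_combination h1

theorem dir_inv (f : Gp) (hf : IsDir f) : IsDir f⁻¹ := by
  obtain ⟨w, t, hw, hf⟩ := hf
  have hw0 := ne0 hw
  refine ⟨w⁻¹, -(w⁻¹ * t), by rw [norm_inv, hw, inv_one], fun z => ?_⟩
  rw [Equiv.Perm.inv_eq_iff_eq, hf]
  field_simp
  ring

theorem opp_inv (f : Gp) (hf : IsOpp f) : IsOpp f⁻¹ := by
  obtain ⟨w, t, hw, hf⟩ := hf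
  have hw0 := ne0 hw
  refine ⟨(starRingEnd ℂ) w⁻¹, -(starRingEnd ℂ) (w⁻¹ * t), by
    rw [RCLike.norm_conj, norm_inv, hw, inv_one], fun z => ?_⟩
  rw [Equiv.Perm.inv_eq_iff_eq, hf, map_add, map_mul, map_neg, Complex.conj_conj,
    Complex.conj_conj, Complex.conj_conj]
  field_simp
  ring

/-- a real multiple of the same length -/
theorem pm_of_norm {a v : ℂ} {s : ℝ} (hv : v ≠ 0) (h : a = s * v) (hn : ‖a‖ = ‖v‖) :
    a = v ∨ a = -v := by
  have hv' : ‖v‖ ≠ 0 := norm_ne_zero_iff.mpr hv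
  have h1 : |s| = 1 := by
    rw [h, norm_mul, Complex.norm_real, Real.norm_eq_abs] at hn
    have : |s| * ‖v‖ = 1 * ‖v‖ := by rw [hn, one_mul]
    exact mul_right_cancel₀ hv' this
  rcases (abs_eq (zero_le_one)).mp h1 with h2 | h2
  · left
    rw [h, h2]
    simp
  · right
    rw [h, h2]
    simp

theorem last {f : Gp} {v : ℂ} (hf : IsIso f) (hv : v ≠ 0)
    (h : ∃ s : ℝ, f v - f 0 = s * v) :
    (∀ z, f z - f 0 = z) ∨ (∀ z, f z - f 0 = -z) ∨
    (∀ z, f z - f 0 = (v / (starRingEnd ℂ) v) * (starRingEnd ℂ) z) ∨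
    (∀ z, f z - f 0 = -((v / (starRingEnd ℂ) v) * (starRingEnd ℂ) z)) := by
  obtain ⟨s, hs⟩ := h
  rcases hf with hf | hf
  · obtain ⟨w, hw, hf⟩ := dir_lin hf
    have h1 : f v - f 0 = w * v := by rw [hf v]; ring
    have h2 : w * v = v ∨ w * v = -v := by
      refine pm_of_norm (s := s) hv (by rw [← h1, hs]) ?_
      rw [norm_mul, hw, one_mul]
    rcases h2 with h2 | h2
    · left
      have h3 : w = 1 := mul_right_cancel₀ hv (by rw [h2, one_mul])
      intro z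
      rw [hf z, h3]
      ring
    · right; left
      have h3 : w = -1 := mul_right_cancel₀ hv (by rw [h2]; ring)
      intro z
      rw [hf z, h3]
      ring
  · obtain ⟨w, hw, hf⟩ := opp_lin hf
    have hv' : (starRingEnd ℂ) v ≠ 0 := by
      intro h0
      exact hv (by simpa using h0)
    have h1 : f v - f 0 = w * (starRingEnd ℂ) v := by rw [hf v]; ring
    have h2 : w * (starRingEnd ℂ) v = v ∨ w * (starRingEnd ℂ) v = -v := by
      refine pm_of_norm (s := s) hv (by rw [← h1, hs]) ?_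
      rw [norm_mul, hw, one_mul, RCLike.norm_conj]
    rcases h2 with h2 | h2
    · right; right; left
      have h3 : w = v / (starRingEnd ℂ) v := by
        rw [eq_div_iff hv', h2]
      intro z
      rw [hf z, h3]
      ring
    · right; right; right
      have h3 : w = -(v / (starRingEnd ℂ) v) := by
        rw [← neg_div, eq_div_iff hv', h2]
      intro z
      rw [hf z, h3]
      ring

end Pool.BD.ISO

namespace Pool.BD

open Pool.BK

theorem stmt_ISO : Stmt_ISO := by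
  refine ⟨?_, ?_, ?_, ?_, ?_, ?_, ?_, ?_, ?_, ?_⟩
  · rintro f g (hf | hf) hg
    · exact ⟨_, ISO.conj_tr_dir hf hg⟩
    · exact ISO.conj_tr_opp hf hg
  · intro f g hf hg
    rw [ISO.conj_tr_dir hf hg 0, zero_add]
  · intro f hf
    obtain ⟨w, hw, hf⟩ := ISO.dir_lin hf
    rw [hf 1, mul_one, add_sub_cancel_right, hw]
  · intro f g hf hg
    have hf := ISO.tr_iff hf
    have hg := ISO.tr_iff hg
    have h : ∀ z, (f * g) z = z + (f 0 + g 0) := by
      intro z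
      rw [Equiv.Perm.mul_apply, hf (g z), hg z]
      ring
    exact ⟨⟨_, h⟩, by rw [h 0, zero_add]⟩
  · intro f hf
    have hf := ISO.tr_iff hf
    have h : ∀ z, f⁻¹ z = z + (-f 0) := by
      intro z
      rw [Equiv.Perm.inv_eq_iff_eq, hf (z + -f 0)]
      ring
    exact ⟨⟨_, h⟩, by rw [h 0, zero_add]⟩
  · intro f g hf hg h
    refine Equiv.ext fun z => ?_
    rw [ISO.tr_iff hf z, ISO.tr_iff hg z, h]
  · rintro f (hf | hf)
    · exact Or.inl (ISO.dir_inv f hf)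
    · exact Or.inr (ISO.opp_inv f hf)
  · rintro f (hf | hf) p v s
    · obtain ⟨w, hw, hf⟩ := ISO.dir_lin hf
      rw [hf (p + s * v), hf p, hf v]
      ring
    · obtain ⟨w, hw, hf⟩ := ISO.opp_lin hf
      rw [hf (p + s * v), hf p, hf v, map_add, map_mul, Complex.conj_ofReal]
      ring
  · intro f _ v hv h
    exact hv (f.injective (sub_eq_zero.mp h))
  · intro f v hf hv h
    exact ISO.last hf hv h

end Pool.BD
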