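import Pool.Agent.Work.MP_dc37f8_bd.Interface

/-!
# MP_dc37f8_co, block LIN (helper79): small doubling and few rich directions: few lines
-/

set_option autoImplicit false
set_option maxHeartbeats 4000000

open Finset
open scoped Pointwise

namespace Pool.BD.LIN

lemma plu_sub {G : Type} [AddCommGroup G] [DecidableEq G] (Y : Finset G) (hY : Y.Nonempty) (K : ℝ)
    (hK : (#(Y - Y) : ℝ) ≤ K * #Y) (m n : ℕ) : (#(m • Y - n • Y) : ℝ) ≤ K ^ (m + n) * #Y := by
  have h := pluennecke_ruzsa_inequality_nsmul_sub_nsmul_sub hY Y m n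
  have h' : ((#(m • Y - n • Y) : ℚ≥0) : ℝ) ≤ (((#(Y - Y) / #Y : ℚ≥0) ^ (m + n) * #Y : ℚ≥0) : ℝ) := by
    exact_mod_cast h
  push_cast at h'
  have hpos : (0 : ℝ) < #Y := by exact_mod_cast hY.card_pos
  refine h'.trans ?_
  have h1 : (#(Y - Y) : ℝ) / #Y ≤ K := by rw [div_le_iff₀ hpos]; exact hK
  have h2 : (0 : ℝ) ≤ (#(Y - Y) : ℝ) / #Y := by positivity
  gcongr

/-- the classes of `Y - Y` -/
lemma classes {G : Type} [AddCommGroup G] [DecidableEq G] (Y : Finset G) (hY : Y.Nonempty) (K : ℝ)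
    (hK : (#(Y - Y) : ℝ) ≤ K * #Y) (M : ℕ) :
    (#(Y + ((Y - Y) - (Y - Y))) : ℝ) ≤ K ^ 5 * #Y ∧
    ∃ R : Finset G, (#R : ℝ) ≤ K ^ (∑ j ∈ Finset.range (M + 1), (2 * j + 1)) ∧
      ∀ h ∈ Y - Y, ∃ r ∈ R, ∀ j ≤ M, j • (h - r) ∈ (Y - Y) - (Y - Y) := by
  classical
  have hpos : (0 : ℝ) < #Y := by exact_mod_cast hY.card_pos
  refine ⟨?_, ?_⟩
  · have hsub : Y + ((Y - Y) - (Y - Y)) ⊆ 3 • Y - 2 • Y := by
      intro z hz
      obtain ⟨y, hy, u, hu, rfl⟩ := Finset.mem_add.mp hz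
      obtain ⟨a, ha, b, hb, rfl⟩ := Finset.mem_sub.mp hu
      obtain ⟨c, hc, d, hd, rfl⟩ := Finset.mem_sub.mp ha
      obtain ⟨e, he, f, hf, rfl⟩ := Finset.mem_sub.mp hb
      have h1 : y + c + f ∈ 3 • Y := by
        rw [succ_nsmul, two_nsmul]
        exact Finset.add_mem_add (Finset.add_mem_add hy hc) hf
      have h2 : d + e ∈ 2 • Y := by
        rw [two_nsmul]; exact Finset.add_mem_add hd he
      have h3 : y + (c - d - (e - f)) = (y + c + f) - (d + e) := by abel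
      rw [h3]
      exact Finset.sub_mem_sub h1 h2
    have h := plu_sub Y hY K hK 3 2
    exact (Nat.cast_le.mpr (Finset.card_le_card hsub)).trans h
  · have hcov : ∀ j : ℕ, ∃ F : Finset G, (#F : ℝ) ≤ K ^ (2 * j + 1) ∧
        j • Y - j • Y ⊆ F + (Y - Y) := by
      intro j
      have h1 : (#((j • Y - j • Y) + Y) : ℝ) ≤ K ^ (2 * j + 1) * #Y := by
        have h2 := plu_sub Y hY K hK (j + 1) j
        have h3 : (j • Y - j • Y) + Y = (j + 1) • Y - j • Y := by
          rw [succ_nsmul, sub_add_eq_add_sub]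
        rw [h3]
        have h4 : j + 1 + j = 2 * j + 1 := by ring
        rw [h4] at h2
        exact h2
      obtain ⟨F, _, hF, hF2⟩ := Finset.ruzsa_covering_add hY h1
      exact ⟨F, hF, hF2⟩
    choose F hF1 hF2 using hcov
    have hmem : ∀ h ∈ Y - Y, ∀ j : ℕ, j • h ∈ F j + (Y - Y) := by
      intro h hh j
      obtain ⟨a, ha, b, hb, rfl⟩ := Finset.mem_sub.mp hh
      apply hF2 j
      rw [nsmul_sub]
      exact Finset.sub_mem_sub (Finset.nsmul_mem_nsmul ha) (Finset.nsmul_mem_nsmul hb)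
    have hch : ∀ h : G, ∀ j : ℕ, ∃ x : G, h ∈ Y - Y → x ∈ F j ∧ j • h - x ∈ Y - Y := by
      intro h j
      by_cases hh : h ∈ Y - Y
      · obtain ⟨x, hx, w, hw, hxw⟩ := Finset.mem_add.mp (hmem h hh j)
        refine ⟨x, fun _ => ⟨hx, ?_⟩⟩
        rw [← hxw, add_sub_cancel_left]
        exact hw
      · exact ⟨0, fun h' => absurd h' hh⟩
    choose φ hφ using hch
    obtain ⟨Φ, hΦ⟩ : ∃ Φ : G → (Fin (M + 1) → G), ∀ h j, Φ h j = φ h j :=
      ⟨fun h j => φ h j, fun _ _ => rfl⟩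
    have hmaps : (Y - Y).image Φ ⊆ Fintype.piFinset (fun j : Fin (M + 1) => F j) := by
      intro τ hτ
      obtain ⟨h, hh, rfl⟩ := Finset.mem_image.mp hτ
      rw [Fintype.mem_piFinset]
      intro j
      rw [hΦ]
      exact (hφ h j hh).1
    have hcard : (#(Fintype.piFinset (fun j : Fin (M + 1) => F j)) : ℝ) ≤
        K ^ (∑ j ∈ Finset.range (M + 1), (2 * j + 1)) := by
      rw [Fintype.card_piFinset, Nat.cast_prod, ← Finset.prod_pow_eq_pow_sum,
        Finset.prod_range (fun j => K ^ (2 * j + 1))]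
      exact Finset.prod_le_prod (fun i _ => by positivity) (fun i _ => hF1 i)
    have hrep : ∀ τ : Fin (M + 1) → G, ∃ r : G, τ ∈ (Y - Y).image Φ → r ∈ Y - Y ∧ Φ r = τ := by
      intro τ
      by_cases hτ : τ ∈ (Y - Y).image Φ
      · obtain ⟨h, hh, he⟩ := Finset.mem_image.mp hτ
        exact ⟨h, fun _ => ⟨hh, he⟩⟩
      · exact ⟨0, fun h => absurd h hτ⟩
    choose r hr using hrep
    refine ⟨((Y - Y).image Φ).image r, ?_, ?_⟩
    · have h1 : #(((Y - Y).image Φ).image r) ≤ #(Fintype.piFinset (fun j : Fin (M + 1) => F j)) :=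
        Finset.card_image_le.trans (Finset.card_le_card hmaps)
      exact (Nat.cast_le.mpr h1).trans hcard
    · intro h hh
      have hmemΦ : Φ h ∈ (Y - Y).image Φ := Finset.mem_image_of_mem _ hh
      refine ⟨r (Φ h), Finset.mem_image_of_mem _ hmemΦ, fun j hj => ?_⟩
      obtain ⟨hr1, hr2⟩ := hr (Φ h) hmemΦ
      have h1 := (hφ h j hh).2
      have h2 := (hφ (r (Φ h)) j hr1).2
      have h3 : φ (r (Φ h)) j = φ h j := by
        have := congrFun hr2 (⟨j, by omega⟩ : Fin (M + 1))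
        rw [hΦ, hΦ] at this
        exact this
      rw [h3] at h2
      have h4 : j • (h - r (Φ h)) = (j • h - φ h j) - (j • r (Φ h) - φ h j) := by
        rw [nsmul_sub]; abel
      rw [h4]
      exact Finset.sub_mem_sub h1 h2

/-- a direction with many multiples in `(Y - Y) - (Y - Y)` gives a rich line -/
lemma rich (Y : Finset ℂ) (hYne : Y.Nonempty) (K : ℝ) (k M : ℕ)
    (hM : (k : ℝ) * K ^ 5 < M + 1)
    (hZ : (#(Y + ((Y - Y) - (Y - Y))) : ℝ) ≤ K ^ 5 * #Y) (v : ℂ) (hv0 : v ≠ 0)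
    (hv : ∀ j ≤ M, j • v ∈ (Y - Y) - (Y - Y)) : ∃ z : ℂ, k < (pts Y (z, v)).card := by
  classical
  have hmaps : ∀ w ∈ Y ×ˢ Finset.range (M + 1), w.1 + w.2 • v ∈ Y + ((Y - Y) - (Y - Y)) := by
    rintro ⟨y, j⟩ hw
    rw [Finset.mem_product, Finset.mem_range] at hw
    exact Finset.add_mem_add hw.1 (hv j (by omega))
  have hlt : #(Y + ((Y - Y) - (Y - Y))) * k < #(Y ×ˢ Finset.range (M + 1)) := by
    rw [Finset.card_product, Finset.card_range]
    have hpos : (0 : ℝ) < #Y := by exact_mod_cast hYne.card_pos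
    have h : ((#(Y + ((Y - Y) - (Y - Y))) * k : ℕ) : ℝ) < ((#Y * (M + 1) : ℕ) : ℝ) := by
      push_cast
      calc (#(Y + ((Y - Y) - (Y - Y))) : ℝ) * k ≤ (K ^ 5 * #Y) * k := by gcongr
        _ = (k * K ^ 5) * #Y := by ring
        _ < (M + 1) * #Y := mul_lt_mul_of_pos_right hM hpos
        _ = #Y * (M + 1) := by ring
    exact_mod_cast h
  obtain ⟨z, _, hz⟩ := Finset.exists_lt_card_fiber_of_mul_lt_card_of_maps_to hmaps hlt
  refine ⟨z, hz.trans_le ?_⟩
  apply Finset.card_le_card_of_injOn (fun w : ℂ × ℕ => w.1)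
  · rintro ⟨y, j⟩ hw
    simp only [Finset.coe_filter, Finset.mem_product, Set.mem_ofPred_eq] at hw
    show y ∈ ((pts Y (z, v) : Finset ℂ) : Set ℂ)
    rw [Finset.mem_coe]
    unfold pts
    rw [Finset.mem_filter]
    refine ⟨hw.1.1, -(j : ℝ), ?_⟩
    show y = z + ((-(j : ℝ) : ℝ) : ℂ) * v
    have := hw.2
    rw [← this, nsmul_eq_mul]
    push_cast
    ring
  · rintro ⟨y, j⟩ hw ⟨y', j'⟩ hw' heq
    simp only [Finset.coe_filter, Finset.mem_product, Set.mem_ofPred_eq] at hw hw' heq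
    subst heq
    have h1 : (j : ℂ) * v = (j' : ℂ) * v := by
      have h2 := hw.2.trans hw'.2.symm
      rw [nsmul_eq_mul, nsmul_eq_mul] at h2
      exact add_left_cancel h2
    have h3 : (j : ℂ) = j' := mul_right_cancel₀ hv0 h1
    have h4 : j = j' := by exact_mod_cast h3
    rw [h4]

end Pool.BD.LIN

namespace Pool.BD

theorem stmt_LIN : Stmt_LIN := by
  classical
  intro K k
  obtain ⟨K', hK1, hKK⟩ : ∃ K' : ℝ, 1 ≤ K' ∧ K ≤ K' := ⟨max K 1, le_max_right _ _, le_max_left _ _⟩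
  obtain ⟨M, hM⟩ := exists_nat_gt ((k : ℝ) * K' ^ 5)
  obtain ⟨N, hN⟩ := exists_nat_gt (K' ^ (∑ j ∈ Finset.range (M + 1), (2 * j + 1)))
  refine ⟨N * (k + 1), fun Y hYK hDB => ?_⟩
  rcases Y.eq_empty_or_nonempty with hYe | hYne
  · refine ⟨∅, by simp, by simp, ?_⟩
    intro y hy
    rw [hYe] at hy
    exact absurd hy (Finset.notMem_empty y)
  have hYK' : (#(Y - Y) : ℝ) ≤ K' * #Y := hYK.trans (by gcongr)
  obtain ⟨hZ, R, hR, hcl⟩ := LIN.classes Y hYne K' hYK' M
  obtain ⟨D, hD, hdir⟩ := hDB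
  obtain ⟨y₀, hy₀⟩ := hYne
  have hRN : R.card ≤ N := by
    have : (R.card : ℝ) < N := hR.trans_lt hN
    exact (by exact_mod_cast this : R.card < N).le
  refine ⟨(R ×ˢ (insert 1 (D.filter (fun d => d ≠ 0)))).image (fun z => (y₀ + z.1, z.2)),
    ?_, ?_, ?_⟩
  · refine Finset.card_image_le.trans ?_
    rw [Finset.card_product]
    refine Nat.mul_le_mul hRN ?_
    refine (Finset.card_insert_le _ _).trans ?_
    have := Finset.card_filter_le D (fun d => d ≠ 0)
    omega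
  · intro l hl
    rw [Finset.mem_image] at hl
    obtain ⟨z, hz, rfl⟩ := hl
    rw [Finset.mem_product, Finset.mem_insert, Finset.mem_filter] at hz
    rcases hz.2 with h | h
    · show z.2 ≠ 0
      rw [h]; exact one_ne_zero
    · exact h.2
  · intro y hy
    obtain ⟨r, hr, hj⟩ := hcl (y - y₀) (Finset.sub_mem_sub hy hy₀)
    by_cases hv : y - y₀ - r = 0
    · refine ⟨(y₀ + r, 1), ?_, 0, ?_⟩
      · rw [Finset.mem_image]
        exact ⟨(r, 1), Finset.mem_product.mpr ⟨hr, Finset.mem_insert_self _ _⟩, rfl⟩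
      · show y = y₀ + r + ((0 : ℝ) : ℂ) * 1
        rw [Complex.ofReal_zero, zero_mul, add_zero]
        linear_combination hv
    · obtain ⟨z, hz⟩ := LIN.rich Y ⟨y₀, hy₀⟩ K' k M (hM.trans (by linarith)) hZ _ hv hj
      obtain ⟨d, hd, s, hs⟩ := hdir (z, y - y₀ - r) hv hz
      have hd0 : d ≠ 0 := by
        rintro rfl
        apply hv
        have : y - y₀ - r = (s : ℂ) * 0 := hs
        rw [this, mul_zero]
      refine ⟨(y₀ + r, d), ?_, s, ?_⟩
      · rw [Finset.mem_image]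
        refine ⟨(r, d), Finset.mem_product.mpr ⟨hr, Finset.mem_insert_of_mem ?_⟩, rfl⟩
        exact Finset.mem_filter.mpr ⟨hd, hd0⟩
      · show y = y₀ + r + (s : ℂ) * d
        have : y - y₀ - r = (s : ℂ) * d := hs
        linear_combination this

end Pool.BD
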