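import Pool.Agent.Work.MP_dc37f8_bd.Interface

/-!
# MP_dc37f8_co, block LINES (helper79): sets on few lines
-/

set_option autoImplicit false
set_option maxHeartbeats 4000000

open Finset

namespace Pool.BD.LINES

open Pool.BK

open Classical in
lemma TC_mono (P Q : Finset ℂ) (h : P ⊆ Q) : (TC P).card ≤ (TC Q).card := by
  unfold TC
  apply Finset.card_le_card
  apply Finset.image_subset_image
  intro z hz
  rw [Finset.mem_filter, Finset.mem_product, Finset.mem_product] at hz ⊢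
  exact ⟨⟨h hz.1.1, h hz.1.2.1, h hz.1.2.2⟩, hz.2⟩

/-- arithmetic: a line which is not parallel to the richest one has few points -/
lemma few (n a b T C M s : ℝ) (hs : 0 < s) (hM : 1 ≤ M) (hC : 0 < C)
    (hn : 4 * C * M ^ 4 / s ^ 2 < n) (hn2 : 2 * M ^ 2 / s ≤ n) (hn3 : 1 ≤ n)
    (ha : n / M ≤ a) (hT : T ≤ n ^ 2) (h : (a * b - 1) ^ 2 ≤ C * T * n) :
    b ≤ s / M * n := by
  by_contra hb
  push Not at hb
  have hM0 : 0 < M := by linarith
  have hn0 : 0 < n := by linarith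
  have h1 : n / M * (s / M * n) ≤ a * b :=
    mul_le_mul ha hb.le (by positivity) ((by positivity : 0 ≤ n / M).trans ha)
  have h2 : n / M * (s / M * n) = s * n ^ 2 / M ^ 2 := by
    field_simp
  rw [h2] at h1
  have h3 : 1 ≤ s * n ^ 2 / (2 * M ^ 2) := by
    rw [le_div_iff₀ (by positivity)]
    rw [div_le_iff₀ hs] at hn2
    have : n * s ≤ n * s * n := by
      have h5 : 0 ≤ n * s := by positivity
      nlinarith
    nlinarith
  have h4 : s * n ^ 2 / (2 * M ^ 2) ≤ a * b - 1 := by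
    have : s * n ^ 2 / M ^ 2 = s * n ^ 2 / (2 * M ^ 2) + s * n ^ 2 / (2 * M ^ 2) := by
      field_simp
      ring
    linarith
  have h5 : (s * n ^ 2 / (2 * M ^ 2)) ^ 2 ≤ (a * b - 1) ^ 2 :=
    pow_le_pow_left₀ (by positivity) h4 2
  have h6 : C * T * n ≤ C * n ^ 2 * n :=
    mul_le_mul_of_nonneg_right (mul_le_mul_of_nonneg_left hT hC.le) hn0.le
  have h7 : (s * n ^ 2 / (2 * M ^ 2)) ^ 2 ≤ C * n ^ 3 := by
    refine (h5.trans (h.trans h6)).trans (le_of_eq ?_)
    ring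
  have h8 : (s * n ^ 2 / (2 * M ^ 2)) ^ 2 = s ^ 2 * n ^ 4 / (4 * M ^ 4) := by
    field_simp
    ring
  rw [h8, div_le_iff₀ (by positivity)] at h7
  rw [div_lt_iff₀ (by positivity)] at hn
  have h9 : n ^ 3 * (4 * C * M ^ 4) < n ^ 3 * (n * s ^ 2) :=
    mul_lt_mul_of_pos_left hn (by positivity)
  nlinarith

end Pool.BD.LINES

namespace Pool.BD

open Pool.BK

theorem stmt_LINES (hNONP : Stmt_NONP) (hPARL : Stmt_PARL) : Stmt_LINES := by
  classical
  intro m s hs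
  by_cases hs8 : 1 / 8 ≤ s
  · refine ⟨0, fun P _ _ => ?_⟩
    have h1 : (1 / 8 - s) * (P.card : ℝ) ^ 2 ≤ 0 :=
      mul_nonpos_of_nonpos_of_nonneg (by linarith) (by positivity)
    exact h1.trans (by positivity)
  push Not at hs8
  obtain ⟨C, hC, hNP⟩ := hNONP m
  obtain ⟨n₁, hn₁⟩ := hPARL m (s / 2) (by positivity)
  obtain ⟨M, hMdef⟩ : ∃ M : ℝ, M = (m : ℝ) + 1 := ⟨_, rfl⟩
  have hM1 : 1 ≤ M := by rw [hMdef]; have : (0 : ℝ) ≤ m := by positivity
                         linarith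
  obtain ⟨N, hN⟩ := exists_nat_gt (4 * C * M ^ 4 / s ^ 2 + 2 * M ^ 2 / s)
  refine ⟨N + 2 * n₁ + 4, fun P hcov hn => ?_⟩
  obtain ⟨𝓛, hcard, hne, hon⟩ := hcov
  obtain ⟨n, hnn⟩ : ∃ n : ℝ, n = (P.card : ℝ) := ⟨_, rfl⟩
  have hnbig : (N : ℝ) + 2 * n₁ + 4 ≤ n := by
    rw [hnn]; exact_mod_cast hn
  have hN0 : (0 : ℝ) ≤ N := by positivity
  have hn10 : (0 : ℝ) ≤ n₁ := by positivity
  have hpos1 : 0 ≤ 4 * C * M ^ 4 / s ^ 2 := by positivity
  have hpos2 : 0 ≤ 2 * M ^ 2 / s := by positivity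
  by_cases hT : n ^ 2 ≤ ((TC P).card : ℝ)
  · rw [← hnn]
    refine le_trans ?_ hT
    have : 0 ≤ n ^ 2 := by positivity
    nlinarith
  push Not at hT
  -- the richest line
  have hptscov : P ⊆ 𝓛.biUnion (fun l => pts P l) := by
    intro y hy
    obtain ⟨l, hl, hly⟩ := hon y hy
    rw [Finset.mem_biUnion]
    refine ⟨l, hl, ?_⟩
    unfold pts
    exact Finset.mem_filter.mpr ⟨hy, hly⟩
  have hsumP : P.card ≤ ∑ l ∈ 𝓛, (pts P l).card :=
    (Finset.card_le_card hptscov).trans Finset.card_biUnion_le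
  have h𝓛ne : 𝓛.Nonempty := by
    rw [Finset.nonempty_iff_ne_empty]
    rintro rfl
    rw [Finset.sum_empty] at hsumP
    omega
  obtain ⟨l₁, hl₁, hmax⟩ := Finset.exists_max_image 𝓛 (fun l => (pts P l).card) h𝓛ne
  have hrich : n / M ≤ ((pts P l₁).card : ℝ) := by
    rw [div_le_iff₀ (by linarith)]
    have h1 : P.card ≤ 𝓛.card * (pts P l₁).card := by
      refine hsumP.trans ?_
      refine (Finset.sum_le_card_nsmul _ _ _ hmax).trans (le_of_eq ?_)
      rw [smul_eq_mul]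
    have h2 : P.card ≤ m * (pts P l₁).card := h1.trans (Nat.mul_le_mul_right _ hcard)
    have h3 : (P.card : ℝ) ≤ ((m * (pts P l₁).card : ℕ) : ℝ) := by exact_mod_cast h2
    push_cast at h3
    rw [hnn, hMdef]
    have h4 : (0 : ℝ) ≤ ((pts P l₁).card : ℝ) := by positivity
    nlinarith
  -- the points on the lines parallel to `l₁`
  obtain ⟨par, hpar⟩ : ∃ par : Finset (ℂ × ℂ), par = 𝓛.filter (fun l => ∃ c : ℝ, l.2 = c * l₁.2) :=
    ⟨_, rfl⟩
  obtain ⟨Q, hQ⟩ : ∃ Q : Finset ℂ, Q = P.filter (fun y => ∃ l ∈ par, On l y) := ⟨_, rfl⟩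
  have hQP : Q ⊆ P := by rw [hQ]; exact Finset.filter_subset _ _
  have hfew : ∀ l ∈ 𝓛, (¬ ∃ c : ℝ, l.2 = c * l₁.2) → ((pts P l).card : ℝ) ≤ s / M * n := by
    intro l hl hnp
    rcases Nat.eq_zero_or_pos (pts P l).card with h0 | h0
    · rw [h0]
      have : 0 ≤ s / M * n := by
        have : 0 ≤ n := by linarith
        positivity
      simpa using this
    · have h1 : 0 < (pts P l₁).card := lt_of_lt_of_le h0 (hmax l hl)
      have h2 : 1 ≤ (pts P l₁).card * (pts P l).card := Nat.mul_pos h1 h0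
      have h3 := hNP P 𝓛 hcard hne hon (by omega) l₁ hl₁ l hl hnp h2
      rw [← hnn] at h3
      exact LINES.few n _ _ ((TC P).card : ℝ) C M s hs hM1 hC (by linarith) (by linarith)
        (by linarith) hrich hT.le h3
  have hdiff : ((P \ Q).card : ℝ) ≤ s * n := by
    have h1 : P \ Q ⊆ (𝓛.filter (fun l => ¬ ∃ c : ℝ, l.2 = c * l₁.2)).biUnion
        (fun l => pts P l) := by
      intro y hy
      rw [Finset.mem_sdiff] at hy
      obtain ⟨l, hl, hly⟩ := hon y hy.1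
      rw [Finset.mem_biUnion]
      refine ⟨l, Finset.mem_filter.mpr ⟨hl, fun hc => hy.2 ?_⟩, ?_⟩
      · rw [hQ, Finset.mem_filter]
        refine ⟨hy.1, l, ?_, hly⟩
        rw [hpar, Finset.mem_filter]
        exact ⟨hl, hc⟩
      · unfold pts
        exact Finset.mem_filter.mpr ⟨hy.1, hly⟩
    have h2 : (P \ Q).card ≤ ∑ l ∈ 𝓛.filter (fun l => ¬ ∃ c : ℝ, l.2 = c * l₁.2), (pts P l).card :=
      (Finset.card_le_card h1).trans Finset.card_biUnion_le
    have h3 : ((P \ Q).card : ℝ) ≤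
        ((∑ l ∈ 𝓛.filter (fun l => ¬ ∃ c : ℝ, l.2 = c * l₁.2), (pts P l).card : ℕ) : ℝ) := by
      exact_mod_cast h2
    push_cast at h3
    refine h3.trans ?_
    have h4 : ∑ l ∈ 𝓛.filter (fun l => ¬ ∃ c : ℝ, l.2 = c * l₁.2), ((pts P l).card : ℝ) ≤
        (𝓛.filter (fun l => ¬ ∃ c : ℝ, l.2 = c * l₁.2)).card • (s / M * n) := by
      refine Finset.sum_le_card_nsmul _ _ _ (fun l hl => ?_)
      rw [Finset.mem_filter] at hl
      exact hfew l hl.1 hl.2
    refine h4.trans ?_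
    rw [nsmul_eq_mul]
    have h5 : (((𝓛.filter (fun l => ¬ ∃ c : ℝ, l.2 = c * l₁.2)).card : ℕ) : ℝ) ≤ M := by
      have h6 : (𝓛.filter (fun l => ¬ ∃ c : ℝ, l.2 = c * l₁.2)).card ≤ m :=
        (Finset.card_filter_le _ _).trans hcard
      have h7 : (((𝓛.filter (fun l => ¬ ∃ c : ℝ, l.2 = c * l₁.2)).card : ℕ) : ℝ) ≤ m := by
        exact_mod_cast h6
      rw [hMdef]; linarith
    have h6 : 0 ≤ s / M * n := by
      have : 0 ≤ n := by linarith
      positivity
    refine (mul_le_mul_of_nonneg_right h5 h6).trans (le_of_eq ?_)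
    have : M ≠ 0 := by linarith
    field_simp
  have hQcard : (1 - s) * n ≤ (Q.card : ℝ) := by
    have h1 := Finset.card_sdiff_add_card_eq_card hQP
    have h2 : ((P \ Q).card : ℝ) + (Q.card : ℝ) = n := by
      rw [hnn]
      exact_mod_cast h1
    linarith
  have hQn : n₁ ≤ Q.card := by
    have h1 : (n₁ : ℝ) ≤ (Q.card : ℝ) := by
      refine le_trans ?_ hQcard
      nlinarith
    exact_mod_cast h1
  have hfin := hn₁ Q (par.image (fun l => l.1)) l₁.2 (hne l₁ hl₁)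
    ((Finset.card_image_le).trans (by
      rw [hpar]
      exact (Finset.card_filter_le _ _).trans hcard))
    (by
      intro y hy
      rw [hQ, Finset.mem_filter] at hy
      obtain ⟨_, l, hl, t, ht⟩ := hy
      refine ⟨l.1, Finset.mem_image_of_mem _ hl, ?_⟩
      rw [hpar, Finset.mem_filter] at hl
      obtain ⟨c, hc⟩ := hl.2
      refine ⟨t * c, ?_⟩
      show y = l.1 + ((t * c : ℝ) : ℂ) * l₁.2
      rw [ht, hc]
      push_cast
      ring) hQn
  have hmono : ((TC Q).card : ℝ) ≤ ((TC P).card : ℝ) := by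
    exact_mod_cast LINES.TC_mono Q P hQP
  refine le_trans ?_ (hfin.trans hmono)
  rw [← hnn]
  have h1 : ((1 - s) * n) ^ 2 ≤ (Q.card : ℝ) ^ 2 := by
    refine pow_le_pow_left₀ ?_ hQcard 2
    have : 0 ≤ n := by linarith
    have h2 : 0 ≤ 1 - s := by linarith
    positivity
  have h2 : (1 / 8 - s / 2) * ((1 - s) * n) ^ 2 ≤ (1 / 8 - s / 2) * (Q.card : ℝ) ^ 2 :=
    mul_le_mul_of_nonneg_left h1 (by linarith)
  refine le_trans ?_ h2
  have h3 : (1 / 8 - s / 2) * ((1 - s) * n) ^ 2 = ((1 / 8 - s / 2) * (1 - s) ^ 2) * n ^ 2 := by ring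
  rw [h3]
  refine mul_le_mul_of_nonneg_right ?_ (by positivity)
  nlinarith

end Pool.BD
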