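import Pool.Agent.Work.MP_dc37f8_bd.Interface

/-! MIX: a large circle or few lines. -/

set_option autoImplicit false

open Finset

namespace Pool.BD

open Pool.BK

namespace MIX

open Classical in
/-- the triples of `X` in `Q` -/
noncomputable def tin (X : Finset (ℂ × ℂ × ℂ)) (Q : Finset ℂ) : Finset (ℂ × ℂ × ℂ) :=
  X.filter (fun x => x.1 ∈ Q ∧ x.2.1 ∈ Q ∧ x.2.2 ∈ Q)

theorem tin_card (X : Finset (ℂ × ℂ × ℂ)) (Q : Finset ℂ) : (tin X Q).card ≤ Q.card ^ 3 := by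
  classical
  have : tin X Q ⊆ Q ×ˢ Q ×ˢ Q := by
    intro x hx
    obtain ⟨_, h1, h2, h3⟩ := mem_filter.1 hx
    exact mem_product.2 ⟨h1, mem_product.2 ⟨h2, h3⟩⟩
  refine (card_le_card this).trans (le_of_eq ?_)
  rw [card_product, card_product]; ring

/-- triples with a point outside of `Q` use a bad point -/
theorem tin_bad (P Q : Finset ℂ) (g : Gp) (X : Finset (ℂ × ℂ × ℂ))
    (hX : ∀ x ∈ X, ¬ (x.1 ∈ Q ∧ x.2.1 ∈ Q ∧ x.2.2 ∈ Q)) :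
    ((tin X (st P g)).card : ℝ) ≤ 3 * (P.card : ℝ) ^ 2 * (bad P Q g).card := by
  classical
  set S := st P g with hS
  set B := bad P Q g with hB
  have hSn : S.card ≤ P.card := card_filter_le _ _
  have hsub : tin X S ⊆ (B ×ˢ S ×ˢ S) ∪ (S ×ˢ B ×ˢ S) ∪ (S ×ˢ S ×ˢ B) := by
    intro x hx
    obtain ⟨hxX, h1, h2, h3⟩ := mem_filter.1 hx
    have h4 := hX x hxX
    simp only [mem_union, mem_product]
    by_cases q1 : x.1 ∈ Q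
    · by_cases q2 : x.2.1 ∈ Q
      · right
        refine ⟨h1, h2, mem_filter.2 ⟨h3, fun h => h4 ⟨q1, q2, h.1⟩⟩⟩
      · left; right
        exact ⟨h1, mem_filter.2 ⟨h2, fun h => q2 h.1⟩, h3⟩
    · left; left
      exact ⟨mem_filter.2 ⟨h1, fun h => q1 h.1⟩, h2, h3⟩
  have h1 : (tin X S).card ≤ 3 * (S.card ^ 2 * B.card) := by
    refine (card_le_card hsub).trans ?_
    have e1 := card_union_le ((B ×ˢ S ×ˢ S) ∪ (S ×ˢ B ×ˢ S)) (S ×ˢ S ×ˢ B)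
    have e2 := card_union_le (B ×ˢ S ×ˢ S) (S ×ˢ B ×ˢ S)
    have f1 : (B ×ˢ S ×ˢ S).card = S.card ^ 2 * B.card := by
      rw [card_product, card_product]; ring
    have f2 : (S ×ˢ B ×ˢ S).card = S.card ^ 2 * B.card := by
      rw [card_product, card_product]; ring
    have f3 : (S ×ˢ S ×ˢ B).card = S.card ^ 2 * B.card := by
      rw [card_product, card_product]; ring
    omega
  have h2 : ((tin X S).card : ℝ) ≤ 3 * ((S.card : ℝ) ^ 2 * B.card) := by exact_mod_cast h1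
  refine h2.trans ?_
  have h3 : (S.card : ℝ) ^ 2 ≤ (P.card : ℝ) ^ 2 :=
    pow_le_pow_left₀ (Nat.cast_nonneg _) (by exact_mod_cast hSn) 2
  have h4 : (S.card : ℝ) ^ 2 * B.card ≤ (P.card : ℝ) ^ 2 * B.card :=
    mul_le_mul_of_nonneg_right h3 (Nat.cast_nonneg _)
  linarith

/-- splitting of a sum over `𝒢` -/
theorem split {𝒢 Tl Un Gc : Finset Gp} {𝒲 : Finset Gp} {Gd : Gp → Finset Gp} {f : Gp → ℝ}
    (hf : ∀ g, 0 ≤ f g)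
    (h : ∀ g ∈ 𝒢, g ∈ Tl ∨ g ∈ Un ∨ g ∈ Gc ∨ ∃ w ∈ 𝒲, g ∈ Gd w) :
    ∑ g ∈ 𝒢, f g ≤ ∑ g ∈ Tl, f g + ∑ g ∈ Un, f g + ∑ g ∈ Gc, f g +
      ∑ w ∈ 𝒲, ∑ g ∈ Gd w, f g := by
  classical
  have hsub : 𝒢 ⊆ ((Tl ∪ Un) ∪ Gc) ∪ 𝒲.biUnion Gd := by
    intro g hg
    simp only [mem_union, mem_biUnion]
    rcases h g hg with h1 | h1 | h1 | h1
    · exact Or.inl (Or.inl (Or.inl h1))
    · exact Or.inl (Or.inl (Or.inr h1))
    · exact Or.inl (Or.inr h1)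
    · exact Or.inr h1
  have hu : ∀ A B : Finset Gp, ∑ g ∈ A ∪ B, f g ≤ ∑ g ∈ A, f g + ∑ g ∈ B, f g := by
    intro A B
    rw [← sum_union_inter]
    have : 0 ≤ ∑ g ∈ A ∩ B, f g := sum_nonneg fun g _ => hf g
    linarith
  have hb : ∀ V : Finset Gp, ∑ g ∈ V.biUnion Gd, f g ≤ ∑ w ∈ V, ∑ g ∈ Gd w, f g := by
    intro V
    induction V using Finset.induction_on with
    | empty => simp
    | insert w V hw ih =>
      rw [biUnion_insert, sum_insert hw]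
      exact (hu _ _).trans (add_le_add_right ih _)
  have h1 := sum_le_sum_of_subset_of_nonneg (f := f) hsub (fun g _ _ => hf g)
  have h2 := hu ((Tl ∪ Un) ∪ Gc) (𝒲.biUnion Gd)
  have h3 := hu (Tl ∪ Un) Gc
  have h4 := hu Tl Un
  have h5 := hb 𝒲
  linarith

/-- the tail -/
theorem tail {P : Finset ℂ} {κ δ : ℝ} (hδ : 0 ≤ δ) (hP : PB P κ) {Tl : Finset Gp}
    (hiso : ∀ g ∈ Tl, IsIso g) (h2 : ∀ g ∈ Tl, 2 ≤ (st P g).card)
    (hr : ∀ g ∈ Tl, ((st P g).card : ℝ) ≤ δ * P.card) :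
    ∑ g ∈ Tl, ((st P g).card : ℝ) ^ 3 ≤ 2 * δ * κ * (P.card : ℝ) ^ 4 := by
  have e1 : ∀ g ∈ Tl, ((st P g).card : ℝ) ^ 3 ≤
      (2 * δ * P.card) * (((st P g).card : ℝ) * ((st P g).card - 1)) := by
    intro g hg
    have h2' : (2 : ℝ) ≤ ((st P g).card : ℝ) := by exact_mod_cast h2 g hg
    have h3 := hr g hg
    set r : ℝ := ((st P g).card : ℝ) with hrr
    have h4 : r ^ 2 ≤ 2 * (r * (r - 1)) := by nlinarith
    have h5 : 0 ≤ δ * P.card := by positivity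
    calc r ^ 3 = r * r ^ 2 := by ring
      _ ≤ (δ * P.card) * (2 * (r * (r - 1))) := mul_le_mul h3 h4 (by positivity) h5
      _ = _ := by ring
  calc ∑ g ∈ Tl, ((st P g).card : ℝ) ^ 3
      ≤ ∑ g ∈ Tl, (2 * δ * P.card) * (((st P g).card : ℝ) * ((st P g).card - 1)) :=
        sum_le_sum e1
    _ = (2 * δ * P.card) * ∑ g ∈ Tl, (((st P g).card : ℝ) * ((st P g).card - 1)) := by
        rw [mul_sum]
    _ ≤ (2 * δ * P.card) * (κ * (P.card : ℝ) ^ 3) :=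
        mul_le_mul_of_nonneg_left (hP Tl hiso) (by positivity)
    _ = _ := by ring

/-- the number of rich isometries -/
theorem rich_card {P : Finset ℂ} {κ δ : ℝ} (hδ : 0 < δ) (hP : PB P κ) {B : Finset Gp}
    (hiso : ∀ g ∈ B, IsIso g) (hr : ∀ g ∈ B, δ * P.card ≤ ((st P g).card : ℝ))
    (hn : 2 ≤ δ * P.card) : (B.card : ℝ) ≤ 2 * κ / δ ^ 2 * P.card := by
  have h1 := hP B hiso
  have h2 : (B.card : ℝ) * (δ ^ 2 * (P.card : ℝ) ^ 2 / 2) ≤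
      ∑ g ∈ B, ((st P g).card : ℝ) * ((st P g).card - 1) := by
    rw [← nsmul_eq_mul, ← sum_const]
    refine sum_le_sum fun g hg => ?_
    have h3 := hr g hg
    have h4 : δ * P.card / 2 ≤ ((st P g).card : ℝ) - 1 := by linarith
    calc δ ^ 2 * (P.card : ℝ) ^ 2 / 2 = (δ * P.card) * (δ * P.card / 2) := by ring
      _ ≤ _ := mul_le_mul h3 h4 (by positivity) (by linarith)
  have hnpos : 0 < (P.card : ℝ) := by
    by_contra hcon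
    push Not at hcon
    nlinarith
  have h3 : (B.card : ℝ) * (δ ^ 2 * (P.card : ℝ) ^ 2 / 2) ≤ κ * (P.card : ℝ) ^ 3 := h2.trans h1
  have h4 : ((B.card : ℝ) * δ ^ 2) * (P.card : ℝ) ^ 2 ≤ (2 * κ * P.card) * (P.card : ℝ) ^ 2 := by
    nlinarith
  have h5 : (B.card : ℝ) * δ ^ 2 ≤ 2 * κ * P.card := le_of_mul_le_mul_right h4 (by positivity)
  rw [div_mul_eq_mul_div, le_div_iff₀ (by positivity)]
  exact h5

/-- arithmetic: one of two parts is nearly everything -/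
theorem two_key {a X Y : ℝ} (ha : 0 < a) (ha1 : a ≤ 1 / 30) (hX : 0 ≤ X) (hY : 0 ≤ Y)
    (hYX : Y ≤ X) (h3 : 1 - 4 * a ≤ X ^ 3 + Y ^ 3) (h1 : X + Y ≤ 1 + a) : 1 - 5 * a ≤ X := by
  by_contra hcon
  push Not at hcon
  have e0 : Y ^ 2 ≤ X ^ 2 := pow_le_pow_left₀ hY hYX 2
  have e1 : Y ^ 3 ≤ X ^ 2 * Y := by
    calc Y ^ 3 = Y ^ 2 * Y := by ring
      _ ≤ X ^ 2 * Y := mul_le_mul_of_nonneg_right e0 hY
  have e2 : X ^ 2 * (X + Y) ≤ (1 - 5 * a) ^ 2 * (1 + a) := by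
    apply mul_le_mul _ h1 (by positivity) (by positivity)
    exact pow_le_pow_left₀ hX hcon.le 2
  have e3 : 1 - 4 * a ≤ (1 - 5 * a) ^ 2 * (1 + a) := by
    calc 1 - 4 * a ≤ X ^ 3 + Y ^ 3 := h3
      _ ≤ X ^ 3 + X ^ 2 * Y := by linarith
      _ = X ^ 2 * (X + Y) := by ring
      _ ≤ _ := e2
  have e4 : (1 - 5 * a) ^ 2 * (1 + a) = 1 - 9 * a + 15 * a ^ 2 + 25 * a ^ 3 := by ring
  have e5 : a ^ 2 ≤ 1 / 30 * a := by
    calc a ^ 2 = a * a := by ring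
      _ ≤ 1 / 30 * a := mul_le_mul_of_nonneg_right ha1 ha.le
  have e6 : a ^ 3 ≤ 1 / 900 * a := by
    calc a ^ 3 = a * a ^ 2 := by ring
      _ ≤ a * (1 / 30 * a) := mul_le_mul_of_nonneg_left e5 ha.le
      _ = 1 / 30 * a ^ 2 := by ring
      _ ≤ 1 / 30 * (1 / 30 * a) := by linarith
      _ = 1 / 900 * a := by ring
  rw [e4] at e3
  linarith

theorem two_parts {a A B : ℝ} (ha : 0 < a) (ha1 : a ≤ 1 / 30) (hA : 0 ≤ A) (hB : 0 ≤ B)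
    (h3 : 1 - 4 * a ≤ A ^ 3 + B ^ 3) (h1 : A + B ≤ 1 + a) (hB1 : B < 1 - 30 * a) :
    B ≤ 6 * a := by
  rcases le_total B A with h | h
  · have := two_key ha ha1 hA hB h h3 h1
    linarith
  · exfalso
    have := two_key ha ha1 hB hA h (by linarith) (by linarith)
    linarith

/-- the part `R` contains most triples -/
theorem arith1 {a n C r l t x y : ℝ} (ha : 0 < a) (ha1 : a ≤ 1 / 30) (hn : 0 < n)
    (hr : 0 ≤ r) (hl : 0 ≤ l) (hna : 3 ≤ a * n) (hnC : C ≤ a * n)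
    (ht : n ^ 3 - 3 * n ^ 2 ≤ t) (htx : t ≤ x + y + l ^ 3) (hy : y ≤ r ^ 3)
    (hx : x ≤ 3 * a * n ^ 3) (hrl : r + l ≤ n + C) (hl1 : l < (1 - 30 * a) * n) :
    (1 - 5 * a) * n ^ 3 ≤ y := by
  have hn2 : 3 * n ^ 2 ≤ a * n ^ 3 := by
    calc 3 * n ^ 2 = n ^ 2 * 3 := by ring
      _ ≤ n ^ 2 * (a * n) := mul_le_mul_of_nonneg_left hna (by positivity)
      _ = a * n ^ 3 := by ring
  obtain ⟨A, hA⟩ : ∃ A : ℝ, A = r / n := ⟨_, rfl⟩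
  obtain ⟨B, hB⟩ : ∃ B : ℝ, B = l / n := ⟨_, rfl⟩
  have hA0 : 0 ≤ A := by rw [hA]; positivity
  have hB0 : 0 ≤ B := by rw [hB]; positivity
  have hrA : r = A * n := by rw [hA]; field_simp
  have hlB : l = B * n := by rw [hB]; field_simp
  have hn3 : 0 < n ^ 3 := by positivity
  have h3 : 1 - 4 * a ≤ A ^ 3 + B ^ 3 := by
    have h6 : (1 - 4 * a) * n ^ 3 ≤ r ^ 3 + l ^ 3 := by linarith
    have h7 : (1 - 4 * a) * n ^ 3 ≤ (A ^ 3 + B ^ 3) * n ^ 3 := by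
      calc (1 - 4 * a) * n ^ 3 ≤ r ^ 3 + l ^ 3 := h6
        _ = (A ^ 3 + B ^ 3) * n ^ 3 := by rw [hrA, hlB]; ring
    exact le_of_mul_le_mul_right h7 hn3
  have h1 : A + B ≤ 1 + a := by
    have : (A + B) * n ≤ (1 + a) * n := by
      calc (A + B) * n = r + l := by rw [hrA, hlB]; ring
        _ ≤ n + C := hrl
        _ ≤ (1 + a) * n := by linarith
    exact le_of_mul_le_mul_right this hn
  have hB1 : B < 1 - 30 * a := by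
    rw [hlB] at hl1
    exact lt_of_mul_lt_mul_right hl1 hn.le
  have hB6 := two_parts ha ha1 hA0 hB0 h3 h1 hB1
  have h7 : B ^ 3 ≤ (6 * a) ^ 3 := pow_le_pow_left₀ hB0 hB6 3
  have h8 : (6 * a) ^ 3 ≤ a := by
    have e5 : a ^ 2 ≤ 1 / 900 := by
      calc a ^ 2 ≤ (1 / 30) ^ 2 := pow_le_pow_left₀ ha.le ha1 2
        _ = 1 / 900 := by norm_num
    calc (6 * a) ^ 3 = 216 * a * a ^ 2 := by ring
      _ ≤ 216 * a * (1 / 900) := mul_le_mul_of_nonneg_left e5 (by positivity)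
      _ ≤ a := by linarith
  have h6 : l ^ 3 ≤ a * n ^ 3 := by
    calc l ^ 3 = B ^ 3 * n ^ 3 := by rw [hlB]; ring
      _ ≤ a * n ^ 3 := mul_le_mul_of_nonneg_right (h7.trans h8) hn3.le
  linarith

/-- from the square -/
theorem arith2 {a e n T S x : ℝ} (ha : 0 < a) (he : e = a ^ 2) (hn : 0 < n) (hT : 0 ≤ T)
    (hT6 : 6 * T ≤ n ^ 2) (hx : x ^ 2 ≤ 6 * T * S) (hS : S ≤ 8 * e * n ^ 4) :
    x ≤ 3 * a * n ^ 3 := by
  have h11 : x ^ 2 ≤ (3 * a * n ^ 3) ^ 2 := by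
    calc x ^ 2 ≤ 6 * T * S := hx
      _ ≤ 6 * T * (8 * e * n ^ 4) := mul_le_mul_of_nonneg_left hS (by positivity)
      _ ≤ n ^ 2 * (8 * e * n ^ 4) := by
          apply mul_le_mul_of_nonneg_right hT6
          rw [he]; positivity
      _ = 8 * (a ^ 2 * n ^ 6) := by rw [he]; ring
      _ ≤ 9 * (a ^ 2 * n ^ 6) := by
          have : 0 ≤ a ^ 2 * n ^ 6 := by positivity
          linarith
      _ = (3 * a * n ^ 3) ^ 2 := by ring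
  exact le_of_sq_le_sq h11 (by positivity)

/-- the main inequality -/
theorem arith3 {a e n T S x y : ℝ} (ha : 0 < a) (ha1 : a ≤ 1 / 30) (hn : 0 < n) (hT : 0 ≤ T)
    (hy : (1 - 5 * a) * n ^ 3 ≤ y) (hyS : y ^ 2 ≤ 6 * T * S)
    (hS : S ≤ (2 * x + 7 * e) * n ^ 4) : (1 - 10 * a) * n ^ 2 ≤ 12 * T * (x + 7 / 2 * e) := by
  have h0 : 0 ≤ (1 - 5 * a) * n ^ 3 := by
    have : 0 ≤ 1 - 5 * a := by linarith
    positivity
  have h11 : ((1 - 5 * a) ^ 2 * n ^ 2) * n ^ 4 ≤ (12 * T * (x + 7 / 2 * e)) * n ^ 4 := by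
    calc ((1 - 5 * a) ^ 2 * n ^ 2) * n ^ 4 = ((1 - 5 * a) * n ^ 3) ^ 2 := by ring
      _ ≤ y ^ 2 := pow_le_pow_left₀ h0 hy 2
      _ ≤ 6 * T * S := hyS
      _ ≤ 6 * T * ((2 * x + 7 * e) * n ^ 4) := mul_le_mul_of_nonneg_left hS (by positivity)
      _ = _ := by ring
  have h12 := le_of_mul_le_mul_right h11 (by positivity)
  refine le_trans ?_ h12
  apply mul_le_mul_of_nonneg_right _ (by positivity)
  have : (1 - 5 * a) ^ 2 = 1 - 10 * a + 25 * a ^ 2 := by ring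
  rw [this]
  have : 0 ≤ a ^ 2 := by positivity
  linarith

/-- the final contradiction -/
theorem arith4 {a e s n T : ℝ} (ha : 0 < a) (ha1 : a ≤ 1 / 30) (he : e = a ^ 2)
    (hs : s = 30 * a) (hn : 0 < n) (hT : 0 ≤ T) (cir : ℂ → ℝ → ℝ)
    (hc0 : ∀ c ρ, 0 ≤ cir c ρ) (hcn : ∀ c ρ, cir c ρ ≤ n)
    (hmain : ∀ x : ℝ, 0 ≤ x → x ≤ 1 → (∀ (c : ℂ) (ρ : ℝ), 0 < ρ → cir c ρ ≤ x * n) →
      (1 - 10 * a) * n ^ 2 ≤ 12 * T * (x + 7 / 2 * e)) :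
    ∃ (c : ℂ) (ρ : ℝ), 0 < ρ ∧ n ^ 3 ≤ 12 * T * (cir c ρ + s * n) := by
  have hone := hmain 1 zero_le_one le_rfl (by
    intro c ρ _
    rw [one_mul]; exact hcn c ρ)
  have h1a : 0 < 1 - 10 * a := by linarith
  have hTpos : 0 < T := by
    rcases hT.lt_or_eq with h | h
    · exact h
    · exfalso
      rw [← h] at hone
      have : 0 < (1 - 10 * a) * n ^ 2 := by positivity
      linarith
  by_contra hcon
  push Not at hcon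
  obtain ⟨y, hy⟩ : ∃ y : ℝ, y = n ^ 2 / (12 * T) := ⟨_, rfl⟩
  have hy0 : 0 < y := by rw [hy]; positivity
  have hyT : 12 * T * y = n ^ 2 := by rw [hy]; field_simp
  have hcirc : ∀ (c : ℂ) (ρ : ℝ), 0 < ρ → cir c ρ < (y - s) * n := by
    intro c ρ hρ
    have h6 := hcon c ρ hρ
    have h7 : 12 * T * (cir c ρ + s * n) < 12 * T * (y * n) := by
      calc 12 * T * (cir c ρ + s * n) < n ^ 3 := h6
        _ = (12 * T * y) * n := by rw [hyT]; ring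
        _ = 12 * T * (y * n) := by ring
    have h8 := lt_of_mul_lt_mul_left h7 (by positivity)
    linarith
  have hys : 0 < y - s := by
    have h8 : 0 < (y - s) * n := lt_of_le_of_lt (hc0 0 1) (hcirc 0 1 one_pos)
    by_contra hneg
    push Not at hneg
    have : (y - s) * n ≤ 0 := mul_nonpos_of_nonpos_of_nonneg hneg hn.le
    linarith
  have hmain' : ∀ x : ℝ, 0 ≤ x → x ≤ 1 → (∀ (c : ℂ) (ρ : ℝ), 0 < ρ → cir c ρ ≤ x * n) →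
      (1 - 10 * a) * y ≤ x + 7 / 2 * e := by
    intro x hx0 hx1 hx
    have h6 := hmain x hx0 hx1 hx
    have h7 : 12 * T * ((1 - 10 * a) * y) ≤ 12 * T * (x + 7 / 2 * e) := by
      calc 12 * T * ((1 - 10 * a) * y) = (1 - 10 * a) * (12 * T * y) := by ring
        _ = (1 - 10 * a) * n ^ 2 := by rw [hyT]
        _ ≤ _ := h6
    exact le_of_mul_le_mul_left h7 (by positivity)
  have hea : e ≤ a / 30 := by
    rw [he]
    calc a ^ 2 = a * a := by ring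
      _ ≤ a * (1 / 30) := mul_le_mul_of_nonneg_left ha1 ha.le
      _ = a / 30 := by ring
  have hy2 : y ≤ 2 := by
    have h6 := hmain' 1 zero_le_one le_rfl (by
      intro c ρ _
      rw [one_mul]; exact hcn c ρ)
    by_contra hc2
    push Not at hc2
    have h7 : (1 - 10 * a) * 2 ≤ (1 - 10 * a) * y := mul_le_mul_of_nonneg_left hc2.le h1a.le
    linarith
  have h6 := hmain' (min (y - s) 1) (le_min hys.le zero_le_one) (min_le_right _ _) (by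
    intro c ρ hρ
    rcases le_total (y - s) 1 with h | h
    · rw [min_eq_left h]
      exact (hcirc c ρ hρ).le
    · rw [min_eq_right h, one_mul]
      exact hcn c ρ)
  have h7 : min (y - s) 1 ≤ y - s := min_le_left _ _
  have h8 : 10 * a * y ≤ 10 * a * 2 := mul_le_mul_of_nonneg_left hy2 (by positivity)
  have h9 : (1 - 10 * a) * y = y - 10 * a * y := by ring
  rw [h9] at h6
  linarith

/-- the sum over the triples which are in neither part -/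
theorem sumX {P R Λ : Finset ℂ} {𝒢 Tl Un Gc 𝒲 : Finset Gp} {Gd : Gp → Finset Gp} {e n : ℝ}
    {L : ℕ} (he : 0 < e) (hn : n = (P.card : ℝ)) (hn0 : 0 < n)
    (hcov : ∀ g ∈ 𝒢, g ∈ Tl ∨ g ∈ Un ∨ g ∈ Gc ∨ ∃ w ∈ 𝒲, g ∈ Gd w)
    (hbadc : ∑ g ∈ Gc, ((bad P R g).card : ℝ) ≤ e * n ^ 2)
    (hbadd : ∀ w ∈ 𝒲, ∑ g ∈ Gd w, ((bad P Λ g).card : ℝ) ≤ e / (L + 1) * n ^ 2)
    (hWL : (𝒲.card : ℝ) ≤ L) (X : Finset (ℂ × ℂ × ℂ))
    (hTail : ∑ g ∈ Tl, ((tin X (st P g)).card : ℝ) ≤ e * n ^ 4)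
    (hUnX : ∑ g ∈ Un, ((tin X (st P g)).card : ℝ) ≤ e * n ^ 4)
    (hX1 : ∀ x ∈ X, ¬ (x.1 ∈ R ∧ x.2.1 ∈ R ∧ x.2.2 ∈ R))
    (hX2 : ∀ x ∈ X, ¬ (x.1 ∈ Λ ∧ x.2.1 ∈ Λ ∧ x.2.2 ∈ Λ)) :
    ∑ g ∈ 𝒢, ((tin X (st P g)).card : ℝ) ≤ 8 * e * n ^ 4 := by
  classical
  have h7 := split (𝒢 := 𝒢) (Tl := Tl) (Un := Un) (Gc := Gc) (𝒲 := 𝒲) (Gd := Gd)
    (f := fun g => ((tin X (st P g)).card : ℝ)) (fun g => Nat.cast_nonneg _) hcov
  have h8 : ∑ g ∈ Gc, ((tin X (st P g)).card : ℝ) ≤ 3 * e * n ^ 4 := by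
    calc ∑ g ∈ Gc, ((tin X (st P g)).card : ℝ)
        ≤ ∑ g ∈ Gc, 3 * n ^ 2 * ((bad P R g).card : ℝ) := by
          refine sum_le_sum fun g _ => ?_
          rw [hn]; exact tin_bad P R g X hX1
      _ = 3 * n ^ 2 * ∑ g ∈ Gc, ((bad P R g).card : ℝ) := by rw [mul_sum]
      _ ≤ 3 * n ^ 2 * (e * n ^ 2) := mul_le_mul_of_nonneg_left hbadc (by positivity)
      _ = 3 * e * n ^ 4 := by ring
  have h9 : ∑ w ∈ 𝒲, ∑ g ∈ Gd w, ((tin X (st P g)).card : ℝ) ≤ 3 * e * n ^ 4 := by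
    calc ∑ w ∈ 𝒲, ∑ g ∈ Gd w, ((tin X (st P g)).card : ℝ)
        ≤ ∑ w ∈ 𝒲, 3 * n ^ 2 * (e / (L + 1) * n ^ 2) := by
          refine sum_le_sum fun w hw => ?_
          calc ∑ g ∈ Gd w, ((tin X (st P g)).card : ℝ)
              ≤ ∑ g ∈ Gd w, 3 * n ^ 2 * ((bad P Λ g).card : ℝ) := by
                refine sum_le_sum fun g _ => ?_
                rw [hn]; exact tin_bad P Λ g X hX2
            _ = 3 * n ^ 2 * ∑ g ∈ Gd w, ((bad P Λ g).card : ℝ) := by rw [mul_sum]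
            _ ≤ _ := mul_le_mul_of_nonneg_left (hbadd w hw) (by positivity)
      _ = 𝒲.card * (3 * n ^ 2 * (e / (L + 1) * n ^ 2)) := by rw [sum_const, nsmul_eq_mul]
      _ ≤ (L + 1) * (3 * n ^ 2 * (e / (L + 1) * n ^ 2)) := by
          apply mul_le_mul_of_nonneg_right _ (by positivity)
          linarith
      _ = 3 * e * n ^ 4 := by field_simp
  refine h7.trans ?_
  linarith

/-- the sum over the triples in `R` -/
theorem sumY {P R Λ : Finset ℂ} {𝒢 Tl Un Gc 𝒲 : Finset Gp} {Gd : Gp → Finset Gp}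
    {e n x κ δ : ℝ} {L C : ℕ} (he : 0 < e) (hκ : 0 < κ) (hδ : 0 < δ)
    (hn : n = (P.card : ℝ)) (hn1 : 1 ≤ n)
    (hcov : ∀ g ∈ 𝒢, g ∈ Tl ∨ g ∈ Un ∨ g ∈ Gc ∨ ∃ w ∈ 𝒲, g ∈ Gd w)
    (hbadd : ∀ w ∈ 𝒲, ∑ g ∈ Gd w, ((bad P Λ g).card : ℝ) ≤ e / (L + 1) * n ^ 2)
    (hGd : ∀ w, ((Gd w).card : ℝ) ≤ 2 * κ / δ ^ 2 * n)
    (hWL : (𝒲.card : ℝ) ≤ L) (hnL : 2 * L * κ * (C : ℝ) ^ 3 ≤ δ ^ 2 * e * n)
    (hRΛ : (R ∩ Λ).card ≤ C) (Y : Finset (ℂ × ℂ × ℂ))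
    (hTail : ∑ g ∈ Tl, ((tin Y (st P g)).card : ℝ) ≤ e * n ^ 4)
    (hUnX : ∑ g ∈ Un, ((tin Y (st P g)).card : ℝ) ≤ e * n ^ 4)
    (hc : ∑ g ∈ Gc, ((tin Y (st P g)).card : ℝ) ≤ (2 * x + e) * n ^ 4)
    (hYR : ∀ x ∈ Y, x.1 ∈ R ∧ x.2.1 ∈ R ∧ x.2.2 ∈ R) :
    ∑ g ∈ 𝒢, ((tin Y (st P g)).card : ℝ) ≤ (2 * x + 7 * e) * n ^ 4 := by
  classical
  have hn0 : 0 < n := by linarith
  have h7 := split (𝒢 := 𝒢) (Tl := Tl) (Un := Un) (Gc := Gc) (𝒲 := 𝒲) (Gd := Gd)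
    (f := fun g => ((tin Y (st P g)).card : ℝ)) (fun g => Nat.cast_nonneg _) hcov
  have h6 : ∀ g : Gp, ((tin Y (st P g)).card : ℝ) ≤
      3 * n ^ 2 * ((bad P Λ g).card : ℝ) + (C : ℝ) ^ 3 := by
    intro g
    set Y1 := Y.filter (fun x => ¬ (x.1 ∈ Λ ∧ x.2.1 ∈ Λ ∧ x.2.2 ∈ Λ)) with hY1
    have h7 : ((tin Y1 (st P g)).card : ℝ) ≤ 3 * n ^ 2 * ((bad P Λ g).card : ℝ) := by
      rw [hn]; exact tin_bad P Λ g Y1 (fun x hx => (mem_filter.1 hx).2)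
    have h8 : tin Y (st P g) ⊆ tin Y1 (st P g) ∪ tin Y (R ∩ Λ) := by
      intro x hx
      obtain ⟨hx1, hx2⟩ := mem_filter.1 hx
      by_cases q : x.1 ∈ Λ ∧ x.2.1 ∈ Λ ∧ x.2.2 ∈ Λ
      · refine mem_union.2 (Or.inr (mem_filter.2 ⟨hx1, ?_⟩))
        have := hYR x hx1
        exact ⟨mem_inter.2 ⟨this.1, q.1⟩, mem_inter.2 ⟨this.2.1, q.2.1⟩,
          mem_inter.2 ⟨this.2.2, q.2.2⟩⟩
      · exact mem_union.2 (Or.inl (mem_filter.2 ⟨mem_filter.2 ⟨hx1, q⟩, hx2⟩))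
    have h9 : (tin Y (R ∩ Λ)).card ≤ C ^ 3 :=
      (tin_card _ _).trans (Nat.pow_le_pow_left hRΛ 3)
    have h10 : (tin Y (st P g)).card ≤ (tin Y1 (st P g)).card + C ^ 3 :=
      (card_le_card h8).trans ((card_union_le _ _).trans (Nat.add_le_add_left h9 _))
    have h11 : ((tin Y (st P g)).card : ℝ) ≤ ((tin Y1 (st P g)).card : ℝ) + (C : ℝ) ^ 3 := by
      exact_mod_cast h10
    linarith
  have h8 : ∀ w ∈ 𝒲, ∑ g ∈ Gd w, ((tin Y (st P g)).card : ℝ) ≤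
      3 * n ^ 2 * (e / (L + 1) * n ^ 2) + (2 * κ / δ ^ 2 * n) * (C : ℝ) ^ 3 := by
    intro w hw
    calc ∑ g ∈ Gd w, ((tin Y (st P g)).card : ℝ)
        ≤ ∑ g ∈ Gd w, (3 * n ^ 2 * ((bad P Λ g).card : ℝ) + (C : ℝ) ^ 3) :=
          sum_le_sum fun g _ => h6 g
      _ = 3 * n ^ 2 * ∑ g ∈ Gd w, ((bad P Λ g).card : ℝ) + (Gd w).card * (C : ℝ) ^ 3 := by
          rw [sum_add_distrib, ← mul_sum, sum_const, nsmul_eq_mul]
      _ ≤ _ := by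
          apply add_le_add
          · exact mul_le_mul_of_nonneg_left (hbadd w hw) (by positivity)
          · exact mul_le_mul_of_nonneg_right (hGd w) (by positivity)
  have h9 : ∑ w ∈ 𝒲, ∑ g ∈ Gd w, ((tin Y (st P g)).card : ℝ) ≤ 4 * e * n ^ 4 := by
    calc ∑ w ∈ 𝒲, ∑ g ∈ Gd w, ((tin Y (st P g)).card : ℝ)
        ≤ ∑ _w ∈ 𝒲, (3 * n ^ 2 * (e / (L + 1) * n ^ 2) + (2 * κ / δ ^ 2 * n) * (C : ℝ) ^ 3) :=
          sum_le_sum h8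
      _ = 𝒲.card * (3 * n ^ 2 * (e / (L + 1) * n ^ 2)) +
          𝒲.card * ((2 * κ / δ ^ 2 * n) * (C : ℝ) ^ 3) := by
          rw [sum_const, nsmul_eq_mul, mul_add]
      _ ≤ (L + 1) * (3 * n ^ 2 * (e / (L + 1) * n ^ 2)) +
          L * ((2 * κ / δ ^ 2 * n) * (C : ℝ) ^ 3) := by
          apply add_le_add
          · apply mul_le_mul_of_nonneg_right _ (by positivity)
            linarith
          · exact mul_le_mul_of_nonneg_right hWL (by positivity)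
      _ ≤ 3 * e * n ^ 4 + e * n ^ 4 := by
          apply add_le_add
          · apply le_of_eq; field_simp
          · have e1 : L * ((2 * κ / δ ^ 2 * n) * (C : ℝ) ^ 3) =
                (2 * L * κ * (C : ℝ) ^ 3) * n / δ ^ 2 := by ring
            rw [e1, div_le_iff₀ (by positivity)]
            have e3 : n ^ 2 ≤ n ^ 4 := pow_le_pow_right₀ hn1 (by norm_num)
            calc (2 * L * κ * (C : ℝ) ^ 3) * n ≤ (δ ^ 2 * e * n) * n :=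
                  mul_le_mul_of_nonneg_right hnL hn0.le
              _ = (δ ^ 2 * e) * n ^ 2 := by ring
              _ ≤ (δ ^ 2 * e) * n ^ 4 := mul_le_mul_of_nonneg_left e3 (by positivity)
              _ = e * n ^ 4 * δ ^ 2 := by ring
      _ = 4 * e * n ^ 4 := by ring
  refine h7.trans ?_
  linarith

open Classical in
/-- the decomposition of the isometries and of the points -/
theorem decomp (hPBD : Stmt_PBD) (hSEL : Stmt_SEL) (hCEN : Stmt_CEN) (hDIR : Stmt_DIR)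
    (hRLC : Stmt_RLC) (hEX : Stmt_EX) (hUP : BK.Stmt_UP) (k : ℕ) {e : ℝ} (he : 0 < e) :
    ∃ C n₀ : ℕ, ∀ P : Finset ℂ, DB P k → n₀ ≤ P.card →
      ∃ R Λ : Finset ℂ, R ⊆ P ∧ Λ ⊆ P ∧ (R ∩ Λ).card ≤ C ∧ Cov Λ C ∧
        (∀ X ⊆ E3.T3 P, (∀ x ∈ X, ¬ (x.1 ∈ R ∧ x.2.1 ∈ R ∧ x.2.2 ∈ R)) →
          (∀ x ∈ X, ¬ (x.1 ∈ Λ ∧ x.2.1 ∈ Λ ∧ x.2.2 ∈ Λ)) →
          ∃ S : ℝ, (X.card : ℝ) ^ 2 ≤ 6 * (TC P).card * S ∧ S ≤ 8 * e * (P.card : ℝ) ^ 4) ∧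
        (∀ Y ⊆ E3.T3 P, (∀ x ∈ Y, x.1 ∈ R ∧ x.2.1 ∈ R ∧ x.2.2 ∈ R) →
          ∀ x : ℝ, 0 ≤ x → x ≤ 1 → (∀ (c : ℂ) (ρ : ℝ), 0 < ρ →
            ((P.filter (fun p => dist p c = ρ)).card : ℝ) ≤ x * P.card) →
          ∃ S : ℝ, (Y.card : ℝ) ^ 2 ≤ 6 * (TC P).card * S ∧
            S ≤ (2 * x + 7 * e) * (P.card : ℝ) ^ 4) := by
  obtain ⟨κ, hκ⟩ : ∃ κ : ℝ, κ = 4 * (k + 1) := ⟨_, rfl⟩
  have hκ0 : 0 < κ := by rw [hκ]; positivity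
  obtain ⟨δ, hδ⟩ : ∃ δ : ℝ, δ = e / (2 * κ) := ⟨_, rfl⟩
  have hδ0 : 0 < δ := by rw [hδ]; positivity
  obtain ⟨L, n₁, h1⟩ := hSEL κ δ e hκ0 hδ0 he
  obtain ⟨β₁, n₂, hβ₁, h2⟩ := hCEN L δ e hδ0 he
  obtain ⟨β₂, n₃, hβ₂, h3⟩ := hDIR k δ (e / (L + 1)) hδ0 (by positivity)
  obtain ⟨β, hβ⟩ : ∃ β : ℝ, β = min β₁ β₂ := ⟨_, rfl⟩
  have hβ0 : 0 < β := by rw [hβ]; exact lt_min hβ₁ hβ₂
  have hβ1 : β ≤ β₁ := by rw [hβ]; exact min_le_left _ _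
  have hβ2 : β ≤ β₂ := by rw [hβ]; exact min_le_right _ _
  obtain ⟨C, n₄, h4⟩ := hRLC β L hβ0
  obtain ⟨n₅, h5⟩ := hUP L δ e hδ0 he
  obtain ⟨n₆, hn₆⟩ := exists_nat_ge (2 / δ + 2 * L * κ * C ^ 3 / (δ ^ 2 * e) + 1)
  refine ⟨C, n₁ + n₂ + n₃ + n₄ + n₅ + n₆, ?_⟩
  intro P hDB hP
  have hPB : PB P κ := by
    have := hPBD P k hDB
    rw [hκ]; exact this
  obtain ⟨n, hn⟩ : ∃ n : ℝ, n = (P.card : ℝ) := ⟨_, rfl⟩
  have hnn : 2 / δ + 2 * L * κ * C ^ 3 / (δ ^ 2 * e) + 1 ≤ n := by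
    refine hn₆.trans ?_
    rw [hn]; exact_mod_cast (by omega : n₆ ≤ P.card)
  have t1 : 0 ≤ 2 / δ := by positivity
  have t4 : 0 ≤ 2 * L * κ * C ^ 3 / (δ ^ 2 * e) := by positivity
  have hn1 : 1 ≤ n := by linarith
  have hnδ : 2 ≤ δ * n := by
    have : 2 / δ ≤ n := by linarith
    rw [div_le_iff₀ hδ0] at this
    linarith
  have hnL : 2 * L * κ * (C : ℝ) ^ 3 ≤ δ ^ 2 * e * n := by
    have : 2 * L * κ * C ^ 3 / (δ ^ 2 * e) ≤ n := by linarith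
    rw [div_le_iff₀ (by positivity)] at this
    linarith
  obtain ⟨𝒢, hiso, hr2, hCS⟩ := hEX P
  -- the parts of 𝒢
  obtain ⟨Tl, hTl⟩ : ∃ Tl : Finset Gp, ∀ g, g ∈ Tl ↔ g ∈ 𝒢 ∧ ¬ δ * P.card ≤ ((st P g).card : ℝ) :=
    ⟨𝒢.filter (fun g => ¬ δ * P.card ≤ ((st P g).card : ℝ)), fun g => mem_filter⟩
  obtain ⟨B, hB⟩ : ∃ B : Finset Gp, ∀ g, g ∈ B ↔ g ∈ 𝒢 ∧ δ * P.card ≤ ((st P g).card : ℝ) :=
    ⟨𝒢.filter (fun g => δ * P.card ≤ ((st P g).card : ℝ)), fun g => mem_filter⟩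
  have hBiso : ∀ g ∈ B, IsIso g := fun g hg => hiso g ((hB g).1 hg).1
  have hBr : ∀ g ∈ B, δ * P.card ≤ ((st P g).card : ℝ) := fun g hg => ((hB g).1 hg).2
  obtain ⟨𝒬, 𝒲, hQ, hW, hWiso, hUn⟩ := h1 P hPB (by omega) B hBiso hBr
  obtain ⟨Un, hUn1, hUnc⟩ : ∃ Un : Finset Gp, (∀ g, g ∈ B → (∀ z ∈ 𝒬, g z.1 ≠ z.2) →
      (∀ h ∈ 𝒲, ¬ IsTr (g * h⁻¹)) → g ∈ Un) ∧ (Un.card : ℝ) ≤ e * n := by
    have aux : ∀ U : Finset Gp, ((U.card : ℝ) ≤ e * P.card) →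
        (∀ g, (g ∈ B ∧ (∀ z ∈ 𝒬, g z.1 ≠ z.2) ∧ ∀ h ∈ 𝒲, ¬ IsTr (g * h⁻¹)) → g ∈ U) →
        ∃ Un : Finset Gp, (∀ g, g ∈ B → (∀ z ∈ 𝒬, g z.1 ≠ z.2) →
          (∀ h ∈ 𝒲, ¬ IsTr (g * h⁻¹)) → g ∈ Un) ∧ (Un.card : ℝ) ≤ e * n :=
      fun U h1 h2 => ⟨U, fun g a b c => h2 g ⟨a, b, c⟩, by rw [hn]; exact h1⟩
    exact aux _ hUn (fun g hg => by simp only [Finset.mem_filter]; exact hg)
  obtain ⟨Gc, hGc⟩ : ∃ Gc : Finset Gp, ∀ g, g ∈ Gc ↔ g ∈ B ∧ ∃ z ∈ 𝒬, g z.1 = z.2 :=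
    ⟨B.filter (fun g => ∃ z ∈ 𝒬, g z.1 = z.2), fun g => mem_filter⟩
  obtain ⟨Gd, hGd⟩ : ∃ Gd : Gp → Finset Gp, ∀ h g, g ∈ Gd h ↔ g ∈ B ∧ IsTr (g * h⁻¹) :=
    ⟨fun h => B.filter (fun g => IsTr (g * h⁻¹)), fun h g => mem_filter⟩
  have hcov : ∀ g ∈ 𝒢, g ∈ Tl ∨ g ∈ Un ∨ g ∈ Gc ∨ ∃ w ∈ 𝒲, g ∈ Gd w := by
    intro g hg
    by_cases hgr : δ * P.card ≤ ((st P g).card : ℝ)
    · right
      have hgB : g ∈ B := (hB g).2 ⟨hg, hgr⟩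
      by_cases hz : ∃ z ∈ 𝒬, g z.1 = z.2
      · exact Or.inr (Or.inl ((hGc g).2 ⟨hgB, hz⟩))
      · by_cases hw : ∃ w ∈ 𝒲, IsTr (g * w⁻¹)
        · obtain ⟨w, hw1, hw2⟩ := hw
          exact Or.inr (Or.inr ⟨w, hw1, (hGd w g).2 ⟨hgB, hw2⟩⟩)
        · push Not at hz hw
          exact Or.inl (hUn1 g hgB hz hw)
    · exact Or.inl ((hTl g).2 ⟨hg, hgr⟩)
  obtain ⟨hRΛ, hΛcov⟩ := h4 P 𝒬 (by omega) hQ
  have hbadc : ∑ g ∈ Gc, ((bad P (Rr P β 𝒬) g).card : ℝ) ≤ e * n ^ 2 := by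
    rw [hn]
    refine h2 P β hβ0 hβ1 (by omega) 𝒬 Gc hQ ?_ ?_
    · intro g hg
      obtain ⟨h6, h7⟩ := (hGc g).1 hg
      exact ⟨hBiso g h6, h7⟩
    · intro g hg
      exact hBr g ((hGc g).1 hg).1
  have hbadd : ∀ w ∈ 𝒲, ∑ g ∈ Gd w, ((bad P (Lam P β) g).card : ℝ) ≤ e / (L + 1) * n ^ 2 := by
    intro w hw
    rw [hn]
    refine h3 P β hβ0 hβ2 hDB (by omega) w (Gd w) (hWiso w hw) ?_ ?_
    · intro g hg
      obtain ⟨h6, h7⟩ := (hGd w g).1 hg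
      exact ⟨hBiso g h6, h7⟩
    · intro g hg
      exact hBr g ((hGd w g).1 hg).1
  -- general bounds
  have htinr : ∀ (X : Finset (ℂ × ℂ × ℂ)) (g : Gp),
      ((tin X (st P g)).card : ℝ) ≤ ((st P g).card : ℝ) ^ 3 := by
    intro X g
    exact_mod_cast tin_card X (st P g)
  have hrn : ∀ g : Gp, ((st P g).card : ℝ) ≤ n := by
    intro g
    rw [hn]; exact_mod_cast card_filter_le _ _
  have hTail : ∀ X : Finset (ℂ × ℂ × ℂ), ∑ g ∈ Tl, ((tin X (st P g)).card : ℝ) ≤ e * n ^ 4 := by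
    intro X
    refine (sum_le_sum fun g _ => htinr X g).trans ?_
    have h6 := tail (Tl := Tl) hδ0.le hPB
      (fun g hg => hiso g ((hTl g).1 hg).1) (fun g hg => hr2 g ((hTl g).1 hg).1)
      (fun g hg => (not_le.1 ((hTl g).1 hg).2).le)
    refine h6.trans (le_of_eq ?_)
    rw [← hn]
    have : 2 * δ * κ = e := by rw [hδ]; field_simp
    rw [this]
  have hUnX : ∀ X : Finset (ℂ × ℂ × ℂ), ∑ g ∈ Un, ((tin X (st P g)).card : ℝ) ≤ e * n ^ 4 := by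
    intro X
    calc ∑ g ∈ Un, ((tin X (st P g)).card : ℝ) ≤ ∑ _g ∈ Un, n ^ 3 :=
          sum_le_sum fun g _ => (htinr X g).trans (pow_le_pow_left₀ (Nat.cast_nonneg _) (hrn g) 3)
      _ = Un.card * n ^ 3 := by rw [sum_const, nsmul_eq_mul]
      _ ≤ (e * n) * n ^ 3 := mul_le_mul_of_nonneg_right hUnc (by positivity)
      _ = e * n ^ 4 := by ring
  have hBc : (B.card : ℝ) ≤ 2 * κ / δ ^ 2 * n := by
    rw [hn]
    exact rich_card hδ0 hPB hBiso hBr (by rw [← hn]; exact hnδ)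
  have hGdc : ∀ w, ((Gd w).card : ℝ) ≤ 2 * κ / δ ^ 2 * n := by
    intro w
    refine le_trans ?_ hBc
    exact_mod_cast card_le_card (fun g hg => ((hGd w g).1 hg).1)
  have hWL : (𝒲.card : ℝ) ≤ L := by exact_mod_cast hW
  refine ⟨Rr P β 𝒬, Lam P β, filter_subset _ _, filter_subset _ _, hRΛ, hΛcov, ?_, ?_⟩
  · intro X hX hX1 hX2
    refine ⟨_, hCS X hX, ?_⟩
    rw [← hn]
    exact sumX he hn (by linarith) hcov hbadc hbadd hWL X (hTail X) (hUnX X) hX1 hX2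
  · intro Y hY hYR x hx0 hx1 hx
    refine ⟨_, hCS Y hY, ?_⟩
    rw [← hn]
    refine sumY he hκ0 hδ0 hn hn1 hcov hbadd hGdc hWL hnL hRΛ Y (hTail Y) (hUnX Y) ?_ hYR
    refine (sum_le_sum fun g _ => htinr Y g).trans ?_
    rw [hn]
    exact h5 P x (by omega) hx0 hx1 hx 𝒬 Gc hQ
      (fun g hg => hBiso g ((hGc g).1 hg).1) (fun g hg => hBr g ((hGc g).1 hg).1)
      (fun g hg => ((hGc g).1 hg).2)

end MIX

open Classical MIX in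
theorem stmt_MIX (hPBD : Stmt_PBD) (hSEL : Stmt_SEL) (hCEN : Stmt_CEN) (hDIR : Stmt_DIR)
    (hRLC : Stmt_RLC) (hEX : Stmt_EX) (hUP : BK.Stmt_UP) : Stmt_MIX := by
  intro k s hs hs1
  obtain ⟨a, ha⟩ : ∃ a : ℝ, a = s / 30 := ⟨_, rfl⟩
  have ha0 : 0 < a := by rw [ha]; positivity
  have ha1 : a ≤ 1 / 30 := by rw [ha]; linarith
  obtain ⟨e, he⟩ : ∃ e : ℝ, e = a ^ 2 := ⟨_, rfl⟩
  have he0 : 0 < e := by rw [he]; positivity
  obtain ⟨C, n₀, hdec⟩ := decomp hPBD hSEL hCEN hDIR hRLC hEX hUP k he0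
  obtain ⟨n₆, hn₆⟩ := exists_nat_ge (3 / a + C / a + 1)
  refine ⟨C, n₀ + n₆, ?_⟩
  intro P hDB hP hT6
  obtain ⟨R, Λ, hRP, hΛP, hRΛ, hΛcov, hSX, hSY⟩ := hdec P hDB (by omega)
  obtain ⟨n, hn⟩ : ∃ n : ℝ, n = (P.card : ℝ) := ⟨_, rfl⟩
  obtain ⟨T, hT⟩ : ∃ T : ℝ, T = ((TC P).card : ℝ) := ⟨_, rfl⟩
  have hT0 : 0 ≤ T := by rw [hT]; positivity
  rw [← hT, ← hn] at hT6
  have hnn : 3 / a + C / a + 1 ≤ n := by
    refine hn₆.trans ?_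
    rw [hn]; exact_mod_cast (by omega : n₆ ≤ P.card)
  have t2 : 0 ≤ 3 / a := by positivity
  have t3 : 0 ≤ C / a := by positivity
  have hn1 : 1 ≤ n := by linarith
  have hnpos : 0 < n := by linarith
  have hna : 3 ≤ a * n := by
    have : 3 / a ≤ n := by linarith
    rw [div_le_iff₀ ha0] at this
    linarith
  have hnC : C ≤ a * n := by
    have : C / a ≤ n := by linarith
    rw [div_le_iff₀ ha0] at this
    linarith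
  -- the triples which are not in R and not in Λ
  obtain ⟨X, hX⟩ : ∃ X : Finset (ℂ × ℂ × ℂ), ∀ x, x ∈ X ↔ x ∈ E3.T3 P ∧
      ¬ (x.1 ∈ R ∧ x.2.1 ∈ R ∧ x.2.2 ∈ R) ∧ ¬ (x.1 ∈ Λ ∧ x.2.1 ∈ Λ ∧ x.2.2 ∈ Λ) :=
    ⟨(E3.T3 P).filter (fun x => ¬ (x.1 ∈ R ∧ x.2.1 ∈ R ∧ x.2.2 ∈ R) ∧
      ¬ (x.1 ∈ Λ ∧ x.2.1 ∈ Λ ∧ x.2.2 ∈ Λ)), fun x => mem_filter⟩
  obtain ⟨SX, hSX1, hSX2⟩ := hSX X (fun x hx => ((hX x).1 hx).1)
    (fun x hx => ((hX x).1 hx).2.1) (fun x hx => ((hX x).1 hx).2.2)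
  rw [← hT] at hSX1
  rw [← hn] at hSX2
  have hXb : (X.card : ℝ) ≤ 3 * a * n ^ 3 := arith2 ha0 he hnpos hT0 hT6 hSX1 hSX2
  have hT3 : n ^ 3 - 3 * n ^ 2 ≤ ((E3.T3 P).card : ℝ) := by
    rw [E3.card_T3, ← hn]
    have : n * (n - 1) * (n - 2) = n ^ 3 - 3 * n ^ 2 + 2 * n := by ring
    rw [this]; linarith
  have hsplit3 : ((E3.T3 P).card : ℝ) ≤ X.card + (tin (E3.T3 P) R).card + (Λ.card : ℝ) ^ 3 := by
    have : E3.T3 P ⊆ (X ∪ tin (E3.T3 P) R) ∪ tin (E3.T3 P) Λ := by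
      intro x hx
      by_cases q1 : x.1 ∈ R ∧ x.2.1 ∈ R ∧ x.2.2 ∈ R
      · exact mem_union.2 (Or.inl (mem_union.2 (Or.inr (mem_filter.2 ⟨hx, q1⟩))))
      · by_cases q2 : x.1 ∈ Λ ∧ x.2.1 ∈ Λ ∧ x.2.2 ∈ Λ
        · exact mem_union.2 (Or.inr (mem_filter.2 ⟨hx, q2⟩))
        · exact mem_union.2 (Or.inl (mem_union.2 (Or.inl ((hX x).2 ⟨hx, q1, q2⟩))))
    have h6 := (card_le_card this).trans (card_union_le _ _)
    have h7 := card_union_le X (tin (E3.T3 P) R)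
    have h9 := tin_card (E3.T3 P) Λ
    have h8 : (E3.T3 P).card ≤ X.card + (tin (E3.T3 P) R).card + Λ.card ^ 3 := by
      omega
    exact_mod_cast h8
  have hR3 : ((tin (E3.T3 P) R).card : ℝ) ≤ (R.card : ℝ) ^ 3 := by exact_mod_cast tin_card _ _
  have hrl : (R.card : ℝ) + Λ.card ≤ n + C := by
    have h6 : R.card + Λ.card = (R ∪ Λ).card + (R ∩ Λ).card := (card_union_add_card_inter _ _).symm
    have h7 : (R ∪ Λ).card ≤ P.card := card_le_card (union_subset hRP hΛP)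
    have h8 : R.card + Λ.card ≤ P.card + C := by omega
    rw [hn]; exact_mod_cast h8
  by_cases hbig : (1 - s) * P.card ≤ (Λ.card : ℝ)
  · right
    exact ⟨Λ, hΛP, hbig, hΛcov⟩
  left
  push Not at hbig
  have hs30 : s = 30 * a := by rw [ha]; ring
  rw [← hn, hs30] at hbig
  have hYlow := arith1 ha0 ha1 hnpos (Nat.cast_nonneg _) (Nat.cast_nonneg _) hna hnC hT3 hsplit3
    hR3 hXb hrl hbig
  have h6 := arith4 ha0 ha1 he hs30 hnpos hT0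
    (fun c ρ => ((P.filter (fun p => dist p c = ρ)).card : ℝ))
    (fun c ρ => Nat.cast_nonneg _) (fun c ρ => by rw [hn]; exact_mod_cast card_filter_le _ _) (by
      intro x hx0 hx1 hx
      obtain ⟨S, hS1, hS2⟩ := hSY (tin (E3.T3 P) R) (filter_subset _ _)
        (fun x hx => (mem_filter.1 hx).2) x hx0 hx1 (by rw [← hn]; exact hx)
      rw [← hT] at hS1
      rw [← hn] at hS2
      exact arith3 ha0 ha1 hnpos hT0 hYlow hS1 hS2)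
  rw [← hT, ← hn]
  exact h6

end Pool.BD
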