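import Pool.Agent.Work.MP_dc37f8_bd.Interface

/-!
# MP_dc37f8_co, block NONP (helper79): two lines which are not parallel
-/

set_option autoImplicit false
set_option maxHeartbeats 4000000

open Finset

namespace Pool.BD.NONP

open Pool.BK

/-- two lines which are not parallel have a common point -/
lemma common (p₁ v₁ p₂ v₂ : ℂ) (h1 : v₁ ≠ 0) (hnp : ¬ ∃ s : ℝ, v₂ = s * v₁) :
    ∃ s t : ℝ, p₁ + s * v₁ = p₂ + t * v₂ := by
  obtain ⟨z, hz⟩ : ∃ z : ℂ, z = v₂ / v₁ := ⟨_, rfl⟩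
  have hv2 : v₂ = z * v₁ := by rw [hz, div_mul_cancel₀ _ h1]
  have him : z.im ≠ 0 := by
    intro h
    apply hnp
    refine ⟨z.re, ?_⟩
    rw [hv2]
    congr 1
    apply Complex.ext
    · simp
    · simp [h]
  obtain ⟨e, he⟩ : ∃ e : ℂ, e = (p₂ - p₁) / v₁ := ⟨_, rfl⟩
  have hpe : p₂ - p₁ = e * v₁ := by rw [he, div_mul_cancel₀ _ h1]
  refine ⟨e.re + (-e.im / z.im) * z.re, -e.im / z.im, ?_⟩
  have key : (((e.re + (-e.im / z.im) * z.re : ℝ)) : ℂ) = e + ((-e.im / z.im : ℝ) : ℂ) * z := by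
    apply Complex.ext
    · simp
    · simp
      field_simp
      ring
  rw [key, hv2]
  linear_combination -hpe

/-- two lines which are not parallel have only one common point -/
lemma uniq (l' l'' : ℂ × ℂ) (hnp : ¬ ∃ s : ℝ, l''.2 = s * l'.2) (y y' : ℂ)
    (h1 : On l' y) (h2 : On l'' y) (h3 : On l' y') (h4 : On l'' y') : y = y' := by
  obtain ⟨a, ha⟩ := h1
  obtain ⟨b, hb⟩ := h2
  obtain ⟨a', ha'⟩ := h3
  obtain ⟨b', hb'⟩ := h4
  by_cases hbb : b = b'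
  · rw [hb, hb', hbb]
  · exfalso
    apply hnp
    refine ⟨(a - a') / (b - b'), ?_⟩
    have hne : ((b - b' : ℝ) : ℂ) ≠ 0 := by
      rw [Complex.ofReal_ne_zero]
      exact sub_ne_zero.mpr hbb
    rw [Complex.ofReal_div, div_mul_eq_mul_div, eq_div_iff hne]
    push_cast
    linear_combination ha - hb - ha' + hb'

/-- `g` maps the line `l` into the line `l'` -/
def Into (g : Gp) (l l' : ℂ × ℂ) : Prop := ∀ y, On l y → On l' (g y)

/-- two points of a line go to points of `l'`: the line goes to `l'` -/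
lemma into_of_two (g : Gp)
    (hlin : ∀ (p v : ℂ) (s : ℝ), g (p + s * v) = g p + s * (g v - g 0))
    (l l' : ℂ × ℂ) (y y' : ℂ) (hy : On l y) (hy' : On l y') (hne : y ≠ y')
    (h1 : On l' (g y)) (h2 : On l' (g y')) : Into g l l' := by
  obtain ⟨a, ha⟩ := hy
  obtain ⟨a', ha'⟩ := hy'
  obtain ⟨b, hb⟩ := h1
  obtain ⟨b', hb'⟩ := h2
  have haa : a' - a ≠ 0 := by
    intro h
    apply hne
    have : a' = a := by linarith
    rw [ha, ha', this]
  have hne' : ((a' - a : ℝ) : ℂ) ≠ 0 := by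
    rw [Complex.ofReal_ne_zero]; exact haa
  intro x hx
  obtain ⟨c, hc⟩ := hx
  have e1 : g y' = g y + ((a' - a : ℝ) : ℂ) * (g l.2 - g 0) := by
    rw [← hlin]
    congr 1
    push_cast
    linear_combination ha' - ha
  have e2 : g x = g y + ((c - a : ℝ) : ℂ) * (g l.2 - g 0) := by
    rw [← hlin]
    congr 1
    push_cast
    linear_combination hc - ha
  refine ⟨b + (c - a) * ((b' - b) / (a' - a)), ?_⟩
  have e3 : ((a' - a : ℝ) : ℂ) * (g l.2 - g 0) = ((b' - b : ℝ) : ℂ) * l'.2 := by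
    push_cast at e1 ⊢
    linear_combination hb' - hb - e1
  have e4 : g l.2 - g 0 = (((b' - b) / (a' - a) : ℝ) : ℂ) * l'.2 := by
    rw [Complex.ofReal_div, div_mul_eq_mul_div, eq_div_iff hne']
    linear_combination e3
  rw [e2, e4, hb]
  push_cast
  ring

open Classical in
/-- few points of a line which is not mapped to a line of `𝓛` stay in `P` -/
lemma few (P : Finset ℂ) (𝓛 : Finset (ℂ × ℂ)) (hcov : ∀ y ∈ P, ∃ l ∈ 𝓛, On l y) (g : Gp)
    (hlin : ∀ (p v : ℂ) (s : ℝ), g (p + s * v) = g p + s * (g v - g 0))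
    (l : ℂ × ℂ) (hno : ¬ ∃ l' ∈ 𝓛, Into g l l') :
    ((pts P l).filter (fun y => y ∈ st P g)).card ≤ 𝓛.card := by
  have hex : ∀ y : ℂ, ∃ l' : ℂ × ℂ, y ∈ P → l' ∈ 𝓛 ∧ On l' y := by
    intro y
    by_cases hy : y ∈ P
    · obtain ⟨l', h1, h2⟩ := hcov y hy
      exact ⟨l', fun _ => ⟨h1, h2⟩⟩
    · exact ⟨0, fun h => absurd h hy⟩
  choose φ hφ using hex
  have hmem : ∀ y ∈ (pts P l).filter (fun y => y ∈ st P g), On l y ∧ g y ∈ P := by
    intro y hy
    rw [Finset.mem_filter] at hy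
    unfold pts st at hy
    rw [Finset.mem_filter, Finset.mem_filter] at hy
    exact ⟨hy.1.2, hy.2.2⟩
  apply Finset.card_le_card_of_injOn (fun y => φ (g y))
  · intro y hy
    have h1 := hmem y (Finset.mem_coe.mp hy)
    exact Finset.mem_coe.mpr (hφ (g y) h1.2).1
  · intro y hy y' hy' he
    have h1 := hmem y (Finset.mem_coe.mp hy)
    have h2 := hmem y' (Finset.mem_coe.mp hy')
    by_contra hne
    apply hno
    have h3 := hφ (g y) h1.2
    have h4 := hφ (g y') h2.2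
    have he' : φ (g y) = φ (g y') := he
    rw [← he'] at h4
    exact ⟨φ (g y), h3.1, into_of_two g hlin l _ y y' h1.1 h2.1 hne h3.2 h4.2⟩

/-- the length of the image of a direction -/
lemma norm_dir (g : Gp) (hg : IsIso g) (v : ℂ) : ‖g v - g 0‖ = ‖v‖ := by
  rcases hg with ⟨w, t, hw, h⟩ | ⟨w, t, hw, h⟩
  · rw [h, h]
    have : w * v + t - (w * 0 + t) = w * v := by ring
    rw [this, norm_mul, hw, one_mul]
  · rw [h, h]
    have : w * (starRingEnd ℂ) v + t - (w * (starRingEnd ℂ) 0 + t) = w * (starRingEnd ℂ) v := by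
      rw [map_zero]; ring
    rw [this, norm_mul, hw, one_mul, RCLike.norm_conj]

open Classical in
/-- few isometries map two lines to two lines -/
lemma few_iso (hTWO : Pool.BK.Stmt_TWO)
    (hlin : ∀ f : Gp, IsIso f → ∀ (p v : ℂ) (s : ℝ), f (p + s * v) = f p + s * (f v - f 0))
    (l₁ l₂ l' l'' : ℂ × ℂ) (h1 : l₁.2 ≠ 0)
    (hnp : ¬ ∃ s : ℝ, l₂.2 = s * l₁.2) (S : Finset Gp)
    (hS : ∀ g ∈ S, IsIso g ∧ Into g l₁ l' ∧ Into g l₂ l'') : S.card ≤ 4 := by
  obtain ⟨a, b, hab⟩ := common l₁.1 l₁.2 l₂.1 l₂.2 h1 hnp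
  obtain ⟨o, ho⟩ : ∃ o : ℂ, o = l₁.1 + a * l₁.2 := ⟨_, rfl⟩
  have ho1 : On l₁ o := ⟨a, ho⟩
  have ho2 : On l₂ o := ⟨b, by rw [ho, hab]⟩
  have ho3 : On l₁ (o + l₁.2) := ⟨a + 1, by rw [ho]; push_cast; ring⟩
  have ho4 : On l₂ (o + l₂.2) := ⟨b + 1, by rw [ho, hab]; push_cast; ring⟩
  have hstep : ∀ g ∈ S, ∀ v : ℂ, g (o + v) = g o + (g v - g 0) := by
    intro g hg v
    have := hlin g (hS g hg).1 o v 1
    rw [Complex.ofReal_one, one_mul, one_mul] at this
    exact this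
  -- the direction of the image of `l₁`
  have hdir1 : ∀ g ∈ S, ∃ c : ℝ, g l₁.2 - g 0 = c * l'.2 := by
    intro g hg
    obtain ⟨x, hx⟩ := (hS g hg).2.1 o ho1
    obtain ⟨y, hy⟩ := (hS g hg).2.1 _ ho3
    refine ⟨y - x, ?_⟩
    have := hstep g hg l₁.2
    push_cast
    linear_combination hy - hx - this
  have hdir2 : ∀ g ∈ S, ∃ c : ℝ, g l₂.2 - g 0 = c * l''.2 := by
    intro g hg
    obtain ⟨x, hx⟩ := (hS g hg).2.2 o ho2
    obtain ⟨y, hy⟩ := (hS g hg).2.2 _ ho4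
    refine ⟨y - x, ?_⟩
    have := hstep g hg l₂.2
    push_cast
    linear_combination hy - hx - this
  rcases S.eq_empty_or_nonempty with hSe | ⟨g₀, hg₀⟩
  · rw [hSe]; simp
  have hnz : g₀ l₁.2 - g₀ 0 ≠ 0 := by
    intro h
    have h2 := norm_dir g₀ (hS g₀ hg₀).1 l₁.2
    rw [h, norm_zero] at h2
    exact h1 (norm_eq_zero.mp h2.symm)
  have hl'0 : l'.2 ≠ 0 := by
    intro h
    obtain ⟨c, hc⟩ := hdir1 g₀ hg₀
    rw [h, mul_zero] at hc
    exact hnz hc
  have hnp' : ¬ ∃ s : ℝ, l''.2 = s * l'.2 := by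
    rintro ⟨s, hs⟩
    obtain ⟨c, hc⟩ := hdir1 g₀ hg₀
    obtain ⟨d, hd⟩ := hdir2 g₀ hg₀
    have hc0 : (c : ℂ) ≠ 0 := by
      intro h
      rw [h, zero_mul] at hc
      exact hnz hc
    apply hnp
    refine ⟨d * s / c, ?_⟩
    have e1 : g₀ l₂.2 - g₀ 0 = ((d * s / c : ℝ) : ℂ) * (g₀ l₁.2 - g₀ 0) := by
      rw [hd, hc, hs]
      push_cast
      field_simp
    have e2 : g₀ (0 + ((d * s / c : ℝ) : ℂ) * l₁.2) =
        g₀ 0 + ((d * s / c : ℝ) : ℂ) * (g₀ l₁.2 - g₀ 0) := hlin g₀ (hS g₀ hg₀).1 0 l₁.2 _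
    rw [← e1, zero_add] at e2
    have e3 : g₀ (((d * s / c : ℝ) : ℂ) * l₁.2) = g₀ l₂.2 := by rw [e2]; ring
    exact (g₀.injective e3).symm
  -- all images of `o` are the same
  have hoo : ∀ g ∈ S, g o = g₀ o := by
    intro g hg
    exact uniq l' l'' hnp' _ _ ((hS g hg).2.1 o ho1) ((hS g hg).2.2 o ho2)
      ((hS g₀ hg₀).2.1 o ho1) ((hS g₀ hg₀).2.2 o ho2)
  -- two possible images of `o + v`
  have hl'n : (0 : ℝ) < ‖l'.2‖ := norm_pos_iff.mpr hl'0
  have htwo : ∀ g ∈ S, g (o + l₁.2) ∈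
      ({g₀ o + ((‖l₁.2‖ / ‖l'.2‖ : ℝ) : ℂ) * l'.2,
        g₀ o + ((-(‖l₁.2‖ / ‖l'.2‖) : ℝ) : ℂ) * l'.2} : Finset ℂ) := by
    intro g hg
    obtain ⟨c, hc⟩ := hdir1 g hg
    have hn := norm_dir g (hS g hg).1 l₁.2
    rw [hc, norm_mul, Complex.norm_real, Real.norm_eq_abs] at hn
    have hc2 : |c| = ‖l₁.2‖ / ‖l'.2‖ := by
      rw [eq_div_iff hl'n.ne']; exact hn
    rw [hstep g hg, hc, hoo g hg, Finset.mem_insert, Finset.mem_singleton]
    rcases abs_choice c with h | h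
    · left; rw [← hc2, h]
    · right; rw [← hc2, h, neg_neg]
  have hcard := Finset.card_le_mul_card_image_of_maps_to (s := S)
    (t := ({g₀ o + ((‖l₁.2‖ / ‖l'.2‖ : ℝ) : ℂ) * l'.2,
        g₀ o + ((-(‖l₁.2‖ / ‖l'.2‖) : ℝ) : ℂ) * l'.2} : Finset ℂ))
    (f := fun g : Gp => g (o + l₁.2)) htwo 2 (by
      intro d _
      apply hTWO o (o + l₁.2) (g₀ o) d
      · intro h
        apply h1
        linear_combination -h
      · intro g hg
        rw [Finset.mem_filter] at hg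
        exact ⟨(hS g hg.1).1, hoo g hg.1, hg.2⟩)
  refine hcard.trans ?_
  have : ({g₀ o + ((‖l₁.2‖ / ‖l'.2‖ : ℝ) : ℂ) * l'.2,
        g₀ o + ((-(‖l₁.2‖ / ‖l'.2‖) : ℝ) : ℂ) * l'.2} : Finset ℂ).card ≤ 2 :=
    Finset.card_le_two
  omega

open Classical in
/-- the triples -/
noncomputable def XX (P : Finset ℂ) (l₁ l₂ : ℂ × ℂ) : Finset (ℂ × ℂ × ℂ) :=
  (E3.T3 P).filter (fun x => x.1 ∈ pts P l₁ ∧ x.2.1 ∈ pts P l₂)

open Classical in
lemma card_XX (P : Finset ℂ) (l₁ l₂ : ℂ × ℂ) (hnp : ¬ ∃ s : ℝ, l₂.2 = s * l₁.2)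
    (hn : 4 ≤ P.card) :
    (((pts P l₁).card : ℝ) * (pts P l₂).card - 1) * ((P.card : ℝ) - 2) ≤
      ((XX P l₁ l₂).card : ℝ) := by
  obtain ⟨W, hW⟩ : ∃ W : Finset (ℂ × ℂ), W = ((pts P l₁) ×ˢ (pts P l₂)).filter
    (fun z => z.1 ≠ z.2) := ⟨_, rfl⟩
  have hsubP : ∀ l : ℂ × ℂ, pts P l ⊆ P := fun l => by unfold pts; exact Finset.filter_subset _ _
  have hon : ∀ (l : ℂ × ℂ) (y : ℂ), y ∈ pts P l → On l y := by
    intro l y hy
    unfold pts at hy
    exact (Finset.mem_filter.mp hy).2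
  have hW1 : ((pts P l₁).card : ℝ) * (pts P l₂).card - 1 ≤ (W.card : ℝ) := by
    have h1 : (pts P l₁) ×ˢ (pts P l₂) ⊆
        (((pts P l₁) ×ˢ (pts P l₂)).filter (fun z : ℂ × ℂ => z.1 = z.2)) ∪ W := by
      intro z hz
      rw [Finset.mem_union, hW, Finset.mem_filter, Finset.mem_filter]
      by_cases h : z.1 = z.2
      · exact Or.inl ⟨hz, h⟩
      · exact Or.inr ⟨hz, h⟩
    have h2 : (((pts P l₁) ×ˢ (pts P l₂)).filter (fun z : ℂ × ℂ => z.1 = z.2)).card ≤ 1 := by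
      rw [Finset.card_le_one]
      intro z hz w hw
      rw [Finset.mem_filter, Finset.mem_product] at hz hw
      have h3 : z.1 = w.1 := by
        apply uniq l₁ l₂ hnp
        · exact hon _ _ hz.1.1
        · rw [hz.2]; exact hon _ _ hz.1.2
        · exact hon _ _ hw.1.1
        · rw [hw.2]; exact hon _ _ hw.1.2
      exact Prod.ext h3 (by rw [← hz.2, ← hw.2, h3])
    have h3 : (pts P l₁).card * (pts P l₂).card ≤ 1 + W.card := by
      have h4 := (Finset.card_le_card h1).trans (Finset.card_union_le _ _)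
      rw [Finset.card_product] at h4
      omega
    have h4 : (((pts P l₁).card * (pts P l₂).card : ℕ) : ℝ) ≤ ((1 + W.card : ℕ) : ℝ) := by
      exact_mod_cast h3
    push_cast at h4
    linarith
  have hmul : (P.card - 2) * W.card ≤ (XX P l₁ l₂).card := by
    apply Finset.mul_card_image_le_card_of_maps_to (f := fun x : ℂ × ℂ × ℂ => (x.1, x.2.1))
    · intro x hx
      unfold XX at hx
      rw [Finset.mem_filter, E3.mem_T3] at hx
      rw [hW, Finset.mem_filter, Finset.mem_product]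
      exact ⟨⟨hx.2.1, hx.2.2⟩, hx.1.2.1⟩
    · intro z hz
      rw [hW, Finset.mem_filter, Finset.mem_product] at hz
      have h1 : (((P.erase z.1).erase z.2).image (fun c => (z.1, z.2, c))).card = P.card - 2 := by
        rw [Finset.card_image_of_injective _ (fun c d h => by simpa using h)]
        have h2 : z.2 ∈ P.erase z.1 := Finset.mem_erase.mpr ⟨hz.2.symm, hsubP _ hz.1.2⟩
        have h3 : z.1 ∈ P := hsubP _ hz.1.1
        rw [Finset.card_erase_of_mem h2, Finset.card_erase_of_mem h3]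
        omega
      rw [← h1]
      apply Finset.card_le_card
      intro x hx
      obtain ⟨c, hc, rfl⟩ := Finset.mem_image.mp hx
      rw [Finset.mem_erase, Finset.mem_erase] at hc
      unfold XX
      rw [Finset.mem_filter, Finset.mem_filter, E3.mem_T3]
      exact ⟨⟨⟨⟨hsubP _ hz.1.1, hsubP _ hz.1.2, hc.2.2⟩, hz.2, hc.1.symm, hc.2.1.symm⟩,
        hz.1.1, hz.1.2⟩, rfl⟩
  have h5 : (((P.card - 2) * W.card : ℕ) : ℝ) ≤ ((XX P l₁ l₂).card : ℝ) := by exact_mod_cast hmul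
  rw [Nat.cast_mul, Nat.cast_sub (by omega)] at h5
  push_cast at h5
  have h6 : (0 : ℝ) ≤ (P.card : ℝ) - 2 := by
    have : (4 : ℝ) ≤ (P.card : ℝ) := by exact_mod_cast hn
    linarith
  have h7 := mul_le_mul_of_nonneg_right hW1 h6
  linarith

end Pool.BD.NONP

namespace Pool.BD

open Pool.BK NONP

theorem stmt_NONP (hEX : Stmt_EX) (hPBD : Stmt_PBD) (hCOVDB : Stmt_COVDB)
    (hTWO : Pool.BK.Stmt_TWO) (hISO : Stmt_ISO) : Stmt_NONP := by
  classical
  obtain ⟨-, -, -, -, -, -, -, hlin, -, -⟩ := hISO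
  intro m
  refine ⟨24 * (8 * m * (m + 1) + 4 * m ^ 2) + 1, by positivity, ?_⟩
  intro P 𝓛 hm hne hcov hn l₁ hl₁ l₂ hl₂ hnp hpos
  obtain ⟨𝒢, hiso, hr2, hcs⟩ := hEX P
  have hDB : DB P m := hCOVDB P m ⟨𝓛, hm, hne, hcov⟩
  have hPB := hPBD P m hDB 𝒢 hiso
  have hX := hcs (XX P l₁ l₂) (by unfold XX; exact Finset.filter_subset _ _)
  obtain ⟨n, hnn⟩ : ∃ n : ℝ, n = (P.card : ℝ) := ⟨_, rfl⟩
  obtain ⟨T, hT⟩ : ∃ T : ℝ, T = ((TC P).card : ℝ) := ⟨_, rfl⟩
  have hT0 : 0 ≤ T := by rw [hT]; positivity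
  have hn4 : 4 ≤ n := by rw [hnn]; exact_mod_cast hn
  have hmr : (𝓛.card : ℝ) ≤ m := by exact_mod_cast hm
  -- the isometries which map `l₁` and `l₂` to lines of `𝓛`
  obtain ⟨S, hS⟩ : ∃ S : Finset Gp, S = 𝒢.filter
    (fun g => (∃ l' ∈ 𝓛, Into g l₁ l') ∧ (∃ l'' ∈ 𝓛, Into g l₂ l'')) := ⟨_, rfl⟩
  have hScard : (S.card : ℝ) ≤ 4 * m ^ 2 := by
    have h1 : S ⊆ (𝓛 ×ˢ 𝓛).biUnion (fun z => 𝒢.filter (fun g => Into g l₁ z.1 ∧ Into g l₂ z.2)) := by
      intro g hg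
      rw [hS, Finset.mem_filter] at hg
      obtain ⟨hg, ⟨l', hl', h1⟩, ⟨l'', hl'', h2⟩⟩ := hg
      rw [Finset.mem_biUnion]
      exact ⟨(l', l''), Finset.mem_product.mpr ⟨hl', hl''⟩, Finset.mem_filter.mpr ⟨hg, h1, h2⟩⟩
    have h2 : S.card ≤ (𝓛 ×ˢ 𝓛).card * 4 := by
      refine (Finset.card_le_card h1).trans (Finset.card_biUnion_le_card_mul _ _ _ ?_)
      intro z _
      apply few_iso hTWO hlin l₁ l₂ z.1 z.2 (hne l₁ hl₁) hnp
      intro g hg
      rw [Finset.mem_filter] at hg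
      exact ⟨hiso g hg.1, hg.2.1, hg.2.2⟩
    rw [Finset.card_product] at h2
    have h3 : (S.card : ℝ) ≤ ((𝓛.card * 𝓛.card * 4 : ℕ) : ℝ) := by exact_mod_cast h2
    push_cast at h3
    have h4 : (𝓛.card : ℝ) * 𝓛.card ≤ m * m := mul_le_mul hmr hmr (by positivity) (by positivity)
    nlinarith
  -- the bound for one isometry
  have hone : ∀ g ∈ 𝒢, ((((XX P l₁ l₂).filter (fun x => x.1 ∈ st P g ∧ x.2.1 ∈ st P g ∧
      x.2.2 ∈ st P g)).card : ℕ) : ℝ) ≤ m * ((st P g).card : ℝ) ^ 2 +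
        (if g ∈ S then n ^ 3 else 0) := by
    intro g hg
    by_cases hgS : g ∈ S
    · rw [if_pos hgS]
      have h1 : ((XX P l₁ l₂).filter (fun x => x.1 ∈ st P g ∧ x.2.1 ∈ st P g ∧
          x.2.2 ∈ st P g)) ⊆ P ×ˢ P ×ˢ P := by
        intro x hx
        rw [Finset.mem_filter] at hx
        have h2 := hx.1
        unfold XX at h2
        rw [Finset.mem_filter, E3.mem_T3] at h2
        rw [Finset.mem_product, Finset.mem_product]
        exact h2.1.1
      have h2 := Finset.card_le_card h1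
      rw [Finset.card_product, Finset.card_product] at h2
      have h3 : ((((XX P l₁ l₂).filter (fun x => x.1 ∈ st P g ∧ x.2.1 ∈ st P g ∧
          x.2.2 ∈ st P g)).card : ℕ) : ℝ) ≤ ((P.card * (P.card * P.card) : ℕ) : ℝ) := by
        exact_mod_cast h2
      push_cast at h3
      rw [← hnn] at h3
      have h4 : (0 : ℝ) ≤ m * ((st P g).card : ℝ) ^ 2 := by positivity
      have h5 : n ^ 3 = n * (n * n) := by ring
      rw [h5]
      linarith
    · rw [if_neg hgS, add_zero]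
      have hlg := hlin g (hiso g hg)
      by_cases hA : ∃ l' ∈ 𝓛, Into g l₁ l'
      · have hB : ¬ ∃ l'' ∈ 𝓛, Into g l₂ l'' := by
          intro hB
          apply hgS
          rw [hS, Finset.mem_filter]
          exact ⟨hg, hA, hB⟩
        have h0 := few P 𝓛 hcov g hlg l₂ hB
        have h1 : ((XX P l₁ l₂).filter (fun x => x.1 ∈ st P g ∧ x.2.1 ∈ st P g ∧
            x.2.2 ∈ st P g)) ⊆ st P g ×ˢ ((pts P l₂).filter (fun y => y ∈ st P g)) ×ˢ st P g := by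
          intro x hx
          rw [Finset.mem_filter] at hx
          obtain ⟨h2, h3, h4, h5⟩ := hx
          unfold XX at h2
          rw [Finset.mem_filter] at h2
          rw [Finset.mem_product, Finset.mem_product, Finset.mem_filter]
          exact ⟨h3, ⟨h2.2.2, h4⟩, h5⟩
        have h2 := Finset.card_le_card h1
        rw [Finset.card_product, Finset.card_product] at h2
        have h3 : ((XX P l₁ l₂).filter (fun x => x.1 ∈ st P g ∧ x.2.1 ∈ st P g ∧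
            x.2.2 ∈ st P g)).card ≤ (st P g).card * (m * (st P g).card) :=
          h2.trans (Nat.mul_le_mul_left _ (Nat.mul_le_mul_right _ (h0.trans hm)))
        have h4 : ((((XX P l₁ l₂).filter (fun x => x.1 ∈ st P g ∧ x.2.1 ∈ st P g ∧
            x.2.2 ∈ st P g)).card : ℕ) : ℝ) ≤ (((st P g).card * (m * (st P g).card) : ℕ) : ℝ) := by
          exact_mod_cast h3
        push_cast at h4
        refine h4.trans (le_of_eq ?_)
        ring
      · have h0 := few P 𝓛 hcov g hlg l₁ hA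
        have h1 : ((XX P l₁ l₂).filter (fun x => x.1 ∈ st P g ∧ x.2.1 ∈ st P g ∧
            x.2.2 ∈ st P g)) ⊆ ((pts P l₁).filter (fun y => y ∈ st P g)) ×ˢ st P g ×ˢ st P g := by
          intro x hx
          rw [Finset.mem_filter] at hx
          obtain ⟨h2, h3, h4, h5⟩ := hx
          unfold XX at h2
          rw [Finset.mem_filter] at h2
          rw [Finset.mem_product, Finset.mem_product, Finset.mem_filter]
          exact ⟨⟨h2.2.1, h3⟩, h4, h5⟩
        have h2 := Finset.card_le_card h1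
        rw [Finset.card_product, Finset.card_product] at h2
        have h3 : ((XX P l₁ l₂).filter (fun x => x.1 ∈ st P g ∧ x.2.1 ∈ st P g ∧
            x.2.2 ∈ st P g)).card ≤ m * ((st P g).card * (st P g).card) :=
          h2.trans (Nat.mul_le_mul_right _ (h0.trans hm))
        have h4 : ((((XX P l₁ l₂).filter (fun x => x.1 ∈ st P g ∧ x.2.1 ∈ st P g ∧
            x.2.2 ∈ st P g)).card : ℕ) : ℝ) ≤ ((m * ((st P g).card * (st P g).card) : ℕ) : ℝ) := by
          exact_mod_cast h3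
        push_cast at h4
        refine h4.trans (le_of_eq ?_)
        ring
  -- the sum
  have hsum : ∑ g ∈ 𝒢, ((((XX P l₁ l₂).filter (fun x => x.1 ∈ st P g ∧ x.2.1 ∈ st P g ∧
      x.2.2 ∈ st P g)).card : ℕ) : ℝ) ≤ (8 * m * (m + 1) + 4 * m ^ 2) * n ^ 3 := by
    refine (Finset.sum_le_sum hone).trans ?_
    rw [Finset.sum_add_distrib]
    have h1 : ∑ g ∈ 𝒢, (m : ℝ) * ((st P g).card : ℝ) ^ 2 ≤ m * (2 * (4 * (m + 1) * n ^ 3)) := by
      rw [← Finset.mul_sum]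
      refine mul_le_mul_of_nonneg_left ?_ (by positivity)
      rw [hnn]
      refine le_trans ?_ (mul_le_mul_of_nonneg_left hPB (by norm_num))
      rw [Finset.mul_sum]
      refine Finset.sum_le_sum (fun g hg => ?_)
      have h2 : (2 : ℝ) ≤ ((st P g).card : ℝ) := by exact_mod_cast hr2 g hg
      nlinarith
    have h2 : ∑ g ∈ 𝒢, (if g ∈ S then n ^ 3 else 0) ≤ 4 * m ^ 2 * n ^ 3 := by
      rw [← Finset.sum_filter, Finset.sum_const, nsmul_eq_mul]
      refine mul_le_mul_of_nonneg_right ?_ (by positivity)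
      refine le_trans ?_ hScard
      have h3 : (𝒢.filter (fun g => g ∈ S)).card ≤ S.card := by
        apply Finset.card_le_card
        intro g hg
        exact (Finset.mem_filter.mp hg).2
      exact_mod_cast h3
    have h3 : m * (2 * (4 * (m + 1) * n ^ 3)) + 4 * m ^ 2 * n ^ 3 =
        (8 * m * (m + 1) + 4 * (m : ℝ) ^ 2) * n ^ 3 := by ring
    linarith
  have hcard := card_XX P l₁ l₂ hnp hn
  obtain ⟨A, hA⟩ : ∃ A : ℝ, A = ((pts P l₁).card : ℝ) * (pts P l₂).card - 1 := ⟨_, rfl⟩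
  have hA0 : 0 ≤ A := by
    rw [hA]
    have : (1 : ℝ) ≤ (((pts P l₁).card * (pts P l₂).card : ℕ) : ℝ) := by exact_mod_cast hpos
    push_cast at this
    linarith
  rw [← hA, ← hnn] at hcard
  rw [← hA, ← hT, ← hnn]
  rw [← hT] at hX
  have h1 : (A * (n - 2)) ^ 2 ≤ 6 * T * ((8 * m * (m + 1) + 4 * m ^ 2) * n ^ 3) := by
    refine le_trans ?_ (hX.trans (mul_le_mul_of_nonneg_left hsum (by positivity)))
    have h2 : 0 ≤ A * (n - 2) := mul_nonneg hA0 (by linarith)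
    exact pow_le_pow_left₀ h2 hcard 2
  have h2 : A ^ 2 * (n ^ 2 / 4) ≤ (A * (n - 2)) ^ 2 := by
    rw [mul_pow]
    refine mul_le_mul_of_nonneg_left ?_ (by positivity)
    nlinarith
  have h3 : A ^ 2 * (n ^ 2 / 4) ≤ 6 * T * ((8 * m * (m + 1) + 4 * m ^ 2) * n ^ 3) := h2.trans h1
  have hn2 : 0 < n ^ 2 := by positivity
  have h4 : A ^ 2 * n ^ 2 ≤ (24 * (8 * m * (m + 1) + 4 * m ^ 2) * T * n) * n ^ 2 := by
    have : (24 * (8 * m * (m + 1) + 4 * (m : ℝ) ^ 2) * T * n) * n ^ 2 =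
      4 * (6 * T * ((8 * m * (m + 1) + 4 * m ^ 2) * n ^ 3)) := by ring
    rw [this]
    linarith
  have h5 := le_of_mul_le_mul_right h4 hn2
  have h6 : 0 ≤ T * n := mul_nonneg hT0 (by linarith)
  have h7 : (24 * (8 * m * (m + 1) + 4 * (m : ℝ) ^ 2) + 1) * T * n =
    24 * (8 * m * (m + 1) + 4 * (m : ℝ) ^ 2) * T * n + T * n := by ring
  rw [h7]
  linarith

end Pool.BD
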