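import Pool.Agent.Work.MP_dc37f8_bd.Interface

/-!
# MP_dc37f8_co, second round, block PARL (helper83): sets on few parallel lines
-/

set_option autoImplicit false

open Finset

namespace Pool.BD

open Pool.BK

namespace PARL

open E3

/-- the difference vectors of a triple -/
def zf (x : ℂ × ℂ × ℂ) : ℂ × ℂ := (x.2.1 - x.1, x.2.2 - x.1)

theorem zf_inj {x y : ℂ × ℂ × ℂ} (h : zf x = zf y) (h1 : x.1 = y.1) : x = y := by
  have h2 : x.2.1 - x.1 = y.2.1 - y.1 := congrArg Prod.fst h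
  have h3 : x.2.2 - x.1 = y.2.2 - y.1 := congrArg Prod.snd h
  rw [h1] at h2 h3
  exact Prod.ext h1 (Prod.ext (sub_left_injective h2) (sub_left_injective h3))

open Classical in
theorem fib_le (P : Finset ℂ) (w : ℂ × ℂ) :
    ((T3 P).filter (fun y => zf y = w)).card ≤ rep3 P w := by
  unfold rep3
  refine card_le_card_of_injOn (fun y => y.1) ?_ ?_
  · intro y hy
    obtain ⟨h1, h2⟩ := mem_filter.mp (mem_coe.mp hy)
    obtain ⟨⟨a1, a2, a3⟩, -⟩ := mem_T3.mp h1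
    have e1 : y.1 + w.1 = y.2.1 := by rw [← h2, zf]; ring
    have e2 : y.1 + w.2 = y.2.2 := by rw [← h2, zf]; ring
    refine mem_coe.mpr (mem_filter.mpr ⟨a1, ?_, ?_⟩)
    · rw [e1]; exact a2
    · rw [e2]; exact a3
  · intro x hx y hy hxy
    exact zf_inj ((mem_filter.mp (mem_coe.mp hx)).2.trans (mem_filter.mp (mem_coe.mp hy)).2.symm)
      hxy

open Classical in
theorem fib_ge (P : Finset ℂ) (w : ℂ × ℂ) (h1 : w.1 ≠ 0) (h2 : w.2 ≠ 0) (h3 : w.1 ≠ w.2) :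
    rep3 P w ≤ ((T3 P).filter (fun y => zf y = w)).card := by
  unfold rep3
  refine card_le_card_of_injOn (fun p => (p, p + w.1, p + w.2)) ?_ ?_
  · intro p hp
    obtain ⟨a1, a2, a3⟩ := mem_filter.mp (mem_coe.mp hp)
    refine mem_coe.mpr (mem_filter.mpr ⟨mem_T3.mpr ⟨⟨a1, a2, a3⟩, ?_, ?_, ?_⟩, ?_⟩)
    · intro h
      exact h1 (by simpa using h)
    · intro h
      exact h3 (add_left_cancel h)
    · intro h
      exact h2 (by simpa using h)
    · refine Prod.ext ?_ ?_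
      · show p + w.1 - p = w.1
        ring
      · show p + w.2 - p = w.2
        ring
  · intro p _ q _ hpq
    exact congrArg (fun x : ℂ × ℂ × ℂ => x.1) hpq

/-- the weights -/
noncomputable def lam (P : Finset ℂ) (J : ℕ) (x : ℂ × ℂ × ℂ) : ℝ :=
  (((max (rep3 P (zf x)) J : ℕ) : ℝ))⁻¹

theorem lam_nonneg (P : Finset ℂ) (J : ℕ) (x : ℂ × ℂ × ℂ) : 0 ≤ lam P J x := by
  unfold lam
  positivity

theorem lam_le {P : Finset ℂ} {J : ℕ} (hJ : 1 ≤ J) (x : ℂ × ℂ × ℂ) : lam P J x ≤ (J : ℝ)⁻¹ := by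
  unfold lam
  have h1 : (J : ℝ) ≤ ((max (rep3 P (zf x)) J : ℕ) : ℝ) := by
    exact_mod_cast le_max_right _ _
  have h2 : (0 : ℝ) < J := by exact_mod_cast hJ
  exact inv_anti₀ h2 h1

open Classical in
theorem class_sum (P : Finset ℂ) (J : ℕ) (w : ℂ × ℂ) :
    ∑ y ∈ (T3 P).filter (fun y => zf y = w), lam P J y =
      (((T3 P).filter (fun y => zf y = w)).card : ℝ) * (((max (rep3 P w) J : ℕ) : ℝ))⁻¹ := by
  rw [← nsmul_eq_mul, ← sum_const]
  refine sum_congr rfl fun y hy => ?_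
  unfold lam
  rw [(mem_filter.mp hy).2]

open Classical in
theorem class_le {P : Finset ℂ} {J : ℕ} (hJ : 1 ≤ J) (w : ℂ × ℂ) :
    ∑ y ∈ (T3 P).filter (fun y => zf y = w), lam P J y ≤ 1 := by
  rw [class_sum]
  have h1 : ((((T3 P).filter (fun y => zf y = w)).card : ℕ) : ℝ) ≤
      ((max (rep3 P w) J : ℕ) : ℝ) := by
    exact_mod_cast (fib_le P w).trans (le_max_left _ _)
  have h2 : (0 : ℝ) < ((max (rep3 P w) J : ℕ) : ℝ) := by
    exact_mod_cast lt_of_lt_of_le hJ (le_max_right _ _)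
  rw [← div_eq_mul_inv, div_le_one h2]
  exact h1

open scoped Pointwise

open Classical in
/-- degenerate pairs of differences -/
theorem bad_sum (P : Finset ℂ) :
    ∑ z ∈ ((P - P) ×ˢ (P - P)).filter (fun z => z.1 = 0 ∨ z.2 = 0 ∨ z.1 = z.2), rep3 P z ≤
      3 * P.card ^ 2 := by
  set B := ((P - P) ×ˢ (P - P)).filter (fun z => z.1 = 0 ∨ z.2 = 0 ∨ z.1 = z.2) with hB
  have h1 : ∑ z ∈ B, rep3 P z =
      ∑ p ∈ P, (B.filter (fun z => p + z.1 ∈ P ∧ p + z.2 ∈ P)).card := by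
    simp only [rep3, card_filter]
    rw [sum_comm]
  rw [h1]
  have h2 : ∀ p ∈ P, (B.filter (fun z => p + z.1 ∈ P ∧ p + z.2 ∈ P)).card ≤ 3 * P.card := by
    intro p _
    have h3 : B.filter (fun z => p + z.1 ∈ P ∧ p + z.2 ∈ P) ⊆
        (P.image (fun q => ((0 : ℂ), q - p)) ∪ P.image (fun q => (q - p, (0 : ℂ)))) ∪
          P.image (fun q => (q - p, q - p)) := by
      intro z hz
      obtain ⟨h4, h5, h6⟩ := mem_filter.mp hz
      have h7 := (mem_filter.mp h4).2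
      rw [mem_union, mem_union, mem_image, mem_image, mem_image]
      rcases h7 with h7 | h7 | h7
      · exact Or.inl (Or.inl ⟨p + z.2, h6, Prod.ext h7.symm (by ring)⟩)
      · exact Or.inl (Or.inr ⟨p + z.1, h5, Prod.ext (by ring) h7.symm⟩)
      · exact Or.inr ⟨p + z.1, h5, Prod.ext (by ring) (by rw [← h7]; ring)⟩
    refine (card_le_card h3).trans ?_
    have h8 := card_union_le (P.image (fun q => ((0 : ℂ), q - p)) ∪
      P.image (fun q => (q - p, (0 : ℂ)))) (P.image (fun q => (q - p, q - p)))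
    have h9 := card_union_le (P.image (fun q => ((0 : ℂ), q - p)))
      (P.image (fun q => (q - p, (0 : ℂ))))
    have h10 : (P.image (fun q => ((0 : ℂ), q - p))).card ≤ P.card := card_image_le
    have h11 : (P.image (fun q => (q - p, (0 : ℂ)))).card ≤ P.card := card_image_le
    have h12 : (P.image (fun q => (q - p, q - p))).card ≤ P.card := card_image_le
    omega
  refine (sum_le_sum h2).trans ?_
  rw [sum_const, smul_eq_mul]
  exact le_of_eq (by ring)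

open Classical in
/-- the sum of the weights from below -/
theorem Z_low (P : Finset ℂ) (J : ℕ) (hJ : 1 ≤ J)
    (hZ : 3 * (J : ℝ) * (P.card : ℝ) ^ 2 - 3 * (J : ℝ) ^ 2 * P.card ≤
      ∑ z ∈ (P - P) ×ˢ (P - P), (min (rep3 P z) J : ℝ)) :
    3 * (J : ℝ) * (P.card : ℝ) ^ 2 - 3 * (J : ℝ) ^ 2 * P.card - 3 * (P.card : ℝ) ^ 2 ≤
      J * ∑ x ∈ T3 P, lam P J x := by
  have hJ0 : (0 : ℝ) < J := by exact_mod_cast hJ
  have h1 : ∑ x ∈ T3 P, lam P J x =
      ∑ w ∈ (P - P) ×ˢ (P - P), ∑ y ∈ (T3 P).filter (fun y => zf y = w), lam P J y := by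
    symm
    refine sum_fiberwise_of_maps_to ?_ _
    intro x hx
    obtain ⟨⟨a1, a2, a3⟩, -⟩ := mem_T3.mp hx
    exact mem_product.mpr ⟨sub_mem_sub a2 a1, sub_mem_sub a3 a1⟩
  have h2 : ∀ w ∈ (P - P) ×ˢ (P - P), (min (rep3 P w) J : ℝ) ≤
      J * ∑ y ∈ (T3 P).filter (fun y => zf y = w), lam P J y +
        (if w.1 = 0 ∨ w.2 = 0 ∨ w.1 = w.2 then (rep3 P w : ℝ) else 0) := by
    intro w _
    by_cases hw : w.1 = 0 ∨ w.2 = 0 ∨ w.1 = w.2
    · rw [if_pos hw]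
      have h3 : 0 ≤ ∑ y ∈ (T3 P).filter (fun y => zf y = w), lam P J y :=
        sum_nonneg fun y _ => lam_nonneg P J y
      have h4 : (min (rep3 P w) J : ℝ) ≤ rep3 P w := min_le_left _ _
      have h5 := mul_nonneg hJ0.le h3
      linarith
    · rw [if_neg hw, add_zero, class_sum]
      push_neg at hw
      obtain ⟨w1, w2, w3⟩ := hw
      have h3 : ((T3 P).filter (fun y => zf y = w)).card = rep3 P w :=
        le_antisymm (fib_le P w) (fib_ge P w w1 w2 w3)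
      rw [h3]
      have h4 : (0 : ℝ) < ((max (rep3 P w) J : ℕ) : ℝ) := by
        exact_mod_cast lt_of_lt_of_le hJ (le_max_right _ _)
      rw [← mul_assoc, ← div_eq_mul_inv, le_div_iff₀ h4]
      rcases le_total (rep3 P w) J with h5 | h5
      · have h6 : (rep3 P w : ℝ) ≤ J := by exact_mod_cast h5
        rw [max_eq_right h5, min_eq_left h6]
        exact le_of_eq (by ring)
      · have h6 : (J : ℝ) ≤ rep3 P w := by exact_mod_cast h5
        rw [max_eq_left h5, min_eq_right h6]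
  have h7 := sum_le_sum h2
  rw [sum_add_distrib, ← mul_sum, ← h1, ← sum_filter] at h7
  have h8 : ∑ z ∈ ((P - P) ×ˢ (P - P)).filter (fun z => z.1 = 0 ∨ z.2 = 0 ∨ z.1 = z.2),
      (rep3 P z : ℝ) ≤ 3 * (P.card : ℝ) ^ 2 := by
    exact_mod_cast bad_sum P
  linarith

/-- the four images of a pair of differences -/
noncomputable def F (v : ℂ) (w : ℂ × ℂ) : Finset (ℂ × ℂ) :=
  {w, (-w.1, -w.2), ((v / (starRingEnd ℂ) v) * (starRingEnd ℂ) w.1,
    (v / (starRingEnd ℂ) v) * (starRingEnd ℂ) w.2),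
    (-((v / (starRingEnd ℂ) v) * (starRingEnd ℂ) w.1),
    -((v / (starRingEnd ℂ) v) * (starRingEnd ℂ) w.2))}

theorem card_F (v : ℂ) (w : ℂ × ℂ) : (F v w).card ≤ 4 := by
  unfold F
  exact card_le_four

/-- isometries of type W -/
theorem zf_mem_F {g : Gp} {v : ℂ} {x y : ℂ × ℂ × ℂ}
    (hl : (∀ z, g z - g 0 = z) ∨ (∀ z, g z - g 0 = -z) ∨
    (∀ z, g z - g 0 = (v / (starRingEnd ℂ) v) * (starRingEnd ℂ) z) ∨
    (∀ z, g z - g 0 = -((v / (starRingEnd ℂ) v) * (starRingEnd ℂ) z)))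
    (h1 : g x.1 = y.1) (h2 : g x.2.1 = y.2.1) (h3 : g x.2.2 = y.2.2) : zf y ∈ F v (zf x) := by
  have hd : ∀ a b : ℂ, g a - g b = (g a - g 0) - (g b - g 0) := fun a b => by ring
  have e : zf y = (g x.2.1 - g x.1, g x.2.2 - g x.1) := by
    unfold zf
    rw [h1, h2, h3]
  rw [e]
  unfold F
  simp only [mem_insert, mem_singleton, Prod.mk.injEq]
  rcases hl with hl | hl | hl | hl
  · left
    rw [hd x.2.1 x.1, hd x.2.2 x.1, hl, hl, hl]
    rfl
  · right; left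
    rw [hd x.2.1 x.1, hd x.2.2 x.1, hl, hl, hl]
    constructor
    · show -x.2.1 - -x.1 = -(x.2.1 - x.1)
      ring
    · show -x.2.2 - -x.1 = -(x.2.2 - x.1)
      ring
  · right; right; left
    rw [hd x.2.1 x.1, hd x.2.2 x.1, hl, hl, hl]
    constructor
    · show _ = _ * (starRingEnd ℂ) (x.2.1 - x.1)
      rw [map_sub]
      ring
    · show _ = _ * (starRingEnd ℂ) (x.2.2 - x.1)
      rw [map_sub]
      ring
  · right; right; right
    rw [hd x.2.1 x.1, hd x.2.2 x.1, hl, hl, hl]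
    constructor
    · show _ = -(_ * (starRingEnd ℂ) (x.2.1 - x.1))
      rw [map_sub]
      ring
    · show _ = -(_ * (starRingEnd ℂ) (x.2.2 - x.1))
      rw [map_sub]
      ring

open Classical in
/-- pairs of type W -/
theorem W_sum {P : Finset ℂ} {J : ℕ} (hJ : 1 ≤ J) (v : ℂ)
    (E : Finset ((ℂ × ℂ × ℂ) × (ℂ × ℂ × ℂ)))
    (hE : ∀ z ∈ E, z.1 ∈ T3 P ∧ z.2 ∈ T3 P ∧ zf z.2 ∈ F v (zf z.1)) :
    ∑ z ∈ E, lam P J z.1 * lam P J z.2 ≤ 4 * ∑ x ∈ T3 P, lam P J x := by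
  have h1 : ∑ z ∈ E, lam P J z.1 * lam P J z.2 ≤
      ∑ z ∈ T3 P ×ˢ T3 P, (if zf z.2 ∈ F v (zf z.1) then lam P J z.1 * lam P J z.2 else 0) := by
    have h2 : ∑ z ∈ E, lam P J z.1 * lam P J z.2 =
        ∑ z ∈ E, (if zf z.2 ∈ F v (zf z.1) then lam P J z.1 * lam P J z.2 else 0) := by
      refine sum_congr rfl fun z hz => ?_
      rw [if_pos (hE z hz).2.2]
    rw [h2]
    refine sum_le_sum_of_subset_of_nonneg ?_ ?_
    · intro z hz
      exact mem_product.mpr ⟨(hE z hz).1, (hE z hz).2.1⟩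
    · intro z _ _
      split_ifs
      · exact mul_nonneg (lam_nonneg _ _ _) (lam_nonneg _ _ _)
      · exact le_rfl
  refine h1.trans ?_
  rw [sum_product, mul_sum]
  refine sum_le_sum fun x _ => ?_
  have h3 : ∑ y ∈ T3 P, (if zf y ∈ F v (zf x) then lam P J x * lam P J y else 0) =
      lam P J x * ∑ y ∈ T3 P, (if zf y ∈ F v (zf x) then lam P J y else 0) := by
    rw [mul_sum]
    refine sum_congr rfl fun y _ => ?_
    rw [mul_ite, mul_zero]
  have h4 : ∑ y ∈ T3 P, (if zf y ∈ F v (zf x) then lam P J y else 0) ≤ 4 := by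
    have h5 : ∑ y ∈ T3 P, (if zf y ∈ F v (zf x) then lam P J y else 0) =
        ∑ w ∈ F v (zf x), ∑ y ∈ (T3 P).filter (fun y => zf y = w), lam P J y := by
      simp only [sum_filter]
      rw [sum_comm]
      refine sum_congr rfl fun y _ => ?_
      rw [sum_ite_eq]
    rw [h5]
    have h6 : ∑ w ∈ F v (zf x), ∑ y ∈ (T3 P).filter (fun y => zf y = w), lam P J y ≤
        ∑ w ∈ F v (zf x), (1 : ℝ) := sum_le_sum fun w _ => class_le hJ w
    refine h6.trans ?_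
    rw [sum_const, nsmul_eq_mul, mul_one]
    exact_mod_cast card_F v (zf x)
  rw [h3, mul_comm (4 : ℝ)]
  exact mul_le_mul_of_nonneg_left h4 (lam_nonneg _ _ _)

open Classical in
/-- the isometries which turn the direction have few pairs -/
theorem st_small {P 𝓟 : Finset ℂ} {v : ℂ} {m : ℕ} (h𝓟 : 𝓟.card ≤ m)
    (hcov : ∀ y ∈ P, ∃ p ∈ 𝓟, On (p, v) y) {g : Gp} (hv : v ≠ 0)
    (hlin : ∀ (p u : ℂ) (s : ℝ), g (p + s * u) = g p + s * (g u - g 0))
    (hg : ¬ ∃ s : ℝ, g v - g 0 = s * v) : (st P g).card ≤ m ^ 2 := by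
  have hch : ∀ y : ℂ, ∃ p : ℂ, y ∈ P → p ∈ 𝓟 ∧ On (p, v) y := by
    intro y
    by_cases h : y ∈ P
    · obtain ⟨p, h1, h2⟩ := hcov y h
      exact ⟨p, fun _ => ⟨h1, h2⟩⟩
    · exact ⟨0, fun h' => absurd h' h⟩
  choose c hc using hch
  have h1 : (st P g).card ≤ (𝓟 ×ˢ 𝓟).card := by
    refine card_le_card_of_injOn (fun p => (c p, c (g p))) ?_ ?_
    · intro p hp
      obtain ⟨h2, h3⟩ := mem_filter.mp (mem_coe.mp hp)
      exact mem_coe.mpr (mem_product.mpr ⟨(hc p h2).1, (hc _ h3).1⟩)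
    · intro p hp q hq hpq
      obtain ⟨p1, p2⟩ := mem_filter.mp (mem_coe.mp hp)
      obtain ⟨q1, q2⟩ := mem_filter.mp (mem_coe.mp hq)
      have e1 : c p = c q := congrArg Prod.fst hpq
      have e2 : c (g p) = c (g q) := congrArg Prod.snd hpq
      obtain ⟨s1, hs1⟩ := (hc p p1).2
      obtain ⟨s2, hs2⟩ := (hc q q1).2
      obtain ⟨t1, ht1⟩ := (hc _ p2).2
      obtain ⟨t2, ht2⟩ := (hc _ q2).2
      simp only at hs1 hs2 ht1 ht2
      by_contra hne
      have h4 : q = p + ((s2 - s1 : ℝ) : ℂ) * v := by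
        push_cast
        rw [e1] at hs1
        linear_combination hs2 - hs1
      have h5 : (s2 - s1 : ℝ) ≠ 0 := by
        intro h0
        rw [h0] at h4
        apply hne
        rw [h4]
        simp
      have h6 := hlin p v (s2 - s1)
      rw [← h4] at h6
      apply hg
      refine ⟨(t2 - t1) / (s2 - s1), ?_⟩
      have h7 : (((s2 - s1 : ℝ)) : ℂ) ≠ 0 := by exact_mod_cast h5
      have h8 : ((s2 - s1 : ℝ) : ℂ) * (g v - g 0) = ((t2 - t1 : ℝ) : ℂ) * v := by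
        rw [e2] at ht1
        push_cast at h6 ⊢
        linear_combination ht2 - ht1 - h6
      have h9 : g v - g 0 = ((t2 - t1 : ℝ) : ℂ) * v / ((s2 - s1 : ℝ) : ℂ) := by
        rw [eq_div_iff h7, ← h8]
        ring
      rw [h9]
      push_cast
      ring
  rw [card_product] at h1
  calc (st P g).card ≤ 𝓟.card * 𝓟.card := h1
    _ ≤ m * m := Nat.mul_le_mul h𝓟 h𝓟
    _ = m ^ 2 := by ring

open Classical in
/-- the number of pairs of type s -/
theorem S_card {P : Finset ℂ} {m : ℕ} {κ : ℝ} (hPB : PB P κ)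
    (E : Finset ((ℂ × ℂ × ℂ) × (ℂ × ℂ × ℂ)))
    (φ : (ℂ × ℂ × ℂ) × (ℂ × ℂ × ℂ) → Gp)
    (hE : ∀ z ∈ E, z.1 ∈ T3 P ∧ z.2 ∈ T3 P ∧ IsIso (φ z) ∧ φ z z.1.1 = z.2.1 ∧
      φ z z.1.2.1 = z.2.2.1 ∧ φ z z.1.2.2 = z.2.2.2 ∧ (st P (φ z)).card ≤ m ^ 2) :
    (E.card : ℝ) ≤ 2 * (m : ℝ) ^ 2 * (κ * (P.card : ℝ) ^ 3) := by
  have h3 : (E.card : ℝ) ≤ ∑ g ∈ E.image φ, ((st P g).card : ℝ) ^ 3 := by
    rw [Finset.card_eq_sum_card_image φ E]
    push_cast
    apply Finset.sum_le_sum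
    intro g hg
    have h4 : (E.filter (fun z => φ z = g)).card ≤ ((st P g) ×ˢ (st P g) ×ˢ (st P g)).card := by
      apply Finset.card_le_card_of_injOn (fun z => z.1)
      · intro z hz
        obtain ⟨hz1, hz2⟩ := Finset.mem_filter.mp (Finset.mem_coe.mp hz)
        obtain ⟨h3, h4, _, k1, k2, k3, _⟩ := hE z hz1
        rw [hz2] at k1 k2 k3
        obtain ⟨⟨a1, a2, a3⟩, _⟩ := mem_T3.mp h3
        obtain ⟨⟨b1, b2, b3⟩, _⟩ := mem_T3.mp h4
        apply Finset.mem_coe.mpr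
        rw [Finset.mem_product, Finset.mem_product]
        unfold st
        refine ⟨Finset.mem_filter.mpr ⟨a1, ?_⟩, Finset.mem_filter.mpr ⟨a2, ?_⟩,
          Finset.mem_filter.mpr ⟨a3, ?_⟩⟩
        · rw [k1]; exact b1
        · rw [k2]; exact b2
        · rw [k3]; exact b3
      · intro z hz w hw hzw
        obtain ⟨hz1, hz2⟩ := Finset.mem_filter.mp (Finset.mem_coe.mp hz)
        obtain ⟨hw1, hw2⟩ := Finset.mem_filter.mp (Finset.mem_coe.mp hw)
        obtain ⟨_, _, _, k1, k2, k3, _⟩ := hE z hz1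
        obtain ⟨_, _, _, l1, l2, l3, _⟩ := hE w hw1
        rw [hz2] at k1 k2 k3
        rw [hw2] at l1 l2 l3
        have hzw' : z.1 = w.1 := hzw
        rw [hzw'] at k1 k2 k3
        apply Prod.ext hzw'
        apply Prod.ext
        · rw [← k1, ← l1]
        · apply Prod.ext
          · rw [← k2, ← l2]
          · rw [← k3, ← l3]
    rw [Finset.card_product, Finset.card_product] at h4
    have h5 : (((E.filter (fun z => φ z = g)).card : ℕ) : ℝ) ≤
        (((st P g).card * ((st P g).card * (st P g).card) : ℕ) : ℝ) := by exact_mod_cast h4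
    refine h5.trans (le_of_eq ?_)
    push_cast; ring
  refine h3.trans ?_
  have h6 := hPB (E.image φ) (by
    intro g hg
    obtain ⟨z, hz, rfl⟩ := mem_image.mp hg
    exact (hE z hz).2.2.1)
  have h7 : ∑ g ∈ E.image φ, ((st P g).card : ℝ) ^ 3 ≤
      ∑ g ∈ E.image φ, 2 * (m : ℝ) ^ 2 * (((st P g).card : ℝ) * ((st P g).card - 1)) := by
    refine sum_le_sum fun g hg => ?_
    obtain ⟨z, hz, rfl⟩ := mem_image.mp hg
    obtain ⟨h3, h4, _, k1, k2, k3, hm⟩ := hE z hz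
    obtain ⟨⟨a1, a2, a3⟩, n1, n2, n3⟩ := mem_T3.mp h3
    obtain ⟨⟨b1, b2, b3⟩, _⟩ := mem_T3.mp h4
    have h8 : 2 ≤ (st P (φ z)).card := by
      have h9 : ({z.1.1, z.1.2.1} : Finset ℂ) ⊆ st P (φ z) := by
        intro p hp
        rw [mem_insert, mem_singleton] at hp
        rcases hp with rfl | rfl
        · exact mem_filter.mpr ⟨a1, by rw [k1]; exact b1⟩
        · exact mem_filter.mpr ⟨a2, by rw [k2]; exact b2⟩
      have h10 := card_le_card h9
      rw [card_pair n1] at h10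
      exact h10
    have h11 : (2 : ℝ) ≤ ((st P (φ z)).card : ℝ) := by exact_mod_cast h8
    have h12 : ((st P (φ z)).card : ℝ) ≤ (m : ℝ) ^ 2 := by exact_mod_cast hm
    set r : ℝ := ((st P (φ z)).card : ℝ) with hr
    have h13 : r ≤ 2 * (r - 1) := by linarith
    calc r ^ 3 = r * (r * r) := by ring
      _ ≤ (m : ℝ) ^ 2 * (r * (2 * (r - 1))) := by
        refine mul_le_mul h12 (mul_le_mul_of_nonneg_left h13 (by linarith)) (by positivity)
          (by positivity)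
      _ = 2 * (m : ℝ) ^ 2 * (r * (r - 1)) := by ring
  refine h7.trans ?_
  rw [← mul_sum]
  exact mul_le_mul_of_nonneg_left h6 (by positivity)

/-- the numbers -/
theorem final {s s1 n Z C T : ℝ} (hs1 : 0 < s1) (hs1s : s1 ≤ s) (hs2 : s1 ≤ 1 / 2)
    (hn : 0 < n) (hZ : (3 - 4 * s1) * n ^ 2 ≤ Z) (hC : C * n ≤ s1 * n ^ 2) (hT : 0 ≤ T)
    (h : Z ^ 2 ≤ 6 * T * (4 * Z + C * n)) : (1 / 8 - s) * n ^ 2 ≤ T := by
  have hn2 : 0 < n ^ 2 := by positivity
  have h1 : n ^ 2 ≤ Z := by nlinarith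
  have hZ0 : 0 < Z := lt_of_lt_of_le hn2 h1
  have h2 : 4 * Z + C * n ≤ (4 + s1) * Z := by nlinarith
  have h3 : Z ^ 2 ≤ 6 * T * ((4 + s1) * Z) :=
    h.trans (mul_le_mul_of_nonneg_left h2 (by positivity))
  have h4 : Z ≤ 6 * T * (4 + s1) := by
    have h5 : Z * Z ≤ (6 * T * (4 + s1)) * Z := by nlinarith
    exact le_of_mul_le_mul_right h5 hZ0
  have h6 : (3 - 4 * s1) * n ^ 2 ≤ 6 * T * (4 + s1) := hZ.trans h4
  have h7 : (1 / 8 - s1) * n ^ 2 * (6 * (4 + s1)) ≤ (3 - 4 * s1) * n ^ 2 := by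
    have h8 : (1 / 8 - s1) * (6 * (4 + s1)) ≤ 3 - 4 * s1 := by nlinarith
    nlinarith
  have h9 : (1 / 8 - s1) * n ^ 2 ≤ T := by
    have h10 : (1 / 8 - s1) * n ^ 2 * (6 * (4 + s1)) ≤ T * (6 * (4 + s1)) := by linarith
    exact le_of_mul_le_mul_right h10 (by positivity)
  nlinarith

end PARL

open E3 in
set_option maxHeartbeats 4000000 in
theorem stmt_PARL (hZK : Pool.BD.Stmt_ZK) (hWCS : Pool.BD.Stmt_WCS) (hCON : Pool.BK.Stmt_CON)
    (hPBD : Pool.BD.Stmt_PBD) (hCOVDB : Pool.BD.Stmt_COVDB) (hISO : Pool.BD.Stmt_ISO) :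
    Pool.BD.Stmt_PARL := by
  classical
  intro m s hs
  obtain ⟨-, -, -, -, -, -, -, iso8, -, iso10⟩ := hISO
  set s1 : ℝ := min s (1 / 2) with hs1
  have hs1p : 0 < s1 := lt_min hs (by norm_num)
  have hs1s : s1 ≤ s := min_le_left _ _
  have hs12 : s1 ≤ 1 / 2 := min_le_right _ _
  set C : ℝ := 2 * (m : ℝ) ^ 2 * (4 * (m + 1)) / s1 ^ 2 with hC
  have hC0 : 0 ≤ C := by positivity
  obtain ⟨N1, hN1⟩ := exists_nat_ge (C / s1)
  obtain ⟨N2, hN2⟩ := exists_nat_ge ((3 + 3 / s1) / s1)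
  refine ⟨max (max N1 N2) 1, ?_⟩
  intro P 𝓟 v hv h𝓟 hcov hn
  have hnN1 : N1 ≤ P.card := le_trans (le_trans (le_max_left _ _) (le_max_left _ _)) hn
  have hnN2 : N2 ≤ P.card := le_trans (le_trans (le_max_right _ _) (le_max_left _ _)) hn
  have hn1 : 1 ≤ P.card := le_trans (le_max_right _ _) hn
  set n : ℝ := (P.card : ℝ) with hndef
  have hn1' : (1 : ℝ) ≤ n := by rw [hndef]; exact_mod_cast hn1
  have hn0 : 0 < n := by linarith
  have hC1 : C ≤ s1 * n := by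
    have h1 : C / s1 ≤ n := hN1.trans (by rw [hndef]; exact_mod_cast hnN1)
    rw [div_le_iff₀ hs1p] at h1
    linarith
  have hC2 : 3 + 3 / s1 ≤ s1 * n := by
    have h1 : (3 + 3 / s1) / s1 ≤ n := hN2.trans (by rw [hndef]; exact_mod_cast hnN2)
    rw [div_le_iff₀ hs1p] at h1
    linarith
  set J : ℕ := ⌈s1 * n⌉₊ with hJdef
  have hJ1 : s1 * n ≤ J := Nat.le_ceil _
  have hJ2 : (J : ℝ) < s1 * n + 1 := Nat.ceil_lt_add_one (by positivity)
  have hJpos : 1 ≤ J := Nat.one_le_ceil_iff.mpr (by positivity)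
  have hJle : J ≤ P.card := by
    refine Nat.ceil_le.mpr ?_
    rw [← hndef]
    nlinarith
  have hJ0 : (0 : ℝ) < J := by exact_mod_cast hJpos
  -- lower bound
  have hlow := PARL.Z_low P J hJpos (hZK P J hJle)
  rw [← hndef] at hlow
  set Z : ℝ := ∑ x ∈ T3 P, PARL.lam P J x with hZdef
  have hZ1 : (3 - 4 * s1) * n ^ 2 ≤ Z := by
    have h1 : (3 - 4 * s1) * n ^ 2 * J ≤ Z * J := by
      have h2 : 3 * (J : ℝ) * n ^ 2 - 3 * (J : ℝ) ^ 2 * n - 3 * n ^ 2 ≤ Z * J := by linarith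
      refine le_trans ?_ h2
      have h3 : 3 * (J : ℝ) ^ 2 * n + 3 * n ^ 2 ≤ 4 * s1 * n ^ 2 * J := by
        have h4 : 3 * (J : ℝ) ^ 2 * n ≤ 3 * (s1 * n + 1) * n * J := by
          have : (J : ℝ) * J ≤ (s1 * n + 1) * J := mul_le_mul_of_nonneg_right hJ2.le hJ0.le
          nlinarith
        have h5 : 3 * n ^ 2 ≤ 3 / s1 * n * J := by
          have h6 : 3 / s1 * n * (s1 * n) ≤ 3 / s1 * n * J :=
            mul_le_mul_of_nonneg_left hJ1 (by positivity)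
          have h7 : 3 / s1 * n * (s1 * n) = 3 * n ^ 2 := by
            field_simp
          linarith
        have h8 : (3 + 3 / s1) * (n * J) ≤ s1 * n * (n * J) :=
          mul_le_mul_of_nonneg_right hC2 (by positivity)
        nlinarith
      nlinarith
    exact le_of_mul_le_mul_right h1 hJ0
  -- the cover
  have hCov : Cov P m := by
    refine ⟨𝓟.image (fun p => (p, v)), card_image_le.trans h𝓟, ?_, ?_⟩
    · intro l hl
      obtain ⟨p, _, rfl⟩ := mem_image.mp hl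
      exact hv
    · intro y hy
      obtain ⟨p, hp, hpy⟩ := hcov y hy
      exact ⟨(p, v), mem_image_of_mem _ hp, hpy⟩
  have hPB : PB P (4 * (m + 1)) := hPBD P m (hCOVDB P m hCov)
  -- upper bound
  have hup : ∀ E : Finset ((ℂ × ℂ × ℂ) × (ℂ × ℂ × ℂ)),
      (∀ z ∈ E, z.1 ∈ T3 P ∧ z.2 ∈ T3 P ∧ key z.1 = key z.2) →
      ∑ z ∈ E, PARL.lam P J z.1 * PARL.lam P J z.2 ≤ 4 * Z + C * n := by
    intro E hE
    have hex : ∀ z : (ℂ × ℂ × ℂ) × (ℂ × ℂ × ℂ), ∃ g : Gp, z ∈ E →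
        (IsIso g ∧ g z.1.1 = z.2.1 ∧ g z.1.2.1 = z.2.2.1 ∧ g z.1.2.2 = z.2.2.2) := by
      intro z
      by_cases hz : z ∈ E
      · obtain ⟨h3, h4, h2⟩ := hE z hz
        have h5 := (mem_T3.mp h3).2.1
        have k1 : dist z.1.1 z.1.2.1 = dist z.2.1 z.2.2.1 :=
          congrArg (fun w : ℝ × ℝ × ℝ => w.1) h2
        have k2 : dist z.1.2.1 z.1.2.2 = dist z.2.2.1 z.2.2.2 :=
          congrArg (fun w : ℝ × ℝ × ℝ => w.2.1) h2
        have k3 : dist z.1.1 z.1.2.2 = dist z.2.1 z.2.2.2 :=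
          congrArg (fun w : ℝ × ℝ × ℝ => w.2.2) h2
        obtain ⟨g, hg⟩ := hCON _ _ _ _ _ _ h5 k1 k2 k3
        exact ⟨g, fun _ => hg⟩
      · exact ⟨1, fun h => absurd h hz⟩
    choose φ hφ using hex
    rw [← sum_filter_add_sum_filter_not E (fun z => ∃ s : ℝ, φ z v - φ z 0 = s * v)]
    refine add_le_add ?_ ?_
    · refine PARL.W_sum hJpos v _ ?_
      intro z hz
      obtain ⟨h1, h2⟩ := mem_filter.mp hz
      obtain ⟨h3, h4, -⟩ := hE z h1
      obtain ⟨k0, k1, k2, k3⟩ := hφ z h1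
      exact ⟨h3, h4, PARL.zf_mem_F (iso10 (φ z) v k0 hv h2) k1 k2 k3⟩
    · have h1 : ((E.filter (fun z => ¬ ∃ s : ℝ, φ z v - φ z 0 = s * v)).card : ℝ) ≤
          2 * (m : ℝ) ^ 2 * (4 * (m + 1) * (P.card : ℝ) ^ 3) := by
        refine PARL.S_card hPB _ φ ?_
        intro z hz
        obtain ⟨h1, h2⟩ := mem_filter.mp hz
        obtain ⟨h3, h4, -⟩ := hE z h1
        obtain ⟨k0, k1, k2, k3⟩ := hφ z h1
        exact ⟨h3, h4, k0, k1, k2, k3, PARL.st_small h𝓟 hcov hv (iso8 (φ z) k0) h2⟩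
      have h2 : ∑ z ∈ E.filter (fun z => ¬ ∃ s : ℝ, φ z v - φ z 0 = s * v),
          PARL.lam P J z.1 * PARL.lam P J z.2 ≤
          ((E.filter (fun z => ¬ ∃ s : ℝ, φ z v - φ z 0 = s * v)).card : ℝ) *
            ((J : ℝ)⁻¹ * (J : ℝ)⁻¹) := by
        rw [← nsmul_eq_mul]
        refine sum_le_card_nsmul _ _ _ fun z _ => ?_
        exact mul_le_mul (PARL.lam_le hJpos _) (PARL.lam_le hJpos _) (PARL.lam_nonneg _ _ _)
          (by positivity)
      refine h2.trans ?_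
      have h3 : (J : ℝ)⁻¹ * (J : ℝ)⁻¹ ≤ (s1 * n)⁻¹ * (s1 * n)⁻¹ := by
        have h4 : (J : ℝ)⁻¹ ≤ (s1 * n)⁻¹ := inv_anti₀ (by positivity) hJ1
        exact mul_le_mul h4 h4 (by positivity) (by positivity)
      calc ((E.filter (fun z => ¬ ∃ s : ℝ, φ z v - φ z 0 = s * v)).card : ℝ) *
            ((J : ℝ)⁻¹ * (J : ℝ)⁻¹)
          ≤ (2 * (m : ℝ) ^ 2 * (4 * (m + 1) * (P.card : ℝ) ^ 3)) *
            ((s1 * n)⁻¹ * (s1 * n)⁻¹) := by
            refine mul_le_mul h1 h3 (by positivity) (by positivity)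
        _ = C * n := by
            rw [hC, ← hndef]
            field_simp
  have hfin := hWCS P (PARL.lam P J) (fun x => PARL.lam_nonneg P J x)
  have hT : (0 : ℝ) ≤ ((TC P).card : ℝ) := Nat.cast_nonneg _
  refine PARL.final (C := C) hs1p hs1s hs12 hn0 hZ1 ?_ hT ?_
  · nlinarith
  · rw [hZdef]
    refine hfin.trans (mul_le_mul_of_nonneg_left ?_ (by positivity))
    refine hup _ ?_
    intro z hz
    obtain ⟨h1, h2⟩ := mem_filter.mp hz
    obtain ⟨h3, h4⟩ := mem_product.mp h1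
    exact ⟨h3, h4, h2⟩

end Pool.BD
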