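import Pool.Agent.Work.MP_dc37f8_bd.Interface
import Pool.Agent.Work.MP_dc37f8_bk.PAIR

/-! Block PBD: second moment of sets with few rich directions. -/

set_option autoImplicit false

open Finset

namespace Pool.BD

open Pool.BK

namespace PBD

/-- the mirror image -/
lemma mirror {p a b d : ℂ} {s : ℝ} (hab : a ≠ b) (h : dist p a = dist p b)
    (hs : Complex.I * (b - a) = s * d) :
    b = p + (starRingEnd ℂ) (a - p) * d / (starRingEnd ℂ) d := by
  have hba : b - a ≠ 0 := sub_ne_zero.mpr (Ne.symm hab)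
  have hne : (s : ℂ) * d ≠ 0 := by
    rw [← hs]
    exact mul_ne_zero Complex.I_ne_zero hba
  have hs0 : (s : ℂ) ≠ 0 := left_ne_zero_of_mul hne
  have hd0 : d ≠ 0 := right_ne_zero_of_mul hne
  have hcd : (starRingEnd ℂ) d ≠ 0 := by
    rw [Ne, map_eq_zero]
    exact hd0
  have h1 : (a - p) * (starRingEnd ℂ) (a - p) = (b - p) * (starRingEnd ℂ) (b - p) := by
    rw [Complex.mul_conj, Complex.mul_conj, Complex.normSq_eq_norm_sq, Complex.normSq_eq_norm_sq]
    rw [dist_comm p a, dist_comm p b, Complex.dist_eq, Complex.dist_eq] at h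
    rw [h]
  have h2 : -Complex.I * ((starRingEnd ℂ) b - (starRingEnd ℂ) a) = s * (starRingEnd ℂ) d := by
    have := congrArg (starRingEnd ℂ) hs
    simpa only [map_mul, map_sub, Complex.conj_I, Complex.conj_ofReal] using this
  have h3 : (b - p) * (starRingEnd ℂ) d = (starRingEnd ℂ) (a - p) * d := by
    apply mul_left_cancel₀ hs0
    simp only [map_sub] at h1 ⊢
    linear_combination (-(b - p)) * h2 + ((starRingEnd ℂ) a - (starRingEnd ℂ) p) * hs +
      Complex.I * h1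
  have h4 : b - p = (starRingEnd ℂ) (a - p) * d / (starRingEnd ℂ) d := by
    rw [eq_div_iff hcd]
    exact h3
  rw [← h4]
  ring

open Classical in
lemma iso_count {P : Finset ℂ} {k : ℕ} (hP : DB P k) :
    ((P ×ˢ P ×ˢ P).filter (fun z => dist z.1 z.2.1 = dist z.1 z.2.2)).card ≤
      (2 * (k + 1)) * P.card ^ 2 := by
  obtain ⟨D, hDk, hD⟩ := hP
  have hsub : (P ×ˢ P ×ˢ P).filter (fun z => dist z.1 z.2.1 = dist z.1 z.2.2) ⊆
      (P ×ˢ P ×ˢ P).filter (fun z => z.2.1 = z.2.2) ∪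
      ((P ×ˢ P ×ˢ P).filter (fun z => z.2.1 ≠ z.2.2 ∧ dist z.1 z.2.1 = dist z.1 z.2.2 ∧
        (pts P ((z.2.1 + z.2.2) / 2, Complex.I * (z.2.2 - z.2.1))).card ≤ k) ∪
      (P ×ˢ P ×ˢ P).filter (fun z => z.2.1 ≠ z.2.2 ∧ dist z.1 z.2.1 = dist z.1 z.2.2 ∧
        ∃ d ∈ D, ∃ s : ℝ, Complex.I * (z.2.2 - z.2.1) = s * d)) := by
    intro z hz
    rw [Finset.mem_filter] at hz
    rw [Finset.mem_union, Finset.mem_union, Finset.mem_filter, Finset.mem_filter,
      Finset.mem_filter]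
    by_cases h : z.2.1 = z.2.2
    · exact Or.inl ⟨hz.1, h⟩
    right
    rcases Nat.lt_or_ge k
      (pts P ((z.2.1 + z.2.2) / 2, Complex.I * (z.2.2 - z.2.1))).card with h1 | h1
    · right
      refine ⟨hz.1, h, hz.2, ?_⟩
      exact hD ((z.2.1 + z.2.2) / 2, Complex.I * (z.2.2 - z.2.1))
        (mul_ne_zero Complex.I_ne_zero (sub_ne_zero.mpr (Ne.symm h))) h1
    · left
      exact ⟨hz.1, h, hz.2, h1⟩
  have c0 : ((P ×ˢ P ×ˢ P).filter (fun z => z.2.1 = z.2.2)).card ≤ P.card ^ 2 := by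
    rw [pow_two, ← Finset.card_product]
    apply Finset.card_le_card_of_injOn (fun z => (z.1, z.2.1))
    · intro z hz
      simp only [Finset.coe_filter, Finset.mem_product, Set.mem_ofPred_eq] at hz
      exact Finset.mem_coe.mpr (Finset.mem_product.mpr ⟨hz.1.1, hz.1.2.1⟩)
    · rintro ⟨p, a, b⟩ hz ⟨p', a', b'⟩ hw h
      simp only [Finset.coe_filter, Finset.mem_product, Set.mem_ofPred_eq] at hz hw
      simp only [Prod.mk.injEq] at h
      obtain ⟨rfl, rfl⟩ := h
      rw [← hz.2, ← hw.2]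
  have c1 : ((P ×ˢ P ×ˢ P).filter (fun z => z.2.1 ≠ z.2.2 ∧ dist z.1 z.2.1 = dist z.1 z.2.2 ∧
        (pts P ((z.2.1 + z.2.2) / 2, Complex.I * (z.2.2 - z.2.1))).card ≤ k)).card ≤
      k * P.card ^ 2 := by
    have h1 : ((P ×ˢ P ×ˢ P).filter (fun z => z.2.1 ≠ z.2.2 ∧
          dist z.1 z.2.1 = dist z.1 z.2.2 ∧
          (pts P ((z.2.1 + z.2.2) / 2, Complex.I * (z.2.2 - z.2.1))).card ≤ k)).card ≤
        ∑ ab ∈ P ×ˢ P, (P.filter (fun p => ab.1 ≠ ab.2 ∧ dist p ab.1 = dist p ab.2 ∧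
          (pts P ((ab.1 + ab.2) / 2, Complex.I * (ab.2 - ab.1))).card ≤ k)).card := by
      rw [← Finset.card_sigma]
      apply Finset.card_le_card_of_injOn (fun z => (⟨z.2, z.1⟩ : Σ _ : ℂ × ℂ, ℂ))
      · intro z hz
        simp only [Finset.coe_filter, Finset.mem_product, Set.mem_ofPred_eq] at hz
        simp only [Finset.coe_sigma, Set.mem_sigma_iff, Finset.mem_coe, Finset.mem_product,
          Finset.mem_filter]
        exact ⟨hz.1.2, hz.1.1, hz.2⟩
      · rintro ⟨p, a⟩ _ ⟨q, b⟩ _ h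
        simp only [Sigma.mk.injEq] at h
        obtain ⟨h1, h2⟩ := h
        subst h1
        rw [eq_of_heq h2]
    refine h1.trans ?_
    have h2 : ∀ ab ∈ P ×ˢ P, (P.filter (fun p => ab.1 ≠ ab.2 ∧ dist p ab.1 = dist p ab.2 ∧
          (pts P ((ab.1 + ab.2) / 2, Complex.I * (ab.2 - ab.1))).card ≤ k)).card ≤ k := by
      intro ab _
      by_cases h : ab.1 ≠ ab.2 ∧
        (pts P ((ab.1 + ab.2) / 2, Complex.I * (ab.2 - ab.1))).card ≤ k
      · refine le_trans (Finset.card_le_card ?_) h.2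
        intro p hp
        rw [Finset.mem_filter] at hp
        rw [pts, Finset.mem_filter]
        exact ⟨hp.1, PAIR.bisector h.1 hp.2.2.1⟩
      · have : P.filter (fun p => ab.1 ≠ ab.2 ∧ dist p ab.1 = dist p ab.2 ∧
            (pts P ((ab.1 + ab.2) / 2, Complex.I * (ab.2 - ab.1))).card ≤ k) = ∅ := by
          rw [Finset.filter_eq_empty_iff]
          intro p _ hp
          exact h ⟨hp.1, hp.2.2⟩
        rw [this]
        simp
    refine (Finset.sum_le_sum h2).trans ?_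
    rw [Finset.sum_const, Finset.card_product, smul_eq_mul]
    apply le_of_eq
    ring
  have c2 : ((P ×ˢ P ×ˢ P).filter (fun z => z.2.1 ≠ z.2.2 ∧ dist z.1 z.2.1 = dist z.1 z.2.2 ∧
        ∃ d ∈ D, ∃ s : ℝ, Complex.I * (z.2.2 - z.2.1) = s * d)).card ≤ k * P.card ^ 2 := by
    have h1 : ((P ×ˢ P ×ˢ P).filter (fun z => z.2.1 ≠ z.2.2 ∧
          dist z.1 z.2.1 = dist z.1 z.2.2 ∧
          ∃ d ∈ D, ∃ s : ℝ, Complex.I * (z.2.2 - z.2.1) = s * d)).card ≤
        (D ×ˢ P ×ˢ P).card := by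
      let f : ℂ × ℂ × ℂ → ℂ × ℂ × ℂ := fun z =>
        (if h : ∃ d ∈ D, ∃ s : ℝ, Complex.I * (z.2.2 - z.2.1) = s * d then h.choose else 0,
          z.1, z.2.1)
      apply Finset.card_le_card_of_injOn f
      · intro z hz
        simp only [Finset.coe_filter, Finset.mem_product, Set.mem_ofPred_eq] at hz
        obtain ⟨⟨hp, ha, _⟩, _, _, hex⟩ := hz
        refine Finset.mem_coe.mpr (Finset.mem_product.mpr ⟨?_, Finset.mem_product.mpr ⟨hp, ha⟩⟩)
        simp only [f]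
        rw [dif_pos hex]
        exact hex.choose_spec.1
      · intro z hz w hw hzw
        simp only [Finset.coe_filter, Finset.mem_product, Set.mem_ofPred_eq] at hz hw
        obtain ⟨_, hne, hdist, hex⟩ := hz
        obtain ⟨_, hne', hdist', hex'⟩ := hw
        simp only [f] at hzw
        rw [dif_pos hex, dif_pos hex'] at hzw
        simp only [Prod.mk.injEq] at hzw
        obtain ⟨h1, h2, h3⟩ := hzw
        obtain ⟨s, hs⟩ := hex.choose_spec.2
        obtain ⟨s', hs'⟩ := hex'.choose_spec.2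
        have e1 := mirror hne hdist hs
        have e2 := mirror hne' hdist' hs'
        have e3 : z.2.2 = w.2.2 := by
          rw [e1, e2, h1, h2, h3]
        exact Prod.ext h2 (Prod.ext h3 e3)
    refine h1.trans ?_
    rw [Finset.card_product, Finset.card_product, ← pow_two]
    exact Nat.mul_le_mul_right _ hDk
  refine (Finset.card_le_card hsub).trans ((Finset.card_union_le _ _).trans ?_)
  have h3 := Finset.card_union_le
    ((P ×ˢ P ×ˢ P).filter (fun z => z.2.1 ≠ z.2.2 ∧ dist z.1 z.2.1 = dist z.1 z.2.2 ∧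
        (pts P ((z.2.1 + z.2.2) / 2, Complex.I * (z.2.2 - z.2.1))).card ≤ k))
    ((P ×ˢ P ×ˢ P).filter (fun z => z.2.1 ≠ z.2.2 ∧ dist z.1 z.2.1 = dist z.1 z.2.2 ∧
        ∃ d ∈ D, ∃ s : ℝ, Complex.I * (z.2.2 - z.2.1) = s * d))
  have h4 : 0 ≤ P.card ^ 2 := Nat.zero_le _
  calc _ ≤ P.card ^ 2 + (k * P.card ^ 2 + k * P.card ^ 2) := by omega
    _ ≤ (2 * (k + 1)) * P.card ^ 2 := by
        have : (2 * (k + 1)) * P.card ^ 2 = P.card ^ 2 + (k * P.card ^ 2 + k * P.card ^ 2) +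
          P.card ^ 2 := by ring
        omega

open Classical in
/-- quadruples with equal distances -/
lemma quad_count {P : Finset ℂ} {m : ℕ}
    (hP : ((P ×ˢ P ×ˢ P).filter (fun z => dist z.1 z.2.1 = dist z.1 z.2.2)).card ≤
      m * P.card ^ 2) :
    ((P.offDiag ×ˢ P.offDiag).filter
      (fun z => dist z.1.1 z.1.2 = dist z.2.1 z.2.2)).card ≤ m * P.card ^ 3 := by
  obtain ⟨D, hD⟩ : ∃ D : Finset ℝ, D = P.offDiag.image (fun z => dist z.1 z.2) := ⟨_, rfl⟩
  -- the number of quadruples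
  have e1 : ((P.offDiag ×ˢ P.offDiag).filter
      (fun z => dist z.1.1 z.1.2 = dist z.2.1 z.2.2)).card =
      ∑ d ∈ D, ((P.offDiag.filter (fun z => dist z.1 z.2 = d)).card) ^ 2 := by
    rw [Finset.card_eq_sum_card_fiberwise (f := fun z => dist z.1.1 z.1.2) (t := D)]
    · apply Finset.sum_congr rfl
      intro d _
      rw [pow_two, ← Finset.card_product]
      congr 1
      ext z
      simp only [Finset.mem_filter, Finset.mem_product]
      constructor
      · rintro ⟨⟨⟨h1, h2⟩, h3⟩, h4⟩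
        exact ⟨⟨h1, h4⟩, h2, by rw [← h3, h4]⟩
      · rintro ⟨⟨h1, h2⟩, h3, h4⟩
        exact ⟨⟨⟨h1, h3⟩, by rw [h2, h4]⟩, h2⟩
    · intro z hz
      simp only [Finset.coe_filter, Finset.mem_product, Set.mem_ofPred_eq] at hz
      rw [hD]
      exact Finset.mem_coe.mpr (Finset.mem_image.mpr ⟨z.1, hz.1.1, rfl⟩)
  have e2 : ∀ d, (P.offDiag.filter (fun z => dist z.1 z.2 = d)).card =
      ∑ p ∈ P, (P.filter (fun q => p ≠ q ∧ dist p q = d)).card := by
    intro d
    rw [Finset.card_eq_sum_card_fiberwise (f := Prod.fst) (t := P)]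
    · apply Finset.sum_congr rfl
      intro p hp
      apply Finset.card_bij (fun z _ => z.2)
      · rintro ⟨a, b⟩ hz
        simp only [Finset.mem_filter, Finset.mem_offDiag] at hz ⊢
        obtain ⟨⟨⟨h1, h2, h3⟩, h4⟩, rfl⟩ := hz
        exact ⟨h2, h3, h4⟩
      · rintro ⟨a, b⟩ hz ⟨c, e⟩ hw h
        simp only [Finset.mem_filter] at hz hw h
        rw [h, hz.2, hw.2]
      · intro q hq
        simp only [Finset.mem_filter] at hq
        exact ⟨(p, q), by simp only [Finset.mem_filter, Finset.mem_offDiag]; exact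
          ⟨⟨⟨hp, hq.1, hq.2.1⟩, hq.2.2⟩, trivial⟩, rfl⟩
    · intro z hz
      simp only [Finset.coe_filter, Finset.mem_offDiag, Set.mem_ofPred_eq] at hz
      exact hz.1.1
  have e3 : ∀ d, ((P.offDiag.filter (fun z => dist z.1 z.2 = d)).card) ^ 2 ≤
      P.card * ∑ p ∈ P, (P.filter (fun q => p ≠ q ∧ dist p q = d)).card ^ 2 := by
    intro d
    rw [e2]
    exact sq_sum_le_card_mul_sum_sq
  rw [e1]
  calc ∑ d ∈ D, ((P.offDiag.filter (fun z => dist z.1 z.2 = d)).card) ^ 2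
      ≤ ∑ d ∈ D, P.card * ∑ p ∈ P, (P.filter (fun q => p ≠ q ∧ dist p q = d)).card ^ 2 :=
        Finset.sum_le_sum fun d _ => e3 d
    _ = P.card * ∑ d ∈ D, ∑ p ∈ P, (P.filter (fun q => p ≠ q ∧ dist p q = d)).card ^ 2 := by
        rw [Finset.mul_sum]
    _ ≤ P.card * (m * P.card ^ 2) := by
        apply Nat.mul_le_mul_left
        refine le_trans ?_ hP
        rw [← Finset.sum_product', ]
        have : ∀ dp ∈ D ×ˢ P, (P.filter (fun q => dp.2 ≠ q ∧ dist dp.2 q = dp.1)).card ^ 2 =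
            ((P.filter (fun q => dp.2 ≠ q ∧ dist dp.2 q = dp.1)) ×ˢ
              (P.filter (fun q => dp.2 ≠ q ∧ dist dp.2 q = dp.1))).card := by
          intro dp _
          rw [Finset.card_product, pow_two]
        rw [Finset.sum_congr rfl this, ← Finset.card_sigma]
        apply Finset.card_le_card_of_injOn (fun z => (z.1.2, z.2))
        · rintro ⟨⟨d, p⟩, a, b⟩ hz
          simp only [Finset.coe_sigma, Set.mem_sigma_iff, Finset.mem_coe, Finset.mem_product,
            Finset.mem_filter] at hz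
          simp only [Finset.coe_filter, Finset.mem_product, Set.mem_ofPred_eq]
          obtain ⟨⟨_, hp⟩, ⟨ha, _, had⟩, hb, _, hbd⟩ := hz
          exact ⟨⟨hp, ha, hb⟩, by rw [had, hbd]⟩
        · rintro ⟨⟨d, p⟩, a, b⟩ hz ⟨⟨d', p'⟩, a', b'⟩ hw h
          simp only [Finset.coe_sigma, Set.mem_sigma_iff, Finset.mem_coe, Finset.mem_product,
            Finset.mem_filter] at hz hw
          simp only [Prod.mk.injEq] at h
          obtain ⟨rfl, rfl, rfl⟩ := h
          obtain ⟨_, ⟨_, _, had⟩, _⟩ := hz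
          obtain ⟨_, ⟨_, _, had'⟩, _⟩ := hw
          rw [← had, ← had']
    _ = m * P.card ^ 3 := by ring

end PBD

open PBD in
theorem stmt_PBD (hT : Pool.BK.Stmt_TWO) : Stmt_PBD := by
  classical
  intro P k hP 𝒢 h𝒢
  have h1 : ∑ g ∈ 𝒢, (st P g).offDiag.card ≤ 2 * ((P.offDiag ×ˢ P.offDiag).filter
      (fun z => dist z.1.1 z.1.2 = dist z.2.1 z.2.2)).card := by
    rw [← Finset.card_sigma]
    apply Finset.card_le_mul_card_image_of_maps_to
      (f := fun x : (Σ _ : Gp, ℂ × ℂ) => (x.2, (x.1 x.2.1, x.1 x.2.2)))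
    · rintro ⟨g, p, q⟩ hx
      simp only [Finset.mem_sigma, Finset.mem_offDiag, st, Finset.mem_filter] at hx
      obtain ⟨hg, ⟨hp, hgp⟩, ⟨hq, hgq⟩, hne⟩ := hx
      simp only [Finset.mem_filter, Finset.mem_product, Finset.mem_offDiag]
      exact ⟨⟨⟨hp, hq, hne⟩, hgp, hgq, fun h => hne (g.injective h)⟩,
        (PAIR.iso_dist (h𝒢 g hg) p q).symm⟩
    · rintro ⟨⟨a, b⟩, c, d⟩ hx
      simp only [Finset.mem_filter, Finset.mem_product, Finset.mem_offDiag] at hx
      have hne : a ≠ b := hx.1.1.2.2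
      refine le_trans ?_ (hT a b c d hne (𝒢.filter fun g => g a = c ∧ g b = d) ?_)
      · apply Finset.card_le_card_of_injOn (fun x => x.1)
        · rintro ⟨g, p, q⟩ hx
          simp only [Finset.coe_filter, Finset.mem_sigma, Set.mem_ofPred_eq, Prod.mk.injEq] at hx
          obtain ⟨⟨hg, _⟩, ⟨rfl, rfl⟩, h3, h4⟩ := hx
          exact Finset.mem_coe.mpr (Finset.mem_filter.mpr ⟨hg, h3, h4⟩)
        · rintro ⟨g, p, q⟩ hx ⟨g', p', q'⟩ hx' h
          simp only [Finset.coe_filter, Finset.mem_sigma, Set.mem_ofPred_eq, Prod.mk.injEq] at hx hx' h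
          obtain ⟨_, ⟨rfl, rfl⟩, _⟩ := hx
          obtain ⟨_, ⟨rfl, rfl⟩, _⟩ := hx'
          subst h
          rfl
      · intro g hg
        rw [Finset.mem_filter] at hg
        exact ⟨h𝒢 g hg.1, hg.2⟩
  have h2 := h1.trans (Nat.mul_le_mul_left 2 (quad_count (iso_count hP)))
  have h3 : ∑ g ∈ 𝒢, ((st P g).card : ℝ) * ((st P g).card - 1) =
      ((∑ g ∈ 𝒢, (st P g).offDiag.card : ℕ) : ℝ) := by
    push_cast
    apply Finset.sum_congr rfl
    intro g _
    rw [Finset.offDiag_card, Nat.cast_sub (Nat.le_mul_self _)]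
    push_cast
    ring
  rw [h3]
  calc ((∑ g ∈ 𝒢, (st P g).offDiag.card : ℕ) : ℝ) ≤
        ((2 * ((2 * (k + 1)) * P.card ^ 3) : ℕ) : ℝ) := by
        exact_mod_cast h2
    _ = 4 * (k + 1) * (P.card : ℝ) ^ 3 := by push_cast; ring

end Pool.BD
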