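import Pool.Agent.Work.MP_dc37f8_bd.Interface

/-!
# MP_dc37f8_co, block POLL (helper79): Pollard's inequality in `ℂ`

Induction on `J`: remove the largest element of `A` and the largest element of `B`
(lexicographic order).
-/

set_option autoImplicit false
set_option maxHeartbeats 4000000

open Finset
open scoped Pointwise

namespace Pool.BD.POLL

/-- a maximal element for the lexicographic order -/
lemma exists_top (A : Finset ℂ) (hA : A.Nonempty) :
    ∃ a₀ ∈ A, ∀ a ∈ A, a.re < a₀.re ∨ (a.re = a₀.re ∧ a.im ≤ a₀.im) := by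
  classical
  obtain ⟨a₁, ha₁, h₁⟩ := Finset.exists_max_image A (fun z : ℂ => z.re) hA
  have hne : (A.filter (fun a => a.re = a₁.re)).Nonempty :=
    ⟨a₁, Finset.mem_filter.mpr ⟨ha₁, rfl⟩⟩
  obtain ⟨a₀, ha₀, h₀⟩ := Finset.exists_max_image (A.filter (fun a => a.re = a₁.re))
    (fun z : ℂ => z.im) hne
  rw [Finset.mem_filter] at ha₀
  refine ⟨a₀, ha₀.1, fun a ha => ?_⟩
  rcases lt_or_eq_of_le (h₁ a ha) with h | h
  · left; rw [ha₀.2]; exact h
  · right
    refine ⟨by rw [ha₀.2]; exact h, h₀ a (Finset.mem_filter.mpr ⟨ha, h⟩)⟩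

/-- the top difference is unique -/
lemma exists_pair (A B : Finset ℂ) (hA : A.Nonempty) (hB : B.Nonempty) :
    ∃ a₀ ∈ A, ∃ b₀ ∈ B, ∀ a ∈ A, ∀ b ∈ B, b - a₀ = b₀ - a → a = a₀ ∧ b = b₀ := by
  obtain ⟨a₀, ha₀, h1⟩ := exists_top A hA
  obtain ⟨b₀, hb₀, h2⟩ := exists_top B hB
  refine ⟨a₀, ha₀, b₀, hb₀, fun a ha b hb he => ?_⟩
  have hre : b.re - a₀.re = b₀.re - a.re := by
    have := congrArg Complex.re he
    simpa using this
  have him : b.im - a₀.im = b₀.im - a.im := by
    have := congrArg Complex.im he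
    simpa using this
  have ha1 : a.re ≤ a₀.re := by
    rcases h1 a ha with h | h
    · exact h.le
    · exact h.1.le
  have hb1 : b.re ≤ b₀.re := by
    rcases h2 b hb with h | h
    · exact h.le
    · exact h.1.le
  have ha2 : a.re = a₀.re := by linarith
  have hb2 : b.re = b₀.re := by linarith
  have ha3 : a.im ≤ a₀.im := by
    rcases h1 a ha with h | h
    · exact absurd ha2 h.ne
    · exact h.2
  have hb3 : b.im ≤ b₀.im := by
    rcases h2 b hb with h | h
    · exact absurd hb2 h.ne
    · exact h.2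
  exact ⟨Complex.ext ha2 (by linarith), Complex.ext hb2 (by linarith)⟩

lemma step (A B : Finset ℂ) (hA : A.Nonempty) (hB : B.Nonempty) (J : ℕ) :
    ∃ A' B' : Finset ℂ, A'.card + 1 = A.card ∧ B'.card + 1 = B.card ∧
      (∑ t ∈ B' - A', min (rep A' B' t) J) + (A.card + B.card - 1) ≤
        ∑ t ∈ B - A, min (rep A B t) (J + 1) := by
  classical
  obtain ⟨a₀, ha₀, b₀, hb₀, huniq⟩ := exists_pair A B hA hB
  refine ⟨A.erase a₀, B.erase b₀, Finset.card_erase_add_one ha₀, Finset.card_erase_add_one hb₀, ?_⟩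
  obtain ⟨X, hX⟩ : ∃ X : Finset ℂ, X = (B.image (fun b => b - a₀)) ∪ (A.image (fun a => b₀ - a)) :=
    ⟨_, rfl⟩
  have hXcard : X.card = A.card + B.card - 1 := by
    have h1 : (B.image (fun b => b - a₀)).card = B.card :=
      Finset.card_image_of_injective _ (fun x y h => by simpa using h)
    have h2 : (A.image (fun a => b₀ - a)).card = A.card :=
      Finset.card_image_of_injective _ (fun x y h => by simpa using h)
    have h3 : (B.image (fun b => b - a₀)) ∩ (A.image (fun a => b₀ - a)) = {b₀ - a₀} := by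
      ext z
      simp only [Finset.mem_inter, Finset.mem_image, Finset.mem_singleton]
      constructor
      · rintro ⟨⟨b, hb, rfl⟩, ⟨a, ha, hz⟩⟩
        obtain ⟨_, hbb⟩ := huniq a ha b hb hz.symm
        rw [hbb]
      · rintro rfl
        exact ⟨⟨b₀, hb₀, rfl⟩, ⟨a₀, ha₀, rfl⟩⟩
    have h4 := Finset.card_union_add_card_inter (B.image (fun b => b - a₀))
      (A.image (fun a => b₀ - a))
    rw [h3, Finset.card_singleton, h1, h2, ← hX] at h4
    omega
  have hXsub : X ⊆ B - A := by
    intro z hz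
    rw [hX, Finset.mem_union, Finset.mem_image, Finset.mem_image] at hz
    rcases hz with ⟨b, hb, rfl⟩ | ⟨a, ha, rfl⟩
    · exact Finset.sub_mem_sub hb ha₀
    · exact Finset.sub_mem_sub hb₀ ha
  have hsub : ∀ t : ℂ, (A.erase a₀).filter (fun a => a + t ∈ B.erase b₀) ⊆
      A.filter (fun a => a + t ∈ B) := by
    intro t a ha
    rw [Finset.mem_filter, Finset.mem_erase, Finset.mem_erase] at ha
    rw [Finset.mem_filter]
    exact ⟨ha.1.2, ha.2.2⟩
  have hle : ∀ t : ℂ, rep (A.erase a₀) (B.erase b₀) t ≤ rep A B t := by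
    intro t
    unfold rep
    exact Finset.card_le_card (fun a ha => by
      rw [Finset.mem_filter, Finset.mem_erase, Finset.mem_erase] at ha
      rw [Finset.mem_filter]
      exact ⟨ha.1.2, ha.2.2⟩)
  have hlt : ∀ t ∈ X, rep (A.erase a₀) (B.erase b₀) t + 1 ≤ rep A B t := by
    intro t ht
    have hex : ∃ a ∈ A, a + t ∈ B ∧ (a = a₀ ∨ a + t = b₀) := by
      rw [hX, Finset.mem_union, Finset.mem_image, Finset.mem_image] at ht
      rcases ht with ⟨b, hb, rfl⟩ | ⟨a, ha, rfl⟩
      · refine ⟨a₀, ha₀, ?_, Or.inl rfl⟩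
        rw [add_sub_cancel]; exact hb
      · refine ⟨a, ha, ?_, Or.inr ?_⟩
        · rw [add_sub_cancel]; exact hb₀
        · rw [add_sub_cancel]
    obtain ⟨a, ha, hab, hor⟩ := hex
    unfold rep
    refine Finset.card_lt_card ?_
    rw [Finset.ssubset_iff_of_subset]
    · refine ⟨a, Finset.mem_filter.mpr ⟨ha, hab⟩, ?_⟩
      intro hmem
      rw [Finset.mem_filter, Finset.mem_erase, Finset.mem_erase] at hmem
      rcases hor with h | h
      · exact hmem.1.1 h
      · exact hmem.2.1 h
    · intro a ha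
      rw [Finset.mem_filter, Finset.mem_erase, Finset.mem_erase] at ha
      rw [Finset.mem_filter]
      exact ⟨ha.1.2, ha.2.2⟩
  have hsum1 : ∑ t ∈ B.erase b₀ - A.erase a₀, min (rep (A.erase a₀) (B.erase b₀) t) J ≤
      ∑ t ∈ B - A, min (rep (A.erase a₀) (B.erase b₀) t) J := by
    refine Finset.sum_le_sum_of_subset ?_
    exact Finset.sub_subset_sub (Finset.erase_subset _ _) (Finset.erase_subset _ _)
  have hsum2 : X.card = ∑ t ∈ B - A, (if t ∈ X then 1 else 0) := by
    rw [Finset.sum_ite_mem, Finset.inter_eq_right.mpr hXsub, Finset.card_eq_sum_ones]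
  have hsum3 : ∑ t ∈ B - A, (min (rep (A.erase a₀) (B.erase b₀) t) J + if t ∈ X then 1 else 0) ≤
      ∑ t ∈ B - A, min (rep A B t) (J + 1) := by
    refine Finset.sum_le_sum (fun t _ => ?_)
    by_cases h : t ∈ X
    · rw [if_pos h]
      have := hlt t h
      omega
    · rw [if_neg h]
      have := hle t
      omega
  rw [Finset.sum_add_distrib, ← hsum2, hXcard] at hsum3
  omega

end Pool.BD.POLL

namespace Pool.BD

theorem stmt_POLL : Stmt_POLL := by
  intro A B J
  induction J generalizing A B with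
  | zero => intro _ _; simp
  | succ J ih =>
    intro h1 h2
    obtain ⟨A', B', hA', hB', hs⟩ := POLL.step A B (Finset.card_pos.mp (by omega))
      (Finset.card_pos.mp (by omega)) J
    have h3 := ih A' B' (by omega) (by omega)
    refine le_trans ?_ hs
    refine le_trans ?_ (Nat.add_le_add_right h3 _)
    obtain ⟨x, hx⟩ : ∃ x, A'.card = J + x := ⟨A'.card - J, by omega⟩
    obtain ⟨y, hy⟩ : ∃ y, B'.card = J + y := ⟨B'.card - J, by omega⟩
    have e1 : A.card + B.card - (J + 1) = J + 1 + x + y := by omega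
    have e2 : A'.card + B'.card - J = J + x + y := by omega
    have e3 : A.card + B.card - 1 = 2 * J + x + y + 1 := by omega
    rw [e1, e2, e3]
    nlinarith

end Pool.BD
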