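import Pool.Agent.Work.MP_dc37f8_bd.Interface

/-!
# MP_dc37f8_co, second round, block QUO (adapted from the first round by helper83)
-/

set_option autoImplicit false

open Finset

namespace Pool.BD

open Pool.BK

namespace QUO

open Classical in
/-- quotients of `g` and `h` keep the images under `h` of the common points -/
lemma st_quot (P : Finset ℂ) (g h : Gp) :
    ((st P g) ∩ (st P h)).card ≤ (st P (g * h⁻¹)).card := by
  apply Finset.card_le_card_of_injOn (fun p => h p)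
  · intro p hp
    simp only [Finset.coe_inter, Set.mem_inter_iff, Finset.mem_coe, st, Finset.mem_filter] at hp
    rw [Finset.mem_coe, st, Finset.mem_filter]
    refine ⟨hp.2.2, ?_⟩
    show g (h⁻¹ (h p)) ∈ P
    rw [show h⁻¹ (h p) = p from h.symm_apply_apply p]
    exact hp.1.2
  · intro p _ q _ hpq
    exact h.injective hpq

open Classical in
lemma sum_inter (P : Finset ℂ) (G : Finset Gp) :
    (∑ z ∈ G ×ˢ G, (((st P z.1) ∩ (st P z.2)).card : ℝ)) =
      ∑ p ∈ P, ((G.filter (fun g => g p ∈ P)).card : ℝ) ^ 2 := by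
  have h1 : ∀ z : Gp × Gp, (((st P z.1) ∩ (st P z.2)).card : ℝ) =
      ∑ p ∈ P, (if z.1 p ∈ P then (1:ℝ) else 0) * (if z.2 p ∈ P then (1:ℝ) else 0) := by
    intro z
    have : (st P z.1) ∩ (st P z.2) = P.filter (fun p => z.1 p ∈ P ∧ z.2 p ∈ P) := by
      ext p
      simp only [st, Finset.mem_inter, Finset.mem_filter]
      tauto
    rw [this, Finset.card_filter]
    push_cast
    apply Finset.sum_congr rfl
    intro p _
    by_cases a : z.1 p ∈ P <;> by_cases b : z.2 p ∈ P <;> simp [a, b]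
  simp_rw [h1]
  rw [Finset.sum_comm]
  apply Finset.sum_congr rfl
  intro p _
  rw [Finset.card_filter]
  push_cast
  rw [sq, Finset.sum_mul_sum, Finset.sum_product]

open Classical in
lemma sum_st (P : Finset ℂ) (G : Finset Gp) :
    (∑ g ∈ G, ((st P g).card : ℝ)) = ∑ p ∈ P, ((G.filter (fun g => g p ∈ P)).card : ℝ) := by
  simp only [st, Finset.card_filter]
  push_cast
  rw [Finset.sum_comm]

end QUO

open Classical in
theorem stmt_QUO (_hGEO : Pool.BK.Stmt_GEO) : Pool.BD.Stmt_QUO := by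
  intro κ δ ε hκ hδ hε
  have hisoQ : ∀ g h : Gp, IsIso g → IsIso h → IsIso (g * h⁻¹) := by
    intro g h hg hh
    apply _hGEO.2.2.2.2.1 g h⁻¹ hg
    rcases hh with hh | hh
    · exact Or.inl (_hGEO.2.2.1 h hh)
    · exact Or.inr (_hGEO.2.2.2.1 h hh)
  refine ⟨8 * κ / (δ ^ 4 * ε), ⌈4 / δ ^ 2⌉₊ + 1, by positivity, ?_⟩
  intro P hP hn G hG hrich hGn
  set n : ℝ := (P.card : ℝ) with hndef
  have hn1 : (⌈4 / δ ^ 2⌉₊ : ℝ) + 1 ≤ n := by
    rw [hndef]; exact_mod_cast hn
  have hn2 : 4 / δ ^ 2 ≤ n := le_trans (Nat.le_ceil _) (by linarith)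
  have hn4 : 4 ≤ δ ^ 2 * n := by
    rw [div_le_iff₀ (by positivity)] at hn2
    linarith
  have hnpos : 0 < n := by
    have : (0:ℝ) ≤ (⌈4 / δ ^ 2⌉₊ : ℝ) := Nat.cast_nonneg _
    linarith
  set E : Finset (Gp × Gp) := (G ×ˢ G).filter
    (fun z => δ ^ 2 * n / 2 ≤ (((st P z.1) ∩ (st P z.2)).card : ℝ)) with hE
  refine ⟨E.image (fun z => z.1 * z.2⁻¹), ?_, ?_⟩
  · -- upper bound on `U`
    have hU := hP (E.image (fun z => z.1 * z.2⁻¹)) (by
      intro u hu
      rw [Finset.mem_image] at hu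
      obtain ⟨z, hz, rfl⟩ := hu
      rw [hE, Finset.mem_filter, Finset.mem_product] at hz
      exact hisoQ _ _ (hG _ hz.1.1) (hG _ hz.1.2))
    have hlow : ∀ u ∈ E.image (fun z => z.1 * z.2⁻¹),
        δ ^ 4 * n ^ 2 / 8 ≤ ((st P u).card : ℝ) * ((st P u).card - 1) := by
      intro u hu
      rw [Finset.mem_image] at hu
      obtain ⟨z, hz, rfl⟩ := hu
      rw [hE, Finset.mem_filter] at hz
      have h1 : (((st P z.1) ∩ (st P z.2)).card : ℝ) ≤ ((st P (z.1 * z.2⁻¹)).card : ℝ) := by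
        exact_mod_cast QUO.st_quot P z.1 z.2
      have h2 : δ ^ 2 * n / 2 ≤ ((st P (z.1 * z.2⁻¹)).card : ℝ) := le_trans hz.2 h1
      have h3 : δ ^ 2 * n / 4 ≤ ((st P (z.1 * z.2⁻¹)).card : ℝ) - 1 := by linarith
      calc δ ^ 4 * n ^ 2 / 8 = (δ ^ 2 * n / 2) * (δ ^ 2 * n / 4) := by ring
        _ ≤ _ := mul_le_mul h2 h3 (by positivity) (by linarith [h2, hn4])
    have h5 := Finset.card_nsmul_le_sum _ _ _ hlow
    rw [nsmul_eq_mul] at h5
    have h6 : ((E.image (fun z => z.1 * z.2⁻¹)).card : ℝ) * (δ ^ 4 * n ^ 2 / 8) ≤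
        κ * n ^ 3 := le_trans h5 hU
    have h7 : ((E.image (fun z => z.1 * z.2⁻¹)).card : ℝ) * δ ^ 4 ≤ 8 * κ * n := by
      have : (((E.image (fun z => z.1 * z.2⁻¹)).card : ℝ) * δ ^ 4) * (n ^ 2 / 8) ≤
        (8 * κ * n) * (n ^ 2 / 8) := by nlinarith [h6]
      exact le_of_mul_le_mul_right this (by positivity)
    rw [div_mul_eq_mul_div, le_div_iff₀ (by positivity)]
    calc ((E.image (fun z => z.1 * z.2⁻¹)).card : ℝ) * (δ ^ 4 * ε)
        = (((E.image (fun z => z.1 * z.2⁻¹)).card : ℝ) * δ ^ 4) * ε := by ring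
      _ ≤ (8 * κ * n) * ε := mul_le_mul_of_nonneg_right h7 hε.le
      _ = 8 * κ * (ε * n) := by ring
      _ ≤ 8 * κ * G.card := by
          apply mul_le_mul_of_nonneg_left hGn (by positivity)
  · -- lower bound on the number of pairs
    have hsub : E ⊆ (G ×ˢ G).filter (fun z => z.1 * z.2⁻¹ ∈ E.image (fun z => z.1 * z.2⁻¹)) := by
      intro z hz
      rw [Finset.mem_filter]
      exact ⟨(Finset.mem_filter.1 hz).1, Finset.mem_image_of_mem _ hz⟩
    have hcard : (E.card : ℝ) ≤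
        (((G ×ˢ G).filter (fun z => z.1 * z.2⁻¹ ∈ E.image (fun z => z.1 * z.2⁻¹))).card : ℝ) := by
      exact_mod_cast Finset.card_le_card hsub
    refine le_trans ?_ hcard
    -- Cauchy-Schwarz
    have hs1 : δ * n * G.card ≤ ∑ g ∈ G, ((st P g).card : ℝ) := by
      have := Finset.card_nsmul_le_sum G (fun g => ((st P g).card : ℝ)) (δ * n) hrich
      rw [nsmul_eq_mul] at this
      linarith
    have hcs : (∑ p ∈ P, ((G.filter (fun g => g p ∈ P)).card : ℝ)) ^ 2 ≤
        n * ∑ p ∈ P, ((G.filter (fun g => g p ∈ P)).card : ℝ) ^ 2 :=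
      sq_sum_le_card_mul_sum_sq
    rw [← QUO.sum_st, ← QUO.sum_inter] at hcs
    have hs2 : (δ * n * G.card) ^ 2 ≤ (∑ g ∈ G, ((st P g).card : ℝ)) ^ 2 := by
      apply pow_le_pow_left₀ (by positivity) hs1
    have hs3 : δ ^ 2 * n * (G.card : ℝ) ^ 2 ≤
        ∑ z ∈ G ×ˢ G, (((st P z.1) ∩ (st P z.2)).card : ℝ) := by
      have h := le_trans hs2 hcs
      have h' : (δ ^ 2 * n * (G.card : ℝ) ^ 2) * n ≤
        (∑ z ∈ G ×ˢ G, (((st P z.1) ∩ (st P z.2)).card : ℝ)) * n := by nlinarith [h]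
      exact le_of_mul_le_mul_right h' hnpos
    have hs4 : ∑ z ∈ G ×ˢ G, (((st P z.1) ∩ (st P z.2)).card : ℝ) ≤
        n * E.card + δ ^ 2 * n / 2 * (G.card : ℝ) ^ 2 := by
      rw [← Finset.sum_filter_add_sum_filter_not (G ×ˢ G)
        (fun z => δ ^ 2 * n / 2 ≤ (((st P z.1) ∩ (st P z.2)).card : ℝ))]
      apply add_le_add
      · have : ∀ z ∈ E, (((st P z.1) ∩ (st P z.2)).card : ℝ) ≤ n := by
          intro z _
          have h1 : ((st P z.1) ∩ (st P z.2)).card ≤ P.card := by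
            apply Finset.card_le_card
            intro p hp
            exact (Finset.mem_filter.1 (Finset.mem_inter.1 hp).1).1
          rw [hndef]
          exact_mod_cast h1
        have h2 := Finset.sum_le_card_nsmul E _ n this
        rw [nsmul_eq_mul] at h2
        rw [hE] at h2 ⊢
        linarith
      · have : ∀ z ∈ (G ×ˢ G).filter
            (fun z => ¬ δ ^ 2 * n / 2 ≤ (((st P z.1) ∩ (st P z.2)).card : ℝ)),
            (((st P z.1) ∩ (st P z.2)).card : ℝ) ≤ δ ^ 2 * n / 2 := by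
          intro z hz
          exact (not_le.1 (Finset.mem_filter.1 hz).2).le
        have h2 := Finset.sum_le_card_nsmul _ _ _ this
        rw [nsmul_eq_mul] at h2
        refine le_trans h2 ?_
        rw [mul_comm]
        apply mul_le_mul_of_nonneg_left _ (by positivity)
        have h3 : ((G ×ˢ G).filter
            (fun z => ¬ δ ^ 2 * n / 2 ≤ (((st P z.1) ∩ (st P z.2)).card : ℝ))).card ≤
            G.card ^ 2 := by
          refine le_trans (Finset.card_filter_le _ _) ?_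
          rw [Finset.card_product, sq]
        exact_mod_cast h3
    have h8 : (δ ^ 2 / 2 * (G.card : ℝ) ^ 2) * n ≤ (E.card : ℝ) * n := by nlinarith [hs3, hs4]
    exact le_of_mul_le_mul_right h8 hnpos

end Pool.BD
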