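import Pool.Agent.Work.MP_dc37f8_bd.Interface

set_option autoImplicit false

open Finset

namespace Pool.BD

open Pool.BK

namespace RLC

theorem on_self (p v : ℂ) : On (p, v) p := ⟨0, by simp⟩

/-- a line is determined by two of its points -/
theorem on_of_two {l l' : ℂ × ℂ} (hl : l.2 ≠ 0) (hl' : l'.2 ≠ 0) {a b : ℂ} (hab : a ≠ b)
    (ha : On l a) (hb : On l b) (ha' : On l' a) (hb' : On l' b) {y : ℂ} (hy : On l y) :
    On l' y := by
  obtain ⟨s, hs⟩ := ha
  obtain ⟨t, ht⟩ := hb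
  obtain ⟨s', hs'⟩ := ha'
  obtain ⟨t', ht'⟩ := hb'
  obtain ⟨r, hr⟩ := hy
  have h1 : s ≠ t := by
    rintro rfl
    exact hab (hs.trans ht.symm)
  have h1' : ((s - t : ℝ) : ℂ) ≠ 0 := by
    rw [Ne, Complex.ofReal_eq_zero]
    exact sub_ne_zero.2 h1
  -- l.2 = (s' - t')/(s - t) l'.2
  have h2 : ((s - t : ℝ) : ℂ) * l.2 = ((s' - t' : ℝ) : ℂ) * l'.2 := by
    have e1 : a - b = ((s - t : ℝ) : ℂ) * l.2 := by rw [hs, ht]; push_cast; ring
    have e2 : a - b = ((s' - t' : ℝ) : ℂ) * l'.2 := by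
      rw [hs', ht']; push_cast; ring
    rw [← e1, e2]
  refine ⟨s' + (r - s) * ((s' - t') / (s - t)), ?_⟩
  have h3 : l.2 = ((s' - t' : ℝ) : ℂ) / ((s - t : ℝ) : ℂ) * l'.2 := by
    rw [div_mul_eq_mul_div, eq_div_iff h1', mul_comm, h2]
  have h4 : y = a + ((r - s : ℝ) : ℂ) * l.2 := by rw [hr, hs]; push_cast; ring
  rw [h4, hs', h3]
  push_cast
  ring

theorem pts_eq {P : Finset ℂ} {l l' : ℂ × ℂ} (hl : l.2 ≠ 0) (hl' : l'.2 ≠ 0) {a b : ℂ}
    (hab : a ≠ b) (ha : On l a) (hb : On l b) (ha' : On l' a) (hb' : On l' b) :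
    pts P l = pts P l' := by
  classical
  ext y
  simp only [pts, mem_filter]
  exact ⟨fun h => ⟨h.1, on_of_two hl hl' hab ha hb ha' hb' h.2⟩,
    fun h => ⟨h.1, on_of_two hl' hl hab ha' hb' ha hb h.2⟩⟩

/-- a line and a circle have at most two common points -/
theorem circle_line (P : Finset ℂ) {l : ℂ × ℂ} (hl : l.2 ≠ 0) (c : ℂ) (ρ : ℝ) :
    ((pts P l).filter (fun y => dist y c = ρ)).card ≤ 2 := by
  classical
  by_contra hcon
  rw [not_le, two_lt_card] at hcon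
  obtain ⟨y₁, h₁, y₂, h₂, y₃, h₃, h12, h13, h23⟩ := hcon
  rw [mem_filter, pts, mem_filter] at h₁ h₂ h₃
  obtain ⟨⟨-, s₁, e₁⟩, d₁⟩ := h₁
  obtain ⟨⟨-, s₂, e₂⟩, d₂⟩ := h₂
  obtain ⟨⟨-, s₃, e₃⟩, d₃⟩ := h₃
  have key : ∀ (s : ℝ) (y : ℂ), y = l.1 + s * l.2 → dist y c = ρ →
      (l.2.re ^ 2 + l.2.im ^ 2) * s ^ 2 + 2 * ((l.1.re - c.re) * l.2.re +
        (l.1.im - c.im) * l.2.im) * s + ((l.1.re - c.re) ^ 2 + (l.1.im - c.im) ^ 2 - ρ ^ 2) = 0 := by
    intro s y hy hd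
    have e1 : dist y c ^ 2 = (y.re - c.re) ^ 2 + (y.im - c.im) ^ 2 := by
      rw [Complex.dist_eq, ← Complex.normSq_eq_norm_sq, Complex.normSq_apply]
      simp
      ring
    rw [hd] at e1
    have e2 : y.re = l.1.re + s * l.2.re := by rw [hy]; simp
    have e3 : y.im = l.1.im + s * l.2.im := by rw [hy]; simp
    rw [e2, e3] at e1
    linarith [e1]
  obtain ⟨A, hA⟩ : ∃ A : ℝ, A = l.2.re ^ 2 + l.2.im ^ 2 := ⟨_, rfl⟩
  obtain ⟨B, hB⟩ : ∃ B : ℝ, B = 2 * ((l.1.re - c.re) * l.2.re + (l.1.im - c.im) * l.2.im) :=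
    ⟨_, rfl⟩
  obtain ⟨D, hD⟩ : ∃ D : ℝ, D = (l.1.re - c.re) ^ 2 + (l.1.im - c.im) ^ 2 - ρ ^ 2 := ⟨_, rfl⟩
  rw [← hA, ← hB, ← hD] at key
  have hA0 : A ≠ 0 := by
    rw [hA]
    intro h
    apply hl
    have h1 : l.2.re = 0 := by nlinarith [sq_nonneg l.2.re, sq_nonneg l.2.im]
    have h2 : l.2.im = 0 := by nlinarith [sq_nonneg l.2.re, sq_nonneg l.2.im]
    exact Complex.ext h1 h2
  have k₁ := key s₁ y₁ e₁ d₁
  have k₂ := key s₂ y₂ e₂ d₂
  have k₃ := key s₃ y₃ e₃ d₃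
  have n12 : s₁ ≠ s₂ := by rintro rfl; exact h12 (e₁.trans e₂.symm)
  have n13 : s₁ ≠ s₃ := by rintro rfl; exact h13 (e₁.trans e₃.symm)
  have n23 : s₂ ≠ s₃ := by rintro rfl; exact h23 (e₂.trans e₃.symm)
  have m12 : A * (s₁ + s₂) + B = 0 := by
    have : (s₁ - s₂) * (A * (s₁ + s₂) + B) = 0 := by linear_combination k₁ - k₂
    rcases mul_eq_zero.1 this with h | h
    · exact absurd (sub_eq_zero.1 h) n12
    · exact h
  have m13 : A * (s₁ + s₃) + B = 0 := by
    have : (s₁ - s₃) * (A * (s₁ + s₃) + B) = 0 := by linear_combination k₁ - k₃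
    rcases mul_eq_zero.1 this with h | h
    · exact absurd (sub_eq_zero.1 h) n13
    · exact h
  have : A * (s₂ - s₃) = 0 := by linear_combination m12 - m13
  rcases mul_eq_zero.1 this with h | h
  · exact hA0 h
  · exact n23 (sub_eq_zero.1 h)

/-- sets with small pairwise intersections -/
theorem union_lower (F : Finset (Finset ℂ))
    (h : ∀ S ∈ F, ∀ S' ∈ F, S ≠ S' → (S ∩ S').card ≤ 1) :
    ∑ S ∈ F, S.card ≤ (F.biUnion id).card + F.card ^ 2 := by
  classical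
  induction F using Finset.induction_on with
  | empty => simp
  | insert S F hS ih =>
    have ih' := ih (fun A hA B hB => h A (mem_insert_of_mem hA) B (mem_insert_of_mem hB))
    have h1 : ((F.biUnion id) ∩ S).card ≤ F.card := by
      have e1 : (F.biUnion id) ∩ S = F.biUnion (fun A => A ∩ S) := by
        ext y
        simp only [mem_inter, mem_biUnion, id]
        constructor
        · rintro ⟨⟨A, hA, hy⟩, hyS⟩
          exact ⟨A, hA, hy, hyS⟩
        · rintro ⟨A, hA, hy, hyS⟩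
          exact ⟨⟨A, hA, hy⟩, hyS⟩
      rw [e1]
      refine (card_biUnion_le_card_mul F _ 1 (fun A hA => ?_)).trans (by rw [mul_one])
      refine h A (mem_insert_of_mem hA) S (mem_insert_self _ _) ?_
      rintro rfl
      exact hS hA
    have h2 : ((insert S F).biUnion id).card + ((F.biUnion id) ∩ S).card =
        (F.biUnion id).card + S.card := by
      rw [biUnion_insert, union_comm, id]
      exact card_union_add_card_inter _ _
    rw [sum_insert hS, card_insert_of_notMem hS]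
    have h3 : (F.card + 1) ^ 2 = F.card ^ 2 + 2 * F.card + 1 := by ring
    rw [h3]
    omega

open Classical in
/-- the rich lines, as sets of points -/
noncomputable def F (P : Finset ℂ) (β : ℝ) : Finset (Finset ℂ) :=
  ((P ×ˢ P).filter (fun z => z.1 ≠ z.2 ∧
    β * P.card ≤ ((pts P (z.1, z.2 - z.1)).card : ℝ))).image (fun z => pts P (z.1, z.2 - z.1))

theorem mem_F {P : Finset ℂ} {β : ℝ} {S : Finset ℂ} (h : S ∈ F P β) :
    ∃ p q : ℂ, q - p ≠ 0 ∧ S = pts P (p, q - p) ∧ β * P.card ≤ (S.card : ℝ) := by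
  classical
  rw [F, mem_image] at h
  obtain ⟨z, hz, rfl⟩ := h
  rw [mem_filter] at hz
  exact ⟨z.1, z.2, sub_ne_zero.2 (Ne.symm hz.2.1), rfl, hz.2.2⟩

theorem lam_F {P : Finset ℂ} {β : ℝ} (hn : 2 ≤ β * P.card) {p : ℂ} (hp : p ∈ Lam P β) :
    ∃ S ∈ F P β, p ∈ S := by
  classical
  rw [Lam, mem_filter] at hp
  obtain ⟨hpP, v, hv, hc⟩ := hp
  have h2 : 1 < (pts P (p, v)).card := by
    have : (1 : ℝ) < (pts P (p, v)).card := by linarith
    exact_mod_cast this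
  have hpm : p ∈ pts P (p, v) := mem_filter.2 ⟨hpP, on_self p v⟩
  obtain ⟨q, hq, hqp⟩ := exists_mem_ne h2 p
  have hq' := mem_filter.1 hq
  have hqp' : q - p ≠ 0 := sub_ne_zero.2 hqp
  have e1 : pts P (p, v) = pts P (p, q - p) :=
    pts_eq (l := (p, v)) (l' := (p, q - p)) hv hqp' (Ne.symm hqp) (on_self p v) hq'.2
      (on_self p (q - p)) ⟨1, by simp⟩
  refine ⟨pts P (p, q - p), ?_, by rw [← e1]; exact hpm⟩
  rw [F, mem_image]
  refine ⟨(p, q), mem_filter.2 ⟨mem_product.2 ⟨hpP, hq'.1⟩, Ne.symm hqp, ?_⟩, rfl⟩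
  show β * P.card ≤ ((pts P (p, q - p)).card : ℝ)
  rw [← e1]
  exact hc

theorem F_inter {P : Finset ℂ} {β : ℝ} : ∀ S ∈ F P β, ∀ S' ∈ F P β, S ≠ S' →
    (S ∩ S').card ≤ 1 := by
  classical
  intro S hS S' hS' hne
  by_contra hcon
  rw [not_le, one_lt_card] at hcon
  obtain ⟨a, ha, b, hb, hab⟩ := hcon
  obtain ⟨p, q, hpq, rfl, -⟩ := mem_F hS
  obtain ⟨p', q', hpq', rfl, -⟩ := mem_F hS'
  rw [mem_inter] at ha hb
  exact hne (pts_eq hpq hpq' hab (mem_filter.1 ha.1).2 (mem_filter.1 hb.1).2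
    (mem_filter.1 ha.2).2 (mem_filter.1 hb.2).2)

theorem F_card {P : Finset ℂ} {β : ℝ} (hβ : 0 < β) (hn : (⌈2 / β⌉₊ + 1) ^ 2 < P.card) :
    (F P β).card ≤ ⌈2 / β⌉₊ := by
  classical
  by_contra hcon
  rw [not_le] at hcon
  obtain ⟨F', hF', hc⟩ := exists_subset_card_eq (Nat.succ_le_of_lt hcon)
  have h1 := union_lower F' (fun S hS S' hS' => F_inter S (hF' hS) S' (hF' hS'))
  have h2 : F'.biUnion id ⊆ P := by
    intro y hy
    rw [mem_biUnion] at hy
    obtain ⟨S, hS, hy⟩ := hy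
    obtain ⟨p, q, -, rfl, -⟩ := mem_F (hF' hS)
    exact (mem_filter.1 hy).1
  have h3 := card_le_card h2
  have h4 : (F'.card : ℝ) * (β * P.card) ≤ ((∑ S ∈ F', S.card : ℕ) : ℝ) := by
    push_cast
    rw [← nsmul_eq_mul, ← sum_const]
    refine sum_le_sum (fun S hS => ?_)
    obtain ⟨p, q, -, -, h⟩ := mem_F (hF' hS)
    exact h
  have h5 : ((∑ S ∈ F', S.card : ℕ) : ℝ) ≤ P.card + (F'.card : ℝ) ^ 2 := by
    have : ∑ S ∈ F', S.card ≤ P.card + F'.card ^ 2 := by omega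
    exact_mod_cast this
  have hc' : F'.card = ⌈2 / β⌉₊ + 1 := hc
  have h6 : (2 : ℝ) ≤ F'.card * β := by
    rw [hc', ← div_le_iff₀ hβ]
    push_cast
    have := Nat.le_ceil (2 / β)
    linarith
  have h7 : ((F'.card : ℝ)) ^ 2 < P.card := by
    rw [hc']
    exact_mod_cast hn
  have h8 : (0 : ℝ) ≤ P.card := Nat.cast_nonneg _
  have h9 := mul_le_mul_of_nonneg_right h6 h8
  have h10 : (F'.card : ℝ) * (β * P.card) = F'.card * β * P.card := by ring
  rw [h10] at h4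
  linarith

end RLC

open RLC in
theorem stmt_RLC : Stmt_RLC := by
  classical
  intro β L hβ
  set m : ℕ := ⌈2 / β⌉₊ with hm
  refine ⟨m + 2 * L * (⌈1 / β⌉₊ * (m * 2)), (m + 1) ^ 2 + 1, ?_⟩
  intro P 𝒬 hn hQ
  have hn' : (m + 1) ^ 2 < P.card := hn
  have hF := F_card hβ hn'
  have hP0 : (0 : ℝ) < P.card := by
    have : 0 < P.card := lt_of_le_of_lt (Nat.zero_le _) hn'
    exact_mod_cast this
  have h2 : 2 ≤ β * P.card := by
    have e1 : (2 / β : ℝ) ≤ m := Nat.le_ceil _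
    have e2 : (m : ℝ) ≤ P.card := by
      have : m ≤ P.card := by nlinarith
      exact_mod_cast this
    have e3 := e1.trans e2
    rw [div_le_iff₀ hβ] at e3
    linarith
  constructor
  · -- the centres
    set 𝒞 : Finset ℂ := 𝒬.image Prod.fst ∪ 𝒬.image Prod.snd with h𝒞
    have hC : 𝒞.card ≤ 2 * L := by
      refine (card_union_le _ _).trans ?_
      have e1 := card_image_le (s := 𝒬) (f := Prod.fst)
      have e2 := card_image_le (s := 𝒬) (f := Prod.snd)
      omega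
    have hI : ∀ c, ((UP.R P (β * P.card) c).image (fun p => dist p c)).card ≤ ⌈1 / β⌉₊ := by
      intro c
      have e1 := UP.radii_le P (b := β * P.card) c
      have e2 : ((((UP.R P (β * P.card) c).image (fun p => dist p c)).card : ℝ)) ≤ 1 / β := by
        rw [le_div_iff₀ hβ]
        have e3 : (((UP.R P (β * P.card) c).image (fun p => dist p c)).card : ℝ) * β * P.card ≤
            1 * P.card := by
          rw [mul_assoc, one_mul]
          exact e1
        exact le_of_mul_le_mul_right e3 hP0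
      exact_mod_cast e2.trans (Nat.le_ceil _)
    have hsub : Rr P β 𝒬 ∩ Lam P β ⊆ 𝒞.biUnion (fun c =>
        ((UP.R P (β * P.card) c).image (fun p => dist p c)).biUnion (fun ρ =>
          (F P β).biUnion (fun S => S.filter (fun y => dist y c = ρ)))) := by
      intro p hp
      rw [mem_inter] at hp
      obtain ⟨S, hS, hpS⟩ := lam_F h2 hp.2
      have h3 := hp.1
      rw [Rr, mem_filter] at h3
      obtain ⟨hpP, z, hz, h4⟩ := h3
      have h5 : ∃ c ∈ 𝒞, p ∈ UP.R P (β * P.card) c := by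
        rcases h4 with h4 | h4
        · exact ⟨z.1, mem_union_left _ (mem_image_of_mem _ hz), h4⟩
        · exact ⟨z.2, mem_union_right _ (mem_image_of_mem _ hz), h4⟩
      obtain ⟨c, hc, hpc⟩ := h5
      rw [mem_biUnion]
      refine ⟨c, hc, ?_⟩
      rw [mem_biUnion]
      refine ⟨dist p c, mem_image_of_mem (fun p => dist p c) hpc, ?_⟩
      rw [mem_biUnion]
      exact ⟨S, hS, mem_filter.2 ⟨hpS, rfl⟩⟩
    refine (card_le_card hsub).trans ?_
    refine (card_biUnion_le_card_mul _ _ (⌈1 / β⌉₊ * (m * 2)) (fun c _ => ?_)).trans ?_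
    · refine (card_biUnion_le_card_mul _ _ (m * 2) (fun ρ _ => ?_)).trans
        (Nat.mul_le_mul_right _ (hI c))
      refine (card_biUnion_le_card_mul _ _ 2 (fun S hS => ?_)).trans (Nat.mul_le_mul_right _ hF)
      obtain ⟨p, q, hpq, rfl, -⟩ := mem_F hS
      exact circle_line P hpq c ρ
    · exact (Nat.mul_le_mul_right _ hC).trans (Nat.le_add_left _ _)
  · -- the cover
    have h3 : ∀ S ∈ F P β, ∃ l : ℂ × ℂ, l.2 ≠ 0 ∧ S = pts P l := by
      intro S hS
      obtain ⟨p, q, hpq, h, -⟩ := mem_F hS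
      exact ⟨(p, q - p), hpq, h⟩
    choose! f hf1 hf2 using h3
    refine ⟨(F P β).image f, ?_, ?_, ?_⟩
    · exact (card_image_le.trans hF).trans (Nat.le_add_right _ _)
    · intro l hl
      obtain ⟨S, hS, rfl⟩ := mem_image.1 hl
      exact hf1 S hS
    · intro y hy
      obtain ⟨S, hS, hyS⟩ := lam_F h2 hy
      refine ⟨f S, mem_image_of_mem _ hS, ?_⟩
      rw [hf2 S hS] at hyS
      exact (mem_filter.1 hyS).2

end Pool.BD
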