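import Pool.Agent.Work.MP_dc37f8_bd.Interface

/-!
# MP_dc37f8_co, second round, block SEL (helper83, adapted from the first round)
-/

set_option autoImplicit false

open Finset

namespace Pool.BD

open Pool.BK

namespace SEL

open Classical in
/-- the uncovered elements of `G` -/
noncomputable def unc (G : Finset Gp) (Q : Finset (ℂ × ℂ)) (W : Finset Gp) : Finset Gp :=
  G.filter (fun g => (∀ z ∈ Q, g z.1 ≠ z.2) ∧ ∀ h ∈ W, ¬ IsTr (g * h⁻¹))

lemma mem_unc {G : Finset Gp} {Q : Finset (ℂ × ℂ)} {W : Finset Gp} {g : Gp} :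
    g ∈ unc G Q W ↔ g ∈ G ∧ (∀ z ∈ Q, g z.1 ≠ z.2) ∧ ∀ h ∈ W, ¬ IsTr (g * h⁻¹) := by
  classical
  simp only [unc, Finset.mem_filter]

lemma card_le_unc {G : Finset Gp} {Q : Finset (ℂ × ℂ)} {W : Finset Gp} (p : Gp → Prop)
    (inst : DecidablePred p)
    (hp : ∀ g, p g → (∀ z ∈ Q, g z.1 ≠ z.2) ∧ ∀ h ∈ W, ¬ IsTr (g * h⁻¹)) :
    (@Finset.filter Gp p inst G).card ≤ (unc G Q W).card := by
  apply Finset.card_le_card
  intro g hg
  exact mem_unc.2 ⟨(Finset.mem_filter.1 hg).1, hp g (Finset.mem_filter.1 hg).2⟩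

end SEL

open Classical in
theorem stmt_SEL (hSTR : Pool.BD.Stmt_STR) : Pool.BD.Stmt_SEL := by
  intro κ δ ε hκ hδ hε
  obtain ⟨ε', n₁, hε', hS⟩ := hSTR κ δ ε hκ hδ hε
  refine ⟨⌈2 * κ / (δ ^ 2 * ε')⌉₊ + 1, n₁ + ⌈2 / δ⌉₊ + 1, ?_⟩
  intro P hP hn G hG hrich
  set n : ℝ := (P.card : ℝ) with hndef
  have hn1 : (n₁ : ℝ) + (⌈2 / δ⌉₊ : ℝ) + 1 ≤ n := by
    rw [hndef]; exact_mod_cast hn
  have hnn : (0:ℝ) ≤ (n₁ : ℝ) := Nat.cast_nonneg _
  have hnn' : (0:ℝ) ≤ (⌈2 / δ⌉₊ : ℝ) := Nat.cast_nonneg _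
  have hn2 : 2 / δ ≤ n := le_trans (Nat.le_ceil _) (by linarith)
  have hn4 : 2 ≤ δ * n := by
    rw [div_le_iff₀ hδ] at hn2
    linarith
  have hnpos : 0 < n := by linarith
  -- the number of rich isometries
  have hGn : (G.card : ℝ) * δ ^ 2 ≤ 2 * κ * n := by
    have hU := hP G hG
    have hlow : ∀ u ∈ G, δ ^ 2 * n ^ 2 / 2 ≤ ((st P u).card : ℝ) * ((st P u).card - 1) := by
      intro u hu
      have h2 : δ * n ≤ ((st P u).card : ℝ) := hrich u hu
      have h3 : δ * n / 2 ≤ ((st P u).card : ℝ) - 1 := by linarith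
      calc δ ^ 2 * n ^ 2 / 2 = (δ * n) * (δ * n / 2) := by ring
        _ ≤ _ := mul_le_mul h2 h3 (by positivity) (by linarith [h2, hn4])
    have h5 := Finset.card_nsmul_le_sum _ _ _ hlow
    rw [nsmul_eq_mul] at h5
    have h6 : (G.card : ℝ) * (δ ^ 2 * n ^ 2 / 2) ≤ κ * n ^ 3 := le_trans h5 hU
    have : ((G.card : ℝ) * δ ^ 2) * (n ^ 2 / 2) ≤ (2 * κ * n) * (n ^ 2 / 2) := by
      nlinarith [h6]
    exact le_of_mul_le_mul_right this (by positivity)
  -- greedy selection
  have key : ∀ m : ℕ, ∃ (Q : Finset (ℂ × ℂ)) (W : Finset Gp), Q.card ≤ m ∧ W.card ≤ m ∧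
      (∀ h ∈ W, IsIso h) ∧
      (((SEL.unc G Q W).card : ℝ) ≤ ε * n ∨
        ((SEL.unc G Q W).card : ℝ) + m * (ε' * n) ≤ G.card) := by
    intro m
    induction m with
    | zero =>
      refine ⟨∅, ∅, by simp, by simp, by simp, Or.inr ?_⟩
      have h0 : (SEL.unc G ∅ ∅).card ≤ G.card := by
        apply Finset.card_le_card
        intro g hg
        exact (SEL.mem_unc.1 hg).1
      have h0' : ((SEL.unc G ∅ ∅).card : ℝ) ≤ G.card := by exact_mod_cast h0
      push_cast
      linarith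
    | succ m ih =>
      obtain ⟨Q, W, hQ, hW, hWI, h⟩ := ih
      rcases h with h | h
      · exact ⟨Q, W, by omega, by omega, hWI, Or.inl h⟩
      by_cases hle : ((SEL.unc G Q W).card : ℝ) ≤ ε * n
      · exact ⟨Q, W, by omega, by omega, hWI, Or.inl hle⟩
      rw [not_le] at hle
      have hsp : ∀ (p : Gp → Prop) (_ : DecidablePred p),
          ε' * n ≤ (((SEL.unc G Q W).filter p).card : ℝ) →
          ((((SEL.unc G Q W).filter (fun g => ¬ p g)).card : ℝ)) + ((m : ℝ) + 1) * (ε' * n) ≤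
            G.card := by
        intro p _ hc
        have hadd := Finset.card_filter_add_card_filter_not (s := SEL.unc G Q W) p
        have hadd' : ((((SEL.unc G Q W).filter p).card : ℝ)) +
            ((((SEL.unc G Q W).filter (fun g => ¬ p g)).card : ℝ)) =
            ((SEL.unc G Q W).card : ℝ) := by exact_mod_cast hadd
        linarith
      rcases hS P hP (by omega) (SEL.unc G Q W)
        (fun g hg => hG g (SEL.mem_unc.1 hg).1)
        (fun g hg => hrich g (SEL.mem_unc.1 hg).1) (by rw [← hndef]; exact hle.le)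
        with ⟨c, c', hc⟩ | ⟨h', hh', hc⟩
      · rw [← hndef] at hc
        refine ⟨insert (c, c') Q, W, (Finset.card_insert_le _ _).trans (by omega), by omega,
          hWI, Or.inr ?_⟩
        have hsplit : SEL.unc G (insert (c, c') Q) W =
            (SEL.unc G Q W).filter (fun g => ¬ g c = c') := by
          ext g
          simp only [Finset.mem_filter, SEL.mem_unc, Finset.mem_insert, forall_eq_or_imp]
          tauto
        rw [hsplit]
        push_cast
        exact hsp (fun g => g c = c') _ hc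
      · rw [← hndef] at hc
        refine ⟨Q, insert h' W, by omega, (Finset.card_insert_le _ _).trans (by omega),
          ?_, Or.inr ?_⟩
        · intro h hh
          rw [Finset.mem_insert] at hh
          rcases hh with rfl | hh
          · exact hG _ (SEL.mem_unc.1 hh').1
          · exact hWI h hh
        have hsplit : SEL.unc G Q (insert h' W) =
            (SEL.unc G Q W).filter (fun g => ¬ IsTr (g * h'⁻¹)) := by
          ext g
          simp only [Finset.mem_filter, SEL.mem_unc, Finset.mem_insert, forall_eq_or_imp]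
          tauto
        rw [hsplit]
        push_cast
        exact hsp (fun g => IsTr (g * h'⁻¹)) _ hc
  obtain ⟨Q, W, hQ, hW, hWI, h⟩ := key (⌈2 * κ / (δ ^ 2 * ε')⌉₊ + 1)
  refine ⟨Q, W, hQ, hW, hWI, ?_⟩
  rcases h with h | h
  · refine le_trans ?_ h
    exact Nat.cast_le.2 (SEL.card_le_unc _ _ (fun g hg => hg))
  · exfalso
    have h1 : 2 * κ / (δ ^ 2 * ε') ≤ (⌈2 * κ / (δ ^ 2 * ε')⌉₊ : ℝ) :=
      Nat.le_ceil _
    rw [div_le_iff₀ (by positivity)] at h1
    push_cast at h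
    have h0 : (0:ℝ) ≤ ((SEL.unc G Q W).card : ℝ) := Nat.cast_nonneg _
    have h2 : ((⌈2 * κ / (δ ^ 2 * ε')⌉₊ : ℝ) + 1) * (ε' * n) * δ ^ 2 ≤
        2 * κ * n := by
      refine le_trans ?_ hGn
      apply mul_le_mul_of_nonneg_right _ (by positivity)
      linarith
    have h3 : 2 * κ * n ≤
        (⌈2 * κ / (δ ^ 2 * ε')⌉₊ : ℝ) * (δ ^ 2 * ε') * n :=
      mul_le_mul_of_nonneg_right h1 hnpos.le
    have h4 : 0 < ε' * n * δ ^ 2 := by positivity
    nlinarith [h2, h3, h4]

end Pool.BD
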