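import Pool.Agent.Work.MP_dc37f8_bd.Interface

/-!
# Block ZK: the truncated number of translation classes of triples
-/

set_option autoImplicit false

open Finset

open scoped Pointwise

namespace Pool.BD.ZK

lemma sum_rep (A B : Finset ℂ) (T : Finset ℂ) (hT : B - A ⊆ T) :
    ∑ t ∈ T, rep A B t = A.card * B.card := by
  classical
  have h1 : ∀ t, rep A B t = ∑ a ∈ A, if a + t ∈ B then 1 else 0 := by
    intro t
    unfold rep
    rw [Finset.card_filter]
  simp only [h1]
  rw [Finset.sum_comm]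
  have h2 : ∀ a ∈ A, ∑ t ∈ T, (if a + t ∈ B then 1 else 0) = B.card := by
    intro a ha
    rw [← Finset.card_filter]
    apply Finset.card_bij (fun t _ => a + t)
    · intro t ht
      exact (Finset.mem_filter.mp ht).2
    · intro t _ t' _ h
      exact add_left_cancel h
    · intro b hb
      refine ⟨b - a, ?_, by ring⟩
      rw [Finset.mem_filter]
      exact ⟨hT (Finset.sub_mem_sub hb ha), by rw [add_sub_cancel]; exact hb⟩
  rw [Finset.sum_congr rfl h2]
  simp

open Classical in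
lemma rep3_eq (A : Finset ℂ) (u v : ℂ) :
    rep3 A (u, v) = rep (A.filter (fun p => p + u ∈ A)) A v := by
  unfold rep3 rep
  rw [Finset.filter_filter]

lemma rep_le (A B : Finset ℂ) (t : ℂ) : rep A B t ≤ A.card := by
  unfold rep
  exact Finset.card_filter_le _ _

open Classical in
lemma one_u (hP : Stmt_POLL) (A : Finset ℂ) (J : ℕ) (hJ : J ≤ A.card) (u : ℂ) :
    A.card * (min (rep A A u) J) + J * (rep A A u - min (rep A A u) J) ≤
      ∑ v ∈ A - A, min (rep3 A (u, v)) J := by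
  set Au := A.filter (fun p => p + u ∈ A) with hAu
  have hr : rep A A u = Au.card := rfl
  simp only [rep3_eq, ← hAu]
  have hsub : A - Au ⊆ A - A := Finset.sub_subset_sub_left (Finset.filter_subset _ _)
  rcases le_or_gt J Au.card with h | h
  · have h1 := hP Au A J h hJ
    have h2 : ∑ v ∈ A - Au, min (rep Au A v) J ≤ ∑ v ∈ A - A, min (rep Au A v) J :=
      Finset.sum_le_sum_of_subset hsub
    refine le_trans (le_trans ?_ h1) h2
    rw [hr, min_eq_right h]
    obtain ⟨k, hk⟩ := Nat.exists_eq_add_of_le h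
    rw [hk]
    have e1 : J + k - J = k := by omega
    have e2 : J + k + A.card - J = k + A.card := by omega
    rw [e1, e2]
    apply le_of_eq; ring
  · have h1 : ∀ v ∈ A - A, min (rep Au A v) J = rep Au A v := by
      intro v _
      apply min_eq_left
      exact (rep_le Au A v).trans h.le
    rw [Finset.sum_congr rfl h1, sum_rep Au A (A - A) hsub, hr, min_eq_left h.le]
    simp [mul_comm]

end Pool.BD.ZK

namespace Pool.BD

theorem stmt_ZK (hP : Stmt_POLL) : Stmt_ZK := by
  classical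
  intro A J hJ
  set n := A.card with hn
  have h1 : ∀ u : ℂ, (n : ℝ) * (min (rep A A u) J : ℕ) +
      J * ((rep A A u : ℝ) - (min (rep A A u) J : ℕ)) ≤
      ∑ v ∈ A - A, ((min (rep3 A (u, v)) J : ℕ) : ℝ) := by
    intro u
    have := ZK.one_u hP A J hJ u
    have h2 : ((A.card * (min (rep A A u) J) + J * (rep A A u - min (rep A A u) J) : ℕ) : ℝ) ≤
      ((∑ v ∈ A - A, min (rep3 A (u, v)) J : ℕ) : ℝ) := by exact_mod_cast this
    push_cast [Nat.cast_sub (min_le_left (rep A A u) J)] at h2 ⊢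
    exact h2
  set S : ℝ := ∑ u ∈ A - A, ((min (rep A A u) J : ℕ) : ℝ) with hS
  have hS1 : (J : ℝ) * (2 * n - J) ≤ S := by
    have h2 := hP A A J hJ hJ
    have h3 : ((J * (A.card + A.card - J) : ℕ) : ℝ) ≤
      ((∑ t ∈ A - A, min (rep A A t) J : ℕ) : ℝ) := by exact_mod_cast h2
    push_cast [Nat.cast_sub (show J ≤ A.card + A.card by omega)] at h3
    rw [hS]
    push_cast
    calc (J : ℝ) * (2 * n - J) = J * (A.card + A.card - J) := by rw [hn]; ring
      _ ≤ _ := h3
  have hR : ∑ u ∈ A - A, (rep A A u : ℝ) = (n : ℝ) ^ 2 := by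
    have h2 := ZK.sum_rep A A (A - A) (Finset.Subset.refl _)
    have h3 : ((∑ t ∈ A - A, rep A A t : ℕ) : ℝ) = ((A.card * A.card : ℕ) : ℝ) := by rw [h2]
    push_cast at h3
    rw [h3, hn]; ring
  have h4 : ∑ z ∈ (A - A) ×ˢ (A - A), (min (rep3 A z) J : ℝ) =
      ∑ u ∈ A - A, ∑ v ∈ A - A, ((min (rep3 A (u, v)) J : ℕ) : ℝ) := by
    rw [Finset.sum_product]
    push_cast
    rfl
  rw [h4]
  have h5 : (n : ℝ) * S + J * ((n : ℝ) ^ 2 - S) ≤
      ∑ u ∈ A - A, ∑ v ∈ A - A, ((min (rep3 A (u, v)) J : ℕ) : ℝ) := by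
    calc (n : ℝ) * S + J * ((n : ℝ) ^ 2 - S) = ∑ u ∈ A - A, ((n : ℝ) * (min (rep A A u) J : ℕ) +
        J * ((rep A A u : ℝ) - (min (rep A A u) J : ℕ))) := by
          rw [Finset.sum_add_distrib, ← Finset.mul_sum, ← Finset.mul_sum, Finset.sum_sub_distrib,
            hR, hS]
      _ ≤ _ := Finset.sum_le_sum fun u _ => h1 u
  refine le_trans ?_ h5
  have hJn : (J : ℝ) ≤ n := by exact_mod_cast hJ
  have hJ0 : (0 : ℝ) ≤ J := Nat.cast_nonneg J
  have h6 : ((n : ℝ) - J) * ((J : ℝ) * (2 * n - J)) ≤ ((n : ℝ) - J) * S :=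
    mul_le_mul_of_nonneg_left hS1 (by linarith)
  have h7 : 0 ≤ (J : ℝ) ^ 3 := by positivity
  nlinarith

end Pool.BD
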