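import Pool.Agent.Work.MP_dc37f8_co.Link
import Pool.Agent.Work.MP_dc37f8_co.Main
import Pool.Agent.Work.MP_dc37f8_bk.BSG
import Pool.Agent.Work.MP_dc37f8_bk.CONG
import Pool.Agent.Work.MP_dc37f8_bk.GEO
import Pool.Agent.Work.MP_dc37f8_bk.POP
import Pool.Agent.Work.MP_dc37f8_bk.TWO
import Pool.Agent.Work.MP_dc37f8_bd.ADD
import Pool.Agent.Work.MP_dc37f8_bd.CEN
import Pool.Agent.Work.MP_dc37f8_bd.CORE
import Pool.Agent.Work.MP_dc37f8_bd.COVDB
import Pool.Agent.Work.MP_dc37f8_bd.DIR
import Pool.Agent.Work.MP_dc37f8_bd.EX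
import Pool.Agent.Work.MP_dc37f8_bd.ISO
import Pool.Agent.Work.MP_dc37f8_bd.LIN
import Pool.Agent.Work.MP_dc37f8_bd.LINES
import Pool.Agent.Work.MP_dc37f8_bd.MIX
import Pool.Agent.Work.MP_dc37f8_bd.NONP
import Pool.Agent.Work.MP_dc37f8_bd.PARL
import Pool.Agent.Work.MP_dc37f8_bd.PBD
import Pool.Agent.Work.MP_dc37f8_bd.POLL
import Pool.Agent.Work.MP_dc37f8_bd.QUO
import Pool.Agent.Work.MP_dc37f8_bd.RLC
import Pool.Agent.Work.MP_dc37f8_bd.SEL
import Pool.Agent.Work.MP_dc37f8_bd.STR
import Pool.Agent.Work.MP_dc37f8_bd.WCS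
import Pool.Agent.Work.MP_dc37f8_bd.ZK

/-! FIN: the final assembly. -/

set_option autoImplicit false

open Finset

namespace Pool.BD

open Pool.Agent.ConvTri (Plane toC ofC toC_inj dist_toC toC_ofC toC_add)

/-! ### The assembled statements -/

theorem full_GEO : BK.Stmt_GEO := BK.stmt_GEO
theorem full_TWO : BK.Stmt_TWO := BK.stmt_TWO
theorem full_CON : BK.Stmt_CON := BK.stmt_CON
theorem full_BSG : BK.Stmt_BSG := BK.stmt_BSG
theorem full_POP : BK.Stmt_POP := BK.stmt_POP
theorem full_UP : BK.Stmt_UP := BK.stmt_UP full_TWO full_GEO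
theorem full_ISO : Stmt_ISO := stmt_ISO
theorem full_CORE : Stmt_CORE := stmt_CORE full_GEO full_ISO
theorem full_QUO : Stmt_QUO := stmt_QUO full_GEO
theorem full_STR : Stmt_STR := stmt_STR full_QUO full_BSG full_POP full_CORE full_GEO
theorem full_SEL : Stmt_SEL := stmt_SEL full_STR
theorem full_COVDB : Stmt_COVDB := stmt_COVDB
theorem full_PBD : Stmt_PBD := stmt_PBD full_TWO
theorem full_LIN : Stmt_LIN := stmt_LIN
theorem full_ADD : Stmt_ADD := stmt_ADD full_BSG
theorem full_DIR : Stmt_DIR := stmt_DIR full_PBD full_ADD full_LIN full_ISO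
theorem full_CEN : Stmt_CEN := stmt_CEN full_TWO full_GEO
theorem full_RLC : Stmt_RLC := stmt_RLC
theorem full_EX : Stmt_EX := stmt_EX full_CON
theorem full_MIX : Stmt_MIX :=
  stmt_MIX full_PBD full_SEL full_CEN full_DIR full_RLC full_EX full_UP
theorem full_POLL : Stmt_POLL := stmt_POLL
theorem full_ZK : Stmt_ZK := stmt_ZK full_POLL
theorem full_WCS : Stmt_WCS := stmt_WCS
theorem full_PARL : Stmt_PARL :=
  stmt_PARL full_ZK full_WCS full_CON full_PBD full_COVDB full_ISO
theorem full_NONP : Stmt_NONP := stmt_NONP full_EX full_PBD full_COVDB full_TWO full_ISO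
theorem full_LINES : Stmt_LINES := stmt_LINES full_NONP full_PARL

namespace FIN

theorem toC_smul (s : ℝ) (p : Plane) : toC (s • p) = s * toC p := by
  apply Complex.ext <;> simp [toC]

theorem ofC_toC (p : Plane) : ofC (toC p) = p := toC_inj (toC_ofC _)

open Classical in
/-- the congruence classes in both models -/
theorem TC_eq (P : Finset Plane) : BK.TC (P.image toC) = Pool.Agent.ConvTri.TC P := by
  ext m
  unfold BK.TC Pool.Agent.ConvTri.TC
  simp only [Finset.mem_image, Finset.mem_filter, Finset.mem_product]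
  constructor
  · rintro ⟨⟨a, b, c⟩, ⟨⟨⟨a', ha, rfl⟩, ⟨b', hb, rfl⟩, ⟨c', hc, rfl⟩⟩, h1, h2, h3⟩, rfl⟩
    refine ⟨(a', b', c'), ⟨⟨ha, hb, hc⟩, fun h => h1 (congrArg toC h), fun h => h2 (congrArg toC h),
      fun h => h3 (congrArg toC h)⟩, ?_⟩
    show _ = ({dist (toC a') (toC b'), dist (toC b') (toC c'), dist (toC a') (toC c')} : Multiset ℝ)
    rw [dist_toC, dist_toC, dist_toC]
    rfl
  · rintro ⟨⟨a, b, c⟩, ⟨⟨ha, hb, hc⟩, h1, h2, h3⟩, rfl⟩
    refine ⟨(toC a, toC b, toC c), ⟨⟨⟨a, ha, rfl⟩, ⟨b, hb, rfl⟩, ⟨c, hc, rfl⟩⟩,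
      fun h => h1 (toC_inj h), fun h => h2 (toC_inj h), fun h => h3 (toC_inj h)⟩, ?_⟩
    show ({dist (toC a) (toC b), dist (toC b) (toC c), dist (toC a) (toC c)} : Multiset ℝ) = _
    rw [dist_toC, dist_toC, dist_toC]
    rfl

/-- The lines which contain more than `k` points of `P` have at most `k` directions. -/
def FewRichDirections (k : ℕ) (P : Finset Plane) : Prop :=
  ∃ D : Finset (Submodule ℝ Plane), D.card ≤ k ∧
    ∀ l : AffineSubspace ℝ Plane, Module.finrank ℝ l.direction = 1 →
      k < ((P : Set Plane) ∩ (l : Set Plane)).ncard → l.direction ∈ D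

theorem toDB {k : ℕ} {P : Finset Plane} (h : FewRichDirections k P) : DB (P.image toC) k := by
  classical
  obtain ⟨D, hD, hl⟩ := h
  have hex : ∀ S : Submodule ℝ Plane, ∃ d : ℂ, ∀ v : Plane, S = Submodule.span ℝ {v} →
      ∃ s : ℝ, toC v = s * d := by
    intro S
    by_cases hS : ∃ w : Plane, S = Submodule.span ℝ {w}
    · obtain ⟨w, hw⟩ := hS
      refine ⟨toC w, ?_⟩
      intro v hv
      have h1 : v ∈ Submodule.span ℝ {w} := by
        rw [← hw, hv]; exact Submodule.mem_span_singleton_self v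
      obtain ⟨s, hs⟩ := Submodule.mem_span_singleton.1 h1
      exact ⟨s, by rw [← hs, toC_smul]⟩
    · exact ⟨0, fun v hv => absurd ⟨v, hv⟩ hS⟩
  choose φ hφ using hex
  refine ⟨D.image φ, card_image_le.trans hD, ?_⟩
  rintro ⟨p, v⟩ hv hcard
  have hv0 : ofC v ≠ 0 := by
    intro h0
    apply hv
    show v = 0
    rw [← toC_ofC v, h0]
    apply Complex.ext <;> simp [toC]
  set l : AffineSubspace ℝ Plane := AffineSubspace.mk' (ofC p) (Submodule.span ℝ {ofC v}) with hldef
  have hdir : l.direction = Submodule.span ℝ {ofC v} := AffineSubspace.direction_mk' _ _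
  have h1 : l.direction ∈ D := by
    apply hl
    · rw [hdir]; exact finrank_span_singleton hv0
    · refine lt_of_lt_of_le hcard ?_
      have hsub : (pts (P.image toC) (p, v)) ⊆ (P.filter (fun q => q ∈ l)).image toC := by
        intro y hy
        obtain ⟨hy1, s, hs⟩ := mem_filter.1 hy
        obtain ⟨q, hq, rfl⟩ := mem_image.1 hy1
        refine mem_image.2 ⟨q, mem_filter.2 ⟨hq, ?_⟩, rfl⟩
        rw [hldef, AffineSubspace.mem_mk', Submodule.mem_span_singleton]
        refine ⟨s, ?_⟩
        apply toC_inj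
        have e1 : q = (q -ᵥ ofC p) + ofC p := (sub_add_cancel q (ofC p)).symm
        have e2 : toC q = toC (q -ᵥ ofC p) + p := by
          conv_lhs => rw [e1]
          rw [toC_add, toC_ofC]
        rw [toC_smul, toC_ofC]
        have hs' : toC q = p + s * v := hs
        rw [e2] at hs'
        have : toC (q -ᵥ ofC p) = s * v := by
          have h2 : toC (q -ᵥ ofC p) + p = s * v + p := by rw [hs', add_comm]
          exact add_right_cancel h2
        exact this.symm
      have h2 := (card_le_card hsub).trans card_image_le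
      have h3 : ((P : Set Plane) ∩ (l : Set Plane)).ncard = (P.filter (fun q => q ∈ l)).card := by
        rw [← Set.ncard_coe_finset]
        congr 1
        ext q
        simp
      rw [h3]
      exact h2
  refine ⟨φ l.direction, mem_image_of_mem _ h1, ?_⟩
  obtain ⟨s, hs⟩ := hφ l.direction (ofC v) hdir
  exact ⟨s, by rw [← hs, toC_ofC]⟩

end FIN

open Pool.Agent.ConvTri FIN in
/-- **Sets with few rich directions.** -/
theorem dirs_final (k : ℕ) : ∃ n0 : ℕ, ∀ P P' : Finset Plane, P' ⊆ P → FewRichDirections k P' →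
    n0 ≤ P.card → 10 * P.card ≤ 11 * P'.card →
    round ((P.card : ℝ) ^ 2 / 12) ≤ ((TC P).card : ℤ) ∧
    (((TC P).card : ℤ) = round ((P.card : ℝ) ^ 2 / 12) →
      ∃ c, Conc.IsRegularPolygon P.card c P) := by
  classical
  obtain ⟨m, n₁, h1⟩ := full_MIX k (1 / 10000) (by norm_num) (by norm_num)
  obtain ⟨n₂, h2⟩ := full_LINES m (1 / 200) (by norm_num)
  refine ⟨2 * n₁ + 4 * n₂ + 1000, ?_⟩
  intro P P' hsub hP' hn hm
  by_cases hT : 12 * (TC P).card ≤ P.card ^ 2 + 6
  · have hle : P'.card ≤ P.card := card_le_card hsub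
    have hcard : (P'.image toC).card = P'.card := card_image_of_injective _ toC_inj
    have hTm : (TC P').card ≤ (TC P).card := card_le_card (TC_mono hsub)
    obtain ⟨n, hnd⟩ : ∃ n : ℝ, n = (P'.card : ℝ) := ⟨_, rfl⟩
    obtain ⟨N, hNd⟩ : ∃ N : ℝ, N = (P.card : ℝ) := ⟨_, rfl⟩
    obtain ⟨T, hTd⟩ : ∃ T : ℝ, T = ((TC P).card : ℝ) := ⟨_, rfl⟩
    have hT' : 12 * T ≤ N ^ 2 + 6 := by rw [hTd, hNd]; exact_mod_cast hT
    have hnN : 10 * N ≤ 11 * n := by rw [hnd, hNd]; exact_mod_cast hm
    have hN1000 : 1000 ≤ N := by rw [hNd]; exact_mod_cast (by omega : 1000 ≤ P.card)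
    have hn0 : 0 ≤ n := by rw [hnd]; positivity
    have hT0 : 0 ≤ T := by rw [hTd]; positivity
    have hnleN : n ≤ N := by rw [hnd, hNd]; exact_mod_cast hle
    have hN2 : N ^ 2 ≤ 121 / 100 * n ^ 2 := by
      have : (10 * N) ^ 2 ≤ (11 * n) ^ 2 := pow_le_pow_left₀ (by linarith) hnN 2
      nlinarith
    have hTm' : ((TC P').card : ℝ) ≤ T := by rw [hTd]; exact_mod_cast hTm
    have hDB := toDB hP'
    have h6T : 6 * ((BK.TC (P'.image toC)).card : ℝ) ≤ ((P'.image toC).card : ℝ) ^ 2 := by
      rw [TC_eq, hcard, ← hnd]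
      have : 900 ≤ n := by linarith
      nlinarith
    rcases h1 (P'.image toC) hDB (by rw [hcard]; omega) h6T with ⟨c, ρ, hρ, hc⟩ | ⟨Λ, hΛ, hΛc, hcov⟩
    · -- a large circle
      have hc2 : (((P'.image toC).filter (fun p => dist p c = ρ)).card : ℝ) ≤
          ((P.filter (fun p => dist p (ofC c) = ρ)).card : ℝ) := by
        have e1 : ((P'.image toC).filter (fun q => dist q c = ρ)).card =
            (P'.filter (fun p => dist p (ofC c) = ρ)).card := by
          rw [filter_image, card_image_of_injective _ toC_inj]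
          congr 1
          ext p
          have e : dist (toC p) c = dist p (ofC c) := by
            rw [← dist_toC, toC_ofC]
          simp only [mem_filter, e]
        rw [e1]
        exact_mod_cast card_le_card (filter_subset_filter _ hsub)
      have h3 : 3 * P.card ≤ 4 * (P.filter (fun p => dist p (ofC c) = ρ)).card := by
        by_contra hcon
        push Not at hcon
        obtain ⟨M, hM⟩ : ∃ M : ℝ, M = ((P.filter (fun p => dist p (ofC c) = ρ)).card : ℝ) :=
          ⟨_, rfl⟩
        have hM1 : 4 * M < 3 * N := by rw [hM, hNd]; exact_mod_cast hcon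
        rw [TC_eq, hcard, ← hnd] at hc
        rw [← hM] at hc2
        have e1 : n ^ 3 ≤ (N ^ 2 + 6) * (M + 1 / 10000 * n) := by
          calc n ^ 3 ≤ 12 * ((TC P').card : ℝ) *
                (((P'.image toC).filter (fun p => dist p c = ρ)).card + 1 / 10000 * n) := hc
            _ ≤ (N ^ 2 + 6) * (M + 1 / 10000 * n) := by
                apply mul_le_mul
                · linarith
                · linarith
                · positivity
                · positivity
        have e2 : (N ^ 2 + 6) * (M + 1 / 10000 * n) ≤ (N ^ 2 + 6) * (7501 / 10000 * N) := by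
          apply mul_le_mul_of_nonneg_left _ (by positivity)
          linarith
        have e3 : (1000 / 1331) * N ^ 3 ≤ n ^ 3 := by
          have : (10 * N) ^ 3 ≤ (11 * n) ^ 3 := pow_le_pow_left₀ (by linarith) hnN 3
          nlinarith
        have e4 : (1000 / 1331) * N ^ 3 ≤ (N ^ 2 + 6) * (7501 / 10000 * N) := by linarith
        have e5 : (1000 / 1331 - 7501 / 10000) * N ^ 3 ≤ 6 * (7501 / 10000) * N := by
          have : (N ^ 2 + 6) * (7501 / 10000 * N) =
            7501 / 10000 * N ^ 3 + 6 * (7501 / 10000) * N := by ring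
          rw [this] at e4
          linarith
        have e6 : 1000000 * N ≤ N ^ 3 := by
          have : 1000000 ≤ N ^ 2 := by nlinarith
          nlinarith
        norm_num at e5
        nlinarith
      have h17 : 17 ≤ P.card := by omega
      have h4 := circle_final (by omega) h3
      exact ⟨h4.1, fun h => ⟨ofC c, h4.2 (Or.inl h17) h⟩⟩
    · -- few lines
      exfalso
      obtain ⟨q, hq⟩ : ∃ q : ℝ, q = (Λ.card : ℝ) := ⟨_, rfl⟩
      rw [hcard, ← hnd, ← hq] at hΛc
      have hqn : n₂ ≤ Λ.card := by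
        have e1 : (n₂ : ℝ) ≤ (Λ.card : ℝ) := by
          rw [← hq]
          have e2 : (4 * n₂ : ℝ) ≤ N := by rw [hNd]; exact_mod_cast (by omega : 4 * n₂ ≤ P.card)
          linarith
        exact_mod_cast e1
      have h3 := h2 Λ hcov hqn
      have h4 : ((BK.TC Λ).card : ℝ) ≤ T := by
        refine le_trans ?_ hTm'
        rw [← TC_eq]
        have : BK.TC Λ ⊆ BK.TC (P'.image toC) := by
          unfold BK.TC
          apply image_subset_image
          apply filter_subset_filter
          exact product_subset_product hΛ (product_subset_product hΛ hΛ)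
        exact_mod_cast card_le_card this
      rw [← hq] at h3
      have e1 : (9999 / 10000 * n) ^ 2 ≤ q ^ 2 := by
        apply pow_le_pow_left₀ (by positivity)
        linarith
      have e2 : 12 / 100 * (9999 / 10000 * n) ^ 2 ≤ T := by
        calc 12 / 100 * (9999 / 10000 * n) ^ 2 ≤ 12 / 100 * q ^ 2 :=
              mul_le_mul_of_nonneg_left e1 (by norm_num)
          _ = (1 / 8 - 1 / 200) * q ^ 2 := by ring
          _ ≤ _ := h3.trans h4
      have e3 : 1000000 ≤ N ^ 2 := by nlinarith
      nlinarith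
  · have h1 : P.card ^ 2 ≤ 12 * ((TC P).card - 1) + 5 := by omega
    have h2 := round_le_iff h1
    have h3 : 1 ≤ (TC P).card := by omega
    push_cast [Nat.cast_sub h3] at h2
    exact ⟨by omega, fun h => by omega⟩

end Pool.BD
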