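import Pool.Agent.Work.MP_dc37f8_bk.Interface
import Pool.Agent.Work.MP_dc37f8_bk.E3
import Pool.Agent.Work.MP_dc37f8_bk.UP

/-!
# MP_dc37f8_co: sets whose rich lines have few directions (helper36)

The statements of the blocks. Proofs on paper: BLUEPRINT.md.
-/

set_option autoImplicit false

open Finset

namespace Pool.BD

open Pool.BK

/-- the point `y` is on the line `l.1 + ℝ l.2` -/
def On (l : ℂ × ℂ) (y : ℂ) : Prop := ∃ s : ℝ, y = l.1 + s * l.2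

open Classical in
/-- the points of `P` on the line `l` -/
noncomputable def pts (P : Finset ℂ) (l : ℂ × ℂ) : Finset ℂ := P.filter (fun y => On l y)

/-- the lines with more than `k` points of `P` have at most `k` directions -/
def DB (P : Finset ℂ) (k : ℕ) : Prop :=
  ∃ D : Finset ℂ, D.card ≤ k ∧ ∀ l : ℂ × ℂ, l.2 ≠ 0 → k < (pts P l).card →
    ∃ d ∈ D, ∃ s : ℝ, l.2 = s * d

/-- bound for the second moment over all isometries -/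
def PB (P : Finset ℂ) (κ : ℝ) : Prop :=
  ∀ 𝒢 : Finset Gp, (∀ g ∈ 𝒢, IsIso g) →
    ∑ g ∈ 𝒢, ((st P g).card : ℝ) * ((st P g).card - 1) ≤ κ * (P.card : ℝ) ^ 3

/-- `Y` is covered by at most `m` lines -/
def Cov (Y : Finset ℂ) (m : ℕ) : Prop :=
  ∃ 𝓛 : Finset (ℂ × ℂ), 𝓛.card ≤ m ∧ (∀ l ∈ 𝓛, l.2 ≠ 0) ∧ ∀ y ∈ Y, ∃ l ∈ 𝓛, On l y

open Classical in
/-- the points of `P` on `β`-rich lines -/
noncomputable def Lam (P : Finset ℂ) (β : ℝ) : Finset ℂ :=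
  P.filter (fun p => ∃ v : ℂ, v ≠ 0 ∧ β * P.card ≤ ((pts P (p, v)).card : ℝ))

open Classical in
/-- the points of `P` on `β`-rich circles about the points of the pairs in `𝒬` -/
noncomputable def Rr (P : Finset ℂ) (β : ℝ) (𝒬 : Finset (ℂ × ℂ)) : Finset ℂ :=
  P.filter (fun p => ∃ z ∈ 𝒬, p ∈ UP.R P (β * P.card) z.1 ∨ p ∈ UP.R P (β * P.card) z.2)

open Classical in
/-- the points of `st P g` for which `p` or `g p` is not in `Q` -/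
noncomputable def bad (P Q : Finset ℂ) (g : Gp) : Finset ℂ :=
  (st P g).filter (fun p => ¬ (p ∈ Q ∧ g p ∈ Q))

open Classical in
/-- number of representations `t = b - a` -/
noncomputable def rep (A B : Finset ℂ) (t : ℂ) : ℕ := (A.filter (fun a => a + t ∈ B)).card

open Classical in
/-- number of `p` with `p`, `p + u`, `p + v` in `A` -/
noncomputable def rep3 (A : Finset ℂ) (z : ℂ × ℂ) : ℕ :=
  (A.filter (fun p => p + z.1 ∈ A ∧ p + z.2 ∈ A)).card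

open scoped Pointwise

/-! ### Part A: isometries and groups -/

/-- ISO: more facts on isometries -/
def Stmt_ISO : Prop :=
  (∀ f g : Gp, IsIso f → IsTr g → IsTr (f * g * f⁻¹)) ∧
  (∀ f g : Gp, IsDir f → IsTr g → (f * g * f⁻¹) 0 = (f 1 - f 0) * g 0) ∧
  (∀ f : Gp, IsDir f → ‖f 1 - f 0‖ = 1) ∧
  (∀ f g : Gp, IsTr f → IsTr g → IsTr (f * g) ∧ (f * g) 0 = f 0 + g 0) ∧
  (∀ f : Gp, IsTr f → IsTr f⁻¹ ∧ f⁻¹ 0 = - f 0) ∧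
  (∀ f g : Gp, IsTr f → IsTr g → f 0 = g 0 → f = g) ∧
  (∀ f : Gp, IsIso f → IsIso f⁻¹) ∧
  (∀ f : Gp, IsIso f → ∀ (p v : ℂ) (s : ℝ), f (p + s * v) = f p + s * (f v - f 0)) ∧
  (∀ f : Gp, IsIso f → ∀ v : ℂ, v ≠ 0 → f v - f 0 ≠ 0) ∧
  (∀ (f : Gp) (v : ℂ), IsIso f → v ≠ 0 → (∃ s : ℝ, f v - f 0 = s * v) →
    (∀ z, f z - f 0 = z) ∨ (∀ z, f z - f 0 = -z) ∨
    (∀ z, f z - f 0 = (v / (starRingEnd ℂ) v) * (starRingEnd ℂ) z) ∨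
    (∀ z, f z - f 0 = -((v / (starRingEnd ℂ) v) * (starRingEnd ℂ) z)))

open Classical in
/-- CORE: an approximate group has a common pair of centres or a common linear part
(from GEO, ISO) -/
def Stmt_CORE : Prop :=
  ∀ (K : ℝ), 1 ≤ K → ∃ (ε' : ℝ) (N : ℕ), 0 < ε' ∧
    ∀ (A S : Finset Gp) (a : Gp), ((∀ g ∈ A, IsDir g) ∨ (∀ g ∈ A, IsOpp g)) →
      a ∈ A → (1 : Gp) ∈ S → S⁻¹ = S → (∀ x ∈ S, IsDir x) →
      (A.card : ℝ) / (2 * K) ≤ (S.filter (fun x => a * x ∈ A)).card →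
      (∀ m : ℕ, ((S ^ m).card : ℝ) ≤ 2 ^ m * K ^ (2 * m + 1) * A.card) →
      N ≤ A.card →
      (∃ c c' : ℂ, ε' * A.card ≤ ((A.filter (fun g => g c = c')).card : ℝ)) ∨
      (∃ h ∈ A, ε' * A.card ≤ ((A.filter (fun g => IsTr (g * h⁻¹))).card : ℝ))

open Classical in
/-- QUO: many quotients of rich isometries are rich (from GEO) -/
def Stmt_QUO : Prop :=
  ∀ (κ δ ε : ℝ), 0 < κ → 0 < δ → 0 < ε → ∃ (K : ℝ) (n₀ : ℕ), 0 < K ∧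
    ∀ (P : Finset ℂ), PB P κ → n₀ ≤ P.card → ∀ 𝒢 : Finset Gp, (∀ g ∈ 𝒢, IsIso g) →
      (∀ g ∈ 𝒢, δ * P.card ≤ (st P g).card) → ε * P.card ≤ (𝒢.card : ℝ) →
      ∃ U : Finset Gp, (U.card : ℝ) ≤ K * 𝒢.card ∧
        δ ^ 2 / 2 * (𝒢.card : ℝ) ^ 2 ≤ ((𝒢 ×ˢ 𝒢).filter (fun z => z.1 * z.2⁻¹ ∈ U)).card

open Classical in
/-- STR: rich isometries have a common pair of centres or a common linear part
(from QUO, Pool.BK.Stmt_BSG, Pool.BK.Stmt_POP, CORE, GEO) -/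
def Stmt_STR : Prop :=
  ∀ (κ δ ε : ℝ), 0 < κ → 0 < δ → 0 < ε → ∃ (ε' : ℝ) (n₀ : ℕ), 0 < ε' ∧
    ∀ (P : Finset ℂ), PB P κ → n₀ ≤ P.card → ∀ 𝒢 : Finset Gp, (∀ g ∈ 𝒢, IsIso g) →
      (∀ g ∈ 𝒢, δ * P.card ≤ (st P g).card) → ε * P.card ≤ (𝒢.card : ℝ) →
      (∃ c c' : ℂ, ε' * P.card ≤ ((𝒢.filter (fun g => g c = c')).card : ℝ)) ∨
      (∃ h ∈ 𝒢, ε' * P.card ≤ ((𝒢.filter (fun g => IsTr (g * h⁻¹))).card : ℝ))

open Classical in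
/-- SEL: boundedly many pairs of centres and linear parts (from STR) -/
def Stmt_SEL : Prop :=
  ∀ (κ δ ε : ℝ), 0 < κ → 0 < δ → 0 < ε → ∃ (L n₀ : ℕ),
    ∀ (P : Finset ℂ), PB P κ → n₀ ≤ P.card → ∀ 𝒢 : Finset Gp, (∀ g ∈ 𝒢, IsIso g) →
      (∀ g ∈ 𝒢, δ * P.card ≤ (st P g).card) →
      ∃ (𝒬 : Finset (ℂ × ℂ)) (𝒲 : Finset Gp), 𝒬.card ≤ L ∧ 𝒲.card ≤ L ∧ (∀ h ∈ 𝒲, IsIso h) ∧
        ((𝒢.filter (fun g => (∀ z ∈ 𝒬, g z.1 ≠ z.2) ∧ ∀ h ∈ 𝒲, ¬ IsTr (g * h⁻¹))).card : ℝ) ≤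
          ε * P.card

/-! ### Part B: translations and lines -/

/-- COVDB: sets on few lines have few rich directions -/
def Stmt_COVDB : Prop := ∀ (P : Finset ℂ) (m : ℕ), Cov P m → DB P m

/-- PBD: the second moment of sets with few rich directions (from TWO) -/
def Stmt_PBD : Prop := ∀ (P : Finset ℂ) (k : ℕ), DB P k → PB P (4 * (k + 1))

/-- LIN: sets of small doubling with few rich directions are on few lines -/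
def Stmt_LIN : Prop :=
  ∀ (K : ℝ) (k : ℕ), ∃ J : ℕ, ∀ Y : Finset ℂ, ((Y - Y).card : ℝ) ≤ K * Y.card → DB Y k → Cov Y J

/-- ADD: additive Balog-Szemeredi-Gowers (from Pool.BK.Stmt_BSG) -/
def Stmt_ADD : Prop :=
  ∀ (c : ℝ), 0 < c → ∃ (c₁ K : ℝ), 0 < c₁ ∧ 0 < K ∧
    ∀ (A C : Finset ℂ) (n : ℕ), 0 < n → A.card ≤ n → C.card ≤ n →
      c * (n : ℝ) ^ 3 ≤ ∑ z ∈ A ×ˢ A, (rep C C (z.2 - z.1) : ℝ) →
      ∃ A' ⊆ A, c₁ * n ≤ (A'.card : ℝ) ∧ ((A' - A').card : ℝ) ≤ K * A'.card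

/-- DIR: isometries with a common linear part move points of rich lines to points of rich lines
(from PBD, ADD, LIN, ISO) -/
def Stmt_DIR : Prop :=
  ∀ (k : ℕ) (δ η : ℝ), 0 < δ → 0 < η → ∃ (β₀ : ℝ) (n₀ : ℕ), 0 < β₀ ∧
    ∀ (P : Finset ℂ) (β : ℝ), 0 < β → β ≤ β₀ → DB P k → n₀ ≤ P.card →
      ∀ (h : Gp) (𝒢 : Finset Gp), IsIso h → (∀ g ∈ 𝒢, IsIso g ∧ IsTr (g * h⁻¹)) →
        (∀ g ∈ 𝒢, δ * P.card ≤ (st P g).card) →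
        ∑ g ∈ 𝒢, ((bad P (Lam P β) g).card : ℝ) ≤ η * (P.card : ℝ) ^ 2

/-- CEN: isometries with few pairs of centres move points of rich circles to points of rich
circles (from TWO, GEO; see UP.lean) -/
def Stmt_CEN : Prop :=
  ∀ (L : ℕ) (δ η : ℝ), 0 < δ → 0 < η → ∃ (β₀ : ℝ) (n₀ : ℕ), 0 < β₀ ∧
    ∀ (P : Finset ℂ) (β : ℝ), 0 < β → β ≤ β₀ → n₀ ≤ P.card →
      ∀ (𝒬 : Finset (ℂ × ℂ)) (𝒢 : Finset Gp), 𝒬.card ≤ L →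
        (∀ g ∈ 𝒢, IsIso g ∧ ∃ z ∈ 𝒬, g z.1 = z.2) →
        (∀ g ∈ 𝒢, δ * P.card ≤ (st P g).card) →
        ∑ g ∈ 𝒢, ((bad P (Rr P β 𝒬) g).card : ℝ) ≤ η * (P.card : ℝ) ^ 2

/-- RLC: rich lines and circles have few common points, and there are few rich lines -/
def Stmt_RLC : Prop :=
  ∀ (β : ℝ) (L : ℕ), 0 < β → ∃ (C n₀ : ℕ), ∀ (P : Finset ℂ) (𝒬 : Finset (ℂ × ℂ)),
    n₀ ≤ P.card → 𝒬.card ≤ L →
      (Rr P β 𝒬 ∩ Lam P β).card ≤ C ∧ Cov (Lam P β) C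

open Classical in
/-- EX: Cauchy-Schwarz for families of triples (from CON; see E3.lean) -/
def Stmt_EX : Prop :=
  ∀ P : Finset ℂ, ∃ 𝒢 : Finset Gp, (∀ g ∈ 𝒢, IsIso g) ∧ (∀ g ∈ 𝒢, 2 ≤ (st P g).card) ∧
    ∀ X ⊆ E3.T3 P, (X.card : ℝ) ^ 2 ≤ 6 * (TC P).card *
      ∑ g ∈ 𝒢, ((X.filter (fun x => x.1 ∈ st P g ∧ x.2.1 ∈ st P g ∧ x.2.2 ∈ st P g)).card : ℝ)

open Classical in
/-- MIX: a large circle or few lines (from PBD, SEL, CEN, DIR, RLC, EX, Pool.BK.Stmt_UP) -/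
def Stmt_MIX : Prop :=
  ∀ (k : ℕ) (s : ℝ), 0 < s → s ≤ 1 → ∃ (m n₀ : ℕ), ∀ (P : Finset ℂ), DB P k → n₀ ≤ P.card →
    6 * ((TC P).card : ℝ) ≤ (P.card : ℝ) ^ 2 →
    (∃ (c : ℂ) (ρ : ℝ), 0 < ρ ∧ (P.card : ℝ) ^ 3 ≤ 12 * (TC P).card *
      (((P.filter (fun p => dist p c = ρ)).card : ℝ) + s * P.card)) ∨
    (∃ Λ ⊆ P, (1 - s) * P.card ≤ (Λ.card : ℝ) ∧ Cov Λ m)

/-! ### Part C: sets on few lines -/

/-- POLL: Pollard's inequality (without wrap-around) -/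
def Stmt_POLL : Prop :=
  ∀ (A B : Finset ℂ) (J : ℕ), J ≤ A.card → J ≤ B.card →
    J * (A.card + B.card - J) ≤ ∑ t ∈ B - A, min (rep A B t) J

/-- ZK: the truncated number of translation classes of triples (from POLL) -/
def Stmt_ZK : Prop :=
  ∀ (A : Finset ℂ) (J : ℕ), J ≤ A.card →
    3 * (J : ℝ) * (A.card : ℝ) ^ 2 - 3 * (J : ℝ) ^ 2 * A.card ≤
      ∑ z ∈ (A - A) ×ˢ (A - A), (min (rep3 A z) J : ℝ)

open Classical in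
/-- WCS: weighted Cauchy-Schwarz -/
def Stmt_WCS : Prop :=
  ∀ (P : Finset ℂ) (lam : ℂ × ℂ × ℂ → ℝ), (∀ x, 0 ≤ lam x) →
    (∑ x ∈ E3.T3 P, lam x) ^ 2 ≤ 6 * (TC P).card *
      ∑ z ∈ (E3.T3 P ×ˢ E3.T3 P).filter (fun z => E3.key z.1 = E3.key z.2), lam z.1 * lam z.2

/-- PARL: sets on few parallel lines (from ZK, WCS, CON, PBD, COVDB, ISO) -/
def Stmt_PARL : Prop :=
  ∀ (m : ℕ) (s : ℝ), 0 < s → ∃ n₀ : ℕ, ∀ (P 𝓟 : Finset ℂ) (v : ℂ), v ≠ 0 → 𝓟.card ≤ m →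
    (∀ y ∈ P, ∃ p ∈ 𝓟, On (p, v) y) → n₀ ≤ P.card →
    (1 / 8 - s) * (P.card : ℝ) ^ 2 ≤ (TC P).card

/-- NONP: two lines which are not parallel (from EX, PBD, COVDB, TWO, ISO) -/
def Stmt_NONP : Prop :=
  ∀ (m : ℕ), ∃ C : ℝ, 0 < C ∧ ∀ (P : Finset ℂ) (𝓛 : Finset (ℂ × ℂ)), 𝓛.card ≤ m →
    (∀ l ∈ 𝓛, l.2 ≠ 0) → (∀ y ∈ P, ∃ l ∈ 𝓛, On l y) → 4 ≤ P.card →
    ∀ l₁ ∈ 𝓛, ∀ l₂ ∈ 𝓛, (¬ ∃ s : ℝ, l₂.2 = s * l₁.2) →
      1 ≤ (pts P l₁).card * (pts P l₂).card →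
      (((pts P l₁).card : ℝ) * (pts P l₂).card - 1) ^ 2 ≤ C * (TC P).card * P.card

/-- LINES: sets on few lines (from NONP, PARL) -/
def Stmt_LINES : Prop :=
  ∀ (m : ℕ) (s : ℝ), 0 < s → ∃ n₀ : ℕ, ∀ (P : Finset ℂ), Cov P m → n₀ ≤ P.card →
    (1 / 8 - s) * (P.card : ℝ) ^ 2 ≤ (TC P).card

end Pool.BD
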