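import Pool.Agent.Work.MP_dc37f8_bd.Interface

/-!
# Block WCS: weighted Cauchy-Schwarz
-/

set_option autoImplicit false

open Finset

namespace Pool.BD.WCS

/-- weighted Cauchy-Schwarz for the fibres of a map -/
lemma wcs {α β : Type*} [DecidableEq α] [DecidableEq β] (s : Finset α) (f : α → β) (lam : α → ℝ) :
    (∑ x ∈ s, lam x) ^ 2 ≤ ((s.image f).card : ℝ) *
      ∑ z ∈ (s ×ˢ s).filter (fun z => f z.1 = f z.2), lam z.1 * lam z.2 := by
  have h1 : ∑ x ∈ s, lam x = ∑ b ∈ s.image f, ∑ x ∈ s.filter (fun a => f a = b), lam x :=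
    (Finset.sum_fiberwise_of_maps_to (fun x hx => Finset.mem_image_of_mem f hx) lam).symm
  have h2 : ∑ z ∈ (s ×ˢ s).filter (fun z => f z.1 = f z.2), lam z.1 * lam z.2 =
      ∑ b ∈ s.image f, (∑ x ∈ s.filter (fun a => f a = b), lam x) ^ 2 := by
    rw [← Finset.sum_fiberwise_of_maps_to (s := (s ×ˢ s).filter (fun z => f z.1 = f z.2))
      (t := s.image f) (g := fun z => f z.1)]
    · apply Finset.sum_congr rfl
      intro b _
      have h4 : ((s ×ˢ s).filter (fun z => f z.1 = f z.2)).filter (fun z => f z.1 = b) =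
          (s.filter (fun a => f a = b)) ×ˢ (s.filter (fun a => f a = b)) := by
        ext z
        simp only [Finset.mem_filter, Finset.mem_product]
        constructor
        · rintro ⟨⟨⟨h1, h2⟩, h3⟩, h4⟩
          exact ⟨⟨h1, h4⟩, h2, by rw [← h3]; exact h4⟩
        · rintro ⟨⟨h1, h2⟩, h3, h4⟩
          exact ⟨⟨⟨h1, h3⟩, by rw [h2, h4]⟩, h2⟩
      rw [h4, Finset.sum_product, sq, Finset.sum_mul_sum]
    · intro z hz
      exact Finset.mem_image_of_mem f (Finset.mem_product.mp (Finset.mem_filter.mp hz).1).1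
  rw [h1, h2]
  exact sq_sum_le_card_mul_sum_sq

end Pool.BD.WCS

namespace Pool.BD

open Pool.BK

open Classical in
theorem stmt_WCS : Stmt_WCS := by
  intro P lam hlam
  refine (WCS.wcs (E3.T3 P) E3.key lam).trans ?_
  have h2 : ((((E3.T3 P).image E3.key).card : ℕ) : ℝ) ≤ 6 * (TC P).card := by
    exact_mod_cast E3.card_keys P
  apply mul_le_mul_of_nonneg_right h2
  exact Finset.sum_nonneg fun z _ => mul_nonneg (hlam _) (hlam _)

end Pool.BD
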